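import Pool.Agent.helper39.MESH.Gen
import Pool.Agent.helper12.SP.K2

/-!
# Module CNT: counting, for errorless automata
-/

set_option autoImplicit false

namespace Pool.Agent.helper39.MESH

open Pool.Agent.helper12.SP (TM DSPACE Ctx Pb Cmp CmpP num pw dg pm up np capN capn num_bounds
  num_inj DSPACE_mono dspace_of_cmp exists_hard pw_eq two_pow_le_capN)

/-- few truth tables are consistent with many answers -/
theorem fool_card (m : ℕ) (g : ℕ → ℕ) (hg : ∀ r, g r ≤ 2) :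
    (((Finset.range (2 ^ m)).filter fun x => ∀ r < m, g r = 0 ∨ g r = 1 + x / 2 ^ r % 2).card : ℝ) *
      2 ^ (∑ r ∈ Finset.range m, if g r = 0 then 0 else 1) ≤ 2 ^ m := by
  classical
  have h1 := Pool.Agent.helper12.SP.sum_bits m (fun r b => if g r = 0 ∨ g r = 1 + b then 1 else 0)
  set B := (Finset.range (2 ^ m)).filter
    fun x => ∀ r < m, g r = 0 ∨ g r = 1 + x / 2 ^ r % 2 with hB
  have h2 : (B.card : ℝ) ≤ ∏ r ∈ Finset.range m, ((if g r = 0 ∨ g r = 1 + 0 then (1 : ℝ) else 0) +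
      (if g r = 0 ∨ g r = 1 + 1 then 1 else 0)) := by
    rw [← h1]
    calc (B.card : ℝ) = ∑ x ∈ B, (1 : ℝ) := by simp
      _ = ∑ x ∈ B, ∏ r ∈ Finset.range m,
            (if g r = 0 ∨ g r = 1 + x / 2 ^ r % 2 then (1 : ℝ) else 0) := by
          refine Finset.sum_congr rfl fun x hx => ?_
          symm
          refine Finset.prod_eq_one fun r hr => ?_
          rw [if_pos ((Finset.mem_filter.1 hx).2 r (Finset.mem_range.1 hr))]
      _ ≤ ∑ x ∈ Finset.range (2 ^ m), ∏ r ∈ Finset.range m,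
            (if g r = 0 ∨ g r = 1 + x / 2 ^ r % 2 then (1 : ℝ) else 0) := by
          refine Finset.sum_le_sum_of_subset_of_nonneg (Finset.filter_subset _ _) fun _ _ _ => ?_
          refine Finset.prod_nonneg fun _ _ => ?_
          split_ifs <;> norm_num
  have h3 : (∏ r ∈ Finset.range m, ((if g r = 0 ∨ g r = 1 + 0 then (1 : ℝ) else 0) +
      (if g r = 0 ∨ g r = 1 + 1 then 1 else 0))) *
      2 ^ (∑ r ∈ Finset.range m, if g r = 0 then 0 else 1) = 2 ^ m := by
    rw [← Finset.prod_pow_eq_pow_sum, ← Finset.prod_mul_distrib]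
    calc ∏ r ∈ Finset.range m, (((if g r = 0 ∨ g r = 1 + 0 then (1 : ℝ) else 0) +
          (if g r = 0 ∨ g r = 1 + 1 then 1 else 0)) * 2 ^ (if g r = 0 then 0 else 1))
        = ∏ r ∈ Finset.range m, (2 : ℝ) := by
          refine Finset.prod_congr rfl fun r _ => ?_
          have h4 := hg r
          interval_cases h5 : g r <;> norm_num
      _ = 2 ^ m := by simp
  calc (B.card : ℝ) * 2 ^ (∑ r ∈ Finset.range m, if g r = 0 then 0 else 1)
      ≤ (∏ r ∈ Finset.range m, ((if g r = 0 ∨ g r = 1 + 0 then (1 : ℝ) else 0) +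
        (if g r = 0 ∨ g r = 1 + 1 then 1 else 0))) *
        2 ^ (∑ r ∈ Finset.range m, if g r = 0 then 0 else 1) :=
        mul_le_mul_of_nonneg_right h2 (by positivity)
    _ = 2 ^ m := h3

/-- the weights of the advice strings -/
noncomputable def fw (Z : ℕ) : ℝ := 1 / (2 ^ Nat.log 2 Z * ((Nat.log 2 Z : ℝ) + 1) ^ 2)

theorem fw_sum_succ (m : ℕ) (hm : 1 ≤ m) :
    ∑ Z ∈ Finset.range (2 ^ m), fw Z ≤ 3 - 1 / (m : ℝ) := by
  induction m, hm using Nat.le_induction with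
  | base =>
    have h0 : fw 0 = 1 := by unfold fw; simp
    have h1 : fw 1 = 1 := by unfold fw; simp
    rw [pow_one, Finset.sum_range_succ, Finset.sum_range_one, h0, h1]
    norm_num
  | succ m hm ih =>
    have h1 : Finset.range (2 ^ (m + 1)) = Finset.range (2 ^ m + 2 ^ m) := by
      rw [pow_succ]
      congr 1
      omega
    rw [h1, Finset.sum_range_add]
    have h2 : ∀ x ∈ Finset.range (2 ^ m), fw (2 ^ m + x) = 1 / (2 ^ m * ((m : ℝ) + 1) ^ 2) := by
      intro x hx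
      have h3 := (capN_eq 1 m x (Finset.mem_range.1 hx)).1
      unfold fw
      rw [h3]
    rw [Finset.sum_congr rfl h2, Finset.sum_const, Finset.card_range, nsmul_eq_mul]
    have hm0 : (0 : ℝ) < m := by exact_mod_cast hm
    have h4 : ((2 ^ m : ℕ) : ℝ) * (1 / (2 ^ m * ((m : ℝ) + 1) ^ 2)) = 1 / ((m : ℝ) + 1) ^ 2 := by
      push_cast
      field_simp
    rw [h4]
    have h5 : 1 / ((m : ℝ) + 1) ^ 2 ≤ 1 / (m : ℝ) - 1 / ((m : ℝ) + 1) := by
      have h6 : 1 / (m : ℝ) - 1 / ((m : ℝ) + 1) = 1 / ((m : ℝ) * (m + 1)) := by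
        field_simp
        ring
      rw [h6]
      refine one_div_le_one_div_of_le (by positivity) ?_
      nlinarith
    push_cast
    linarith

theorem fw_sum (m : ℕ) : ∑ Z ∈ Finset.range (2 ^ m), fw Z ≤ 3 := by
  rcases Nat.eq_zero_or_pos m with h | h
  · subst h
    have h0 : fw 0 = 1 := by unfold fw; simp
    rw [pow_zero, Finset.sum_range_one, h0]
    norm_num
  · have h1 := fw_sum_succ m h
    have h2 : (0 : ℝ) ≤ 1 / (m : ℝ) := by positivity
    linarith

/-- the bound `be` is large enough -/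
theorem be_large (n Z : ℕ) : 4 * (n : ℝ) ≤ fw Z * 2 ^ (be n Z + 1) := by
  set a := Nat.log 2 Z with ha
  have h1 : (a + 1 : ℕ) < 2 ^ (Nat.log 2 (a + 1) + 1) := Nat.lt_pow_succ_log_self (by norm_num) _
  have h2 : n < 2 ^ (Nat.log 2 n + 1) := Nat.lt_pow_succ_log_self (by norm_num) _
  have h1' : ((a : ℝ) + 1) ≤ 2 * 2 ^ Nat.log 2 (a + 1) := by
    have : ((a + 1 : ℕ) : ℝ) < ((2 ^ (Nat.log 2 (a + 1) + 1) : ℕ) : ℝ) := by exact_mod_cast h1
    push_cast at this
    rw [pow_succ] at this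
    linarith
  have h2' : (n : ℝ) ≤ 2 * 2 ^ Nat.log 2 n := by
    have : ((n : ℕ) : ℝ) < ((2 ^ (Nat.log 2 n + 1) : ℕ) : ℝ) := by exact_mod_cast h2
    push_cast at this
    rw [pow_succ] at this
    linarith
  have h3 : (2 : ℝ) ^ (be n Z + 1) =
      8 * (2 ^ a * ((2 * 2 ^ Nat.log 2 (a + 1)) ^ 2 * (2 * 2 ^ Nat.log 2 n))) / 2 := by
    have h4 : be n Z + 1 = a + Nat.log 2 (a + 1) * 2 + Nat.log 2 n + 5 := by
      unfold be
      rw [← ha]
      ring
    rw [h4]
    ring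
  unfold fw
  rw [← ha, h3, div_mul_eq_mul_div, one_mul, le_div_iff₀ (by positivity)]
  have h5 : ((a : ℝ) + 1) ^ 2 ≤ (2 * 2 ^ Nat.log 2 (a + 1)) ^ 2 :=
    pow_le_pow_left₀ (by positivity) h1' 2
  have h6 : (n : ℝ) * ((a : ℝ) + 1) ^ 2 ≤
      (2 * 2 ^ Nat.log 2 n) * (2 * 2 ^ Nat.log 2 (a + 1)) ^ 2 :=
    mul_le_mul h2' h5 (by positivity) (by positivity)
  have h7 : (2 : ℝ) ^ a * ((n : ℝ) * ((a : ℝ) + 1) ^ 2) ≤
      2 ^ a * ((2 * 2 ^ Nat.log 2 n) * (2 * 2 ^ Nat.log 2 (a + 1)) ^ 2) :=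
    mul_le_mul_of_nonneg_left h6 (by positivity)
  nlinarith [h7]

/-- Some truth table of length `m` fools all members of a family which answer too often. -/
theorem exists_fool (n m : ℕ) (hn : 1 ≤ n) (f : ℕ → ℕ → ℕ → ℕ) (hf : ∀ e Z r, f e Z r ≤ 2) :
    ∃ x < 2 ^ m, ∀ e < n, ∀ Z < 2 ^ m,
      (∑ r ∈ Finset.range m, if f e Z r = 0 then 0 else 1) ≤ be n Z ∨
      ∃ r < m, f e Z r ≠ 0 ∧ f e Z r ≠ 1 + x / 2 ^ r % 2 := by
  classical
  by_contra hcon
  push Not at hcon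
  set k : ℕ → ℕ → ℕ := fun e Z => ∑ r ∈ Finset.range m, if f e Z r = 0 then 0 else 1 with hk
  set B : ℕ → ℕ → Finset ℕ := fun e Z => (Finset.range (2 ^ m)).filter fun x =>
    be n Z < k e Z ∧ ∀ r < m, f e Z r = 0 ∨ f e Z r = 1 + x / 2 ^ r % 2 with hB
  have hn0 : (0 : ℝ) < n := by exact_mod_cast hn
  have hcov : Finset.range (2 ^ m) ⊆
      (Finset.range n).biUnion fun e => (Finset.range (2 ^ m)).biUnion fun Z => B e Z := by
    intro x hx
    obtain ⟨e, he, Z, hZ, h1, h2⟩ := hcon x (Finset.mem_range.1 hx)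
    rw [Finset.mem_biUnion]
    refine ⟨e, Finset.mem_range.2 he, ?_⟩
    rw [Finset.mem_biUnion]
    refine ⟨Z, Finset.mem_range.2 hZ, ?_⟩
    rw [hB]
    refine Finset.mem_filter.2 ⟨hx, h1, fun r hr => ?_⟩
    by_cases h3 : f e Z r = 0
    · exact Or.inl h3
    · exact Or.inr (h2 r hr h3)
  have hcard : ∀ e Z, ((B e Z).card : ℝ) ≤ 2 ^ m * (fw Z / (4 * n)) := by
    intro e Z
    by_cases h1 : be n Z < k e Z
    · have h2 : ((B e Z).card : ℝ) ≤ (((Finset.range (2 ^ m)).filter fun x =>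
          ∀ r < m, f e Z r = 0 ∨ f e Z r = 1 + x / 2 ^ r % 2).card : ℝ) := by
        have h9 : B e Z ⊆ (Finset.range (2 ^ m)).filter fun x =>
            ∀ r < m, f e Z r = 0 ∨ f e Z r = 1 + x / 2 ^ r % 2 := by
          intro x hx
          have h10 := Finset.mem_filter.1 hx
          exact Finset.mem_filter.2 ⟨h10.1, h10.2.2⟩
        exact_mod_cast Finset.card_le_card h9
      have h3 := fool_card m (f e Z) (hf e Z)
      have h4 : ((B e Z).card : ℝ) * 2 ^ k e Z ≤ 2 ^ m :=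
        (mul_le_mul_of_nonneg_right h2 (by positivity)).trans h3
      have h5 : (2 : ℝ) ^ (be n Z + 1) ≤ 2 ^ k e Z := pow_le_pow_right₀ (by norm_num) h1
      have h6 : ((B e Z).card : ℝ) * 2 ^ (be n Z + 1) ≤ 2 ^ m :=
        (mul_le_mul_of_nonneg_left h5 (by positivity)).trans h4
      have h7 := be_large n Z
      have hfw : 0 ≤ fw Z := by unfold fw; positivity
      have h8 : ((B e Z).card : ℝ) * (4 * n) ≤ 2 ^ m * fw Z := by
        calc ((B e Z).card : ℝ) * (4 * n) ≤ ((B e Z).card : ℝ) * (fw Z * 2 ^ (be n Z + 1)) :=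
              mul_le_mul_of_nonneg_left h7 (by positivity)
          _ = (((B e Z).card : ℝ) * 2 ^ (be n Z + 1)) * fw Z := by ring
          _ ≤ 2 ^ m * fw Z := mul_le_mul_of_nonneg_right h6 hfw
      rw [← mul_div_assoc, le_div_iff₀ (by positivity)]
      exact h8
    · have h2 : B e Z = ∅ := by
        rw [hB]
        exact Finset.filter_eq_empty_iff.2 fun x _ h3 => h1 h3.1
      rw [h2]
      have hfw : 0 ≤ fw Z := by unfold fw; positivity
      simp only [Finset.card_empty, Nat.cast_zero]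
      positivity
  have h1 : ((2 : ℝ) ^ m) ≤ ∑ e ∈ Finset.range n, ∑ Z ∈ Finset.range (2 ^ m),
      ((B e Z).card : ℝ) := by
    have h2 : 2 ^ m ≤ ∑ e ∈ Finset.range n, ∑ Z ∈ Finset.range (2 ^ m), (B e Z).card := by
      calc 2 ^ m = (Finset.range (2 ^ m)).card := (Finset.card_range _).symm
        _ ≤ _ := Finset.card_le_card hcov
        _ ≤ ∑ e ∈ Finset.range n, ((Finset.range (2 ^ m)).biUnion fun Z => B e Z).card :=
          Finset.card_biUnion_le
        _ ≤ _ := Finset.sum_le_sum fun e _ => Finset.card_biUnion_le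
    exact_mod_cast h2
  have h2 : ∑ e ∈ Finset.range n, ∑ Z ∈ Finset.range (2 ^ m), ((B e Z).card : ℝ) ≤
      2 ^ m * (3 / 4) := by
    calc ∑ e ∈ Finset.range n, ∑ Z ∈ Finset.range (2 ^ m), ((B e Z).card : ℝ)
        ≤ ∑ e ∈ Finset.range n, ∑ Z ∈ Finset.range (2 ^ m), 2 ^ m * (fw Z / (4 * n)) :=
          Finset.sum_le_sum fun e _ => Finset.sum_le_sum fun Z _ => hcard e Z
      _ = 2 ^ m * ((∑ Z ∈ Finset.range (2 ^ m), fw Z) / 4) := by
          rw [Finset.sum_const, Finset.card_range, nsmul_eq_mul, ← Finset.mul_sum,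
            ← Finset.sum_div]
          field_simp
      _ ≤ 2 ^ m * (3 / 4) := by
          refine mul_le_mul_of_nonneg_left ?_ (by positivity)
          have := fw_sum m
          linarith
  have h3 : (0 : ℝ) < 2 ^ m := by positivity
  linarith

end Pool.Agent.helper39.MESH
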