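import Pool.Agent.helper39.MESH.CmpE
import Pool.Agent.helper39.MESH.Cnt

/-!
# A language which is hard for errorless automata of all dimensions
-/

set_option autoImplicit false

namespace Pool.Agent.helper39.MESH

open Pool.Agent.helper12.SP (TM DSPACE Ctx Pb Cmp CmpP num pw dg pm up np capN capn num_bounds
  num_inj num_surj pw_eq)

theorem herr_eq {c n r : ℕ} (hr : r < 2 ^ n) : herr c (2 ^ n + r) =
    dg (capn c n) 2 (lst (fool (capn c n) c n) (pw (capn c n) 2 (pw (capn c n) 2 n))) r := by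
  obtain ⟨h1, h2, h3⟩ := capN_eq c n r hr
  unfold herr
  rw [h1, h2, h3]

theorem herr_le (c X : ℕ) : herr c X ≤ 1 := by
  unfold herr dg
  omega

theorem ev_le (N c n e Z r : ℕ) : ev N c n e Z r ≤ 2 := by
  unfold ev
  split_ifs <;> omega

theorem herr_spec (c : ℕ) (hc : 1 ≤ c) (e n : ℕ) (hn : e < n) (Z : ℕ) (hZ : Z < 2 ^ 2 ^ n) :
    (∑ r ∈ Finset.range (2 ^ n), if ev (capn c n) c n e Z r = 0 then 0 else 1) ≤ be n Z ∨
      ∃ r < 2 ^ n, ev (capn c n) c n e Z r ≠ 0 ∧
        ev (capn c n) c n e Z r ≠ 1 + herr c (2 ^ n + r) := by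
  set N := capn c n with hN
  have hcap : 2 ^ 2 ^ n ≤ N := by
    refine Pool.Agent.helper12.SP.two_pow_le_capn ?_
    have h1 : 2 ^ n ≤ 2 ^ (c * n) :=
      Nat.pow_le_pow_right (by norm_num) (Nat.le_mul_of_pos_left n hc)
    exact h1.trans (Nat.le_mul_of_pos_left _ (by positivity))
  have hnN : 2 ^ n ≤ N := (Nat.lt_two_pow_self (n := 2 ^ n)).le.trans hcap
  have hpwn : pw N 2 n = 2 ^ n := pw_eq hnN
  have hpwm : pw N 2 (pw N 2 n) = 2 ^ 2 ^ n := by
    rw [hpwn]
    exact pw_eq hcap
  have hdg : ∀ x r, r < 2 ^ n → dg N 2 x r = x / 2 ^ r % 2 := by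
    intro x r hr
    unfold dg
    rw [pw_eq ((Nat.pow_le_pow_right (by norm_num) hr.le).trans hcap)]
  obtain ⟨x, hx, hxg⟩ := exists_fool n (2 ^ n) (by omega) (fun e' Z' r => ev N c n e' Z' r)
    (fun _ _ _ => ev_le _ _ _ _ _ _)
  have hgood : fool N c n x := by
    intro e' he' Z' hZ'
    rw [hpwm] at hZ'
    rcases hxg e' he' Z' hZ' with h | ⟨r, hr, h1, h2⟩
    · left
      unfold an
      rw [hpwn]
      exact h
    · right
      rw [hpwn]
      refine ⟨r, hr, h1, ?_⟩
      rw [hdg x r hr]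
      exact h2
  set Λ := lst (fool N c n) (pw N 2 (pw N 2 n)) with hΛ
  have hΛx : Λ ≤ x := by
    by_contra hcon
    exact lst_min _ _ x (not_le.1 hcon) hgood
  have hg2 : fool N c n Λ := lst_prop _ _ (lt_of_le_of_lt hΛx (hpwm ▸ hx))
  rcases hg2 e hn Z (by rw [hpwm]; exact hZ) with h | ⟨r, hr, h1, h2⟩
  · left
    unfold an at h
    rw [hpwn] at h
    exact h
  · right
    rw [hpwn] at hr
    refine ⟨r, hr, h1, ?_⟩
    rw [herr_eq hr, ← hN, ← hΛ]
    exact h2

theorem errorlessT (c : ℕ) (hc : 1 ≤ c) :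
    ∃ L : Set (List Bool), (∃ C : ℕ, L ∈ DSPACE (fun n => C * 2 ^ (c * n))) ∧
      ∀ (d : ℕ) [NeZero d] (A : Aut d), ∃ n₀ : ℕ, ∀ n ≥ n₀, ∀ α : List Bool,
        (∀ (w : List Bool) (t : ℕ) (b : Bool), w.length = n → A.Answers w α t b →
          (b = true ↔ w ∈ L)) →
        {w : List Bool | w.length = n ∧ ∃ (t : ℕ) (b : Bool), t ≤ tm c d n ∧
          A.Answers w α t b}.ncard ≤
            α.length + 2 * Nat.log 2 (α.length + 1) + Nat.log 2 n + 4 := by
  refine ⟨{w | herr c (num w) ≠ 0}, dspace_capN hc (cmp_herr c hc), ?_⟩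
  intro d hd0 A
  have hd : 1 ≤ d := Nat.one_le_iff_ne_zero.2 (NeZero.ne d)
  obtain ⟨n₁, h₁⟩ := sim c hc A
  obtain ⟨e, -, he⟩ := h₁ 0
  refine ⟨max (max n₁ (e + 1)) (max 12 (16 ^ d)), fun n hn α hα => ?_⟩
  have hn1 : n₁ ≤ n := (le_max_left _ _).trans ((le_max_left _ _).trans hn)
  have hn2 : e + 1 ≤ n := (le_max_right _ _).trans ((le_max_left _ _).trans hn)
  have hn12 : 12 ≤ n := (le_max_left _ _).trans ((le_max_right _ _).trans hn)
  have hn16 : 16 ^ d ≤ n := (le_max_right _ _).trans ((le_max_right _ _).trans hn)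
  have hlen : Nat.log 2 (num α) = α.length := by
    have h1 := num_bounds α
    have h2 : 0 < 2 ^ α.length := by positivity
    rw [Nat.log_eq_iff (Or.inr ⟨by norm_num, by omega⟩)]
    exact h1
  set R := {w : List Bool | w.length = n ∧ ∃ (t : ℕ) (b : Bool), t ≤ tm c d n ∧
    A.Answers w α t b} with hR
  have hcount : ∀ P : ℕ → Prop, ∀ _ : DecidablePred P,
      (∀ w ∈ R, P (num w - 2 ^ n)) → R.ncard ≤ ((Finset.range (2 ^ n)).filter P).card := by
    intro P _ hP
    rw [← Set.ncard_coe_finset]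
    refine Set.ncard_le_ncard_of_injOn (fun w => num w - 2 ^ n) ?_ ?_ (Set.toFinite _)
    · intro w hw
      have hw' : w.length = n := hw.1
      have h1 := num_bounds w
      rw [hw', pow_succ] at h1
      simp only [Finset.coe_filter, Finset.mem_range, Set.mem_ofPred_eq]
      exact ⟨by omega, hP w hw⟩
    · intro w hw w' hw' heq
      have e1 : w.length = n := hw.1
      have e2 : w'.length = n := hw'.1
      have h1 := num_bounds w
      have h2 := num_bounds w'
      rw [e1] at h1
      rw [e2] at h2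
      have h3 : num w - 2 ^ n = num w' - 2 ^ n := heq
      exact num_inj w w' (by omega)
  by_cases hαn : α.length < 2 ^ n
  · have hZ : num α < 2 ^ 2 ^ n :=
      (num_bounds α).2.trans_le (Nat.pow_le_pow_right (by norm_num) (by omega))
    rcases herr_spec c hc e n (by omega) (num α) hZ with h | ⟨r, hr, h1, h2⟩
    · have hle := hcount (fun r => ev (capn c n) c n e (num α) r ≠ 0) inferInstance (by
        rintro w ⟨hw, t, b, ht, hb⟩
        have ht' : t ≤ tm c d n := ht
        obtain ⟨hs1, hs2⟩ := he n hn1 w α hw hαn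
        unfold ev
        cases b with
        | false =>
          rw [if_pos (hs1.2 ⟨t, ht', hb⟩)]
          omega
        | true =>
          rw [if_pos (hs2.2 ⟨t, ht', hb⟩)]
          split_ifs <;> omega)
      rw [Finset.card_filter] at hle
      have h3 : (∑ r ∈ Finset.range (2 ^ n), if ev (capn c n) c n e (num α) r ≠ 0 then 1 else 0) =
          ∑ r ∈ Finset.range (2 ^ n), if ev (capn c n) c n e (num α) r = 0 then 0 else 1 := by
        refine Finset.sum_congr rfl fun r _ => ?_
        by_cases h0 : ev (capn c n) c n e (num α) r = 0 <;> simp [h0]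
      rw [h3] at hle
      have h4 := hle.trans h
      unfold be at h4
      rw [hlen] at h4
      exact h4
    · exfalso
      obtain ⟨w, hw1, hw2⟩ := num_surj n r hr
      obtain ⟨hs1, hs2⟩ := he n hn1 w α hw1 hαn
      have hwr : num w - 2 ^ n = r := by omega
      rw [hwr] at hs1 hs2
      have hle := herr_le c (2 ^ n + r)
      unfold ev at h1 h2
      by_cases k1 : sm 1 (capn c n) c n e (num α) r = 1
      · rw [if_pos k1] at h2
        obtain ⟨t, -, ht⟩ := hs1.1 k1
        have h5 := hα w t false hw1 ht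
        have h6 : herr c (num w) ≠ 0 := by
          intro h0
          rw [hw2] at h0
          exact h2 (by rw [h0])
        exact absurd (h5.2 h6) (by simp)
      · rw [if_neg k1] at h1 h2
        by_cases k2 : sm 2 (capn c n) c n e (num α) r = 1
        · rw [if_pos k2] at h2
          obtain ⟨t, -, ht⟩ := hs2.1 k2
          have h5 : herr c (num w) ≠ 0 := (hα w t true hw1 ht).1 rfl
          rw [hw2] at h5
          have h6 : herr c (2 ^ n + r) = 1 := le_antisymm hle (Nat.one_le_iff_ne_zero.2 h5)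
          exact h2 (by rw [h6])
        · rw [if_neg k2] at h1
          exact h1 rfl
  · have hle := hcount (fun _ => True) inferInstance (fun _ _ => trivial)
    rw [Finset.filter_true, Finset.card_range] at hle
    omega

end Pool.Agent.helper39.MESH
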