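import Pool.Agent.helper39.MESH.Gen

/-!
# Module CMPE: the language for errorless automata is computable within polynomial bounds
-/

set_option autoImplicit false

namespace Pool.Agent.helper39.MESH

open Pool.Agent.helper12.SP (TM DSPACE Ctx Pb Cmp CmpP num pw dg pm up np capN capn num_bounds
  num_inj DSPACE_mono dspace_of_cmp exists_hard pw_eq two_pow_le_capN)

section CmpE

variable {α : Type} [Ctx α] {bd Y e Z r n Λ : α → ℕ}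

theorem CmpP.or' {P Q : α → Prop} (hP : CmpP bd P) (hQ : CmpP bd Q) :
    CmpP bd (fun a => P a ∨ Q a) :=
  Pool.Agent.helper12.SP.CmpP.congr
    (Pool.Agent.helper12.SP.CmpP.not (Pool.Agent.helper12.SP.CmpP.and
      (Pool.Agent.helper12.SP.CmpP.not hP) (Pool.Agent.helper12.SP.CmpP.not hQ)))
    fun a => by tauto

theorem Cmp.ev' (c : ℕ) (hc : 1 ≤ c) (hY : Cmp bd Y) (hb : Pb bd (fun a => capN c (Y a)))
    (he : Cmp bd e) (hZ : Cmp bd Z) (hr : Cmp bd r) :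
    Cmp bd (fun a => ev (capN c (Y a)) c (Nat.log 2 (Y a)) (e a) (Z a) (r a)) :=
  Cmp.ite (CmpP.eq (Cmp.sm 1 c hc hY hb he hZ hr) (Cmp.const 1)) (Cmp.const 1)
    (Cmp.ite (CmpP.eq (Cmp.sm 2 c hc hY hb he hZ hr) (Cmp.const 1)) (Cmp.const 2) (Cmp.const 0))

theorem Cmp.an' (c : ℕ) (hc : 1 ≤ c) (hY : Cmp bd Y) (hN : Cmp bd (fun a => capN c (Y a)))
    (he : Cmp bd e) (hZ : Cmp bd Z) :
    Cmp bd (fun a => an (capN c (Y a)) c (Nat.log 2 (Y a)) (e a) (Z a)) := by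
  refine Cmp.sum (h := fun x : α × ℕ =>
    if ev (capN c (Y x.1)) c (Nat.log 2 (Y x.1)) (e x.1) (Z x.1) x.2 = 0 then 0 else 1)
    (Cmp.pw hN (Cmp.const 2) (Cmp.log hY)) ?_
  exact Cmp.ite (CmpP.eq (Cmp.ev' c hc hY.wk1 (pb_wk1 hN.pb) he.wk1 hZ.wk1 (Cmp.i bd))
    (Cmp.const 0)) (Cmp.const 0) (Cmp.const 1)

theorem Cmp.be' (hn : Cmp bd n) (hZ : Cmp bd Z) : Cmp bd (fun a => be (n a) (Z a)) :=
  Cmp.add (Cmp.add (Cmp.add (Cmp.log hZ) (Cmp.mul (Cmp.const 2)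
    (Cmp.log (Cmp.add (Cmp.log hZ) (Cmp.const 1))))) (Cmp.log hn)) (Cmp.const 4)

theorem CmpP.fool' (c : ℕ) (hc : 1 ≤ c) (hY : Cmp bd Y) (hN : Cmp bd (fun a => capN c (Y a)))
    (hΛ : Cmp bd Λ) :
    CmpP bd (fun a => fool (capN c (Y a)) c (Nat.log 2 (Y a)) (Λ a)) := by
  refine CmpP.ball (P := fun x : α × ℕ =>
    ∀ Z < pw (capN c (Y x.1)) 2 (pw (capN c (Y x.1)) 2 (Nat.log 2 (Y x.1))),
      an (capN c (Y x.1)) c (Nat.log 2 (Y x.1)) x.2 Z ≤ be (Nat.log 2 (Y x.1)) Z ∨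
      ∃ r < pw (capN c (Y x.1)) 2 (Nat.log 2 (Y x.1)),
        ev (capN c (Y x.1)) c (Nat.log 2 (Y x.1)) x.2 Z r ≠ 0 ∧
        ev (capN c (Y x.1)) c (Nat.log 2 (Y x.1)) x.2 Z r ≠ 1 + dg (capN c (Y x.1)) 2 (Λ x.1) r)
    (Cmp.log hY) ?_
  refine CmpP.ball (P := fun y : (α × ℕ) × ℕ =>
      an (capN c (Y y.1.1)) c (Nat.log 2 (Y y.1.1)) y.1.2 y.2 ≤ be (Nat.log 2 (Y y.1.1)) y.2 ∨
      ∃ r < pw (capN c (Y y.1.1)) 2 (Nat.log 2 (Y y.1.1)),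
        ev (capN c (Y y.1.1)) c (Nat.log 2 (Y y.1.1)) y.1.2 y.2 r ≠ 0 ∧
        ev (capN c (Y y.1.1)) c (Nat.log 2 (Y y.1.1)) y.1.2 y.2 r ≠
          1 + dg (capN c (Y y.1.1)) 2 (Λ y.1.1) r)
    (Cmp.pw hN.wk1 (Cmp.const 2) (Cmp.pw hN.wk1 (Cmp.const 2) (Cmp.log hY.wk1))) ?_
  have he2 : Cmp (fun y : (α × ℕ) × ℕ => bd y.1.1 + y.1.2 + y.2) (fun y => y.1.2) :=
    (Cmp.i bd).wk1
  have hZ2 : Cmp (fun y : (α × ℕ) × ℕ => bd y.1.1 + y.1.2 + y.2) (fun y => y.2) :=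
    Cmp.i (fun x : α × ℕ => bd x.1 + x.2)
  refine CmpP.or' (CmpP.le (Cmp.an' c hc hY.wk1.wk1 hN.wk1.wk1 he2 hZ2)
    (Cmp.be' (Cmp.log hY.wk1.wk1) hZ2)) ?_
  refine CmpP.bex (P := fun z : ((α × ℕ) × ℕ) × ℕ =>
        ev (capN c (Y z.1.1.1)) c (Nat.log 2 (Y z.1.1.1)) z.1.1.2 z.1.2 z.2 ≠ 0 ∧
        ev (capN c (Y z.1.1.1)) c (Nat.log 2 (Y z.1.1.1)) z.1.1.2 z.1.2 z.2 ≠
          1 + dg (capN c (Y z.1.1.1)) 2 (Λ z.1.1.1) z.2)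
    (Cmp.pw hN.wk1.wk1 (Cmp.const 2) (Cmp.log hY.wk1.wk1)) ?_
  have hr3 : Cmp (fun z : ((α × ℕ) × ℕ) × ℕ => bd z.1.1.1 + z.1.1.2 + z.1.2 + z.2)
      (fun z => z.2) := Cmp.i (fun y : (α × ℕ) × ℕ => bd y.1.1 + y.1.2 + y.2)
  have hev := Cmp.ev' c hc hY.wk1.wk1.wk1 hN.wk1.wk1.wk1.pb he2.wk1 hZ2.wk1 hr3
  exact CmpP.and (CmpP.not (CmpP.eq hev (Cmp.const 0)))
    (CmpP.not (CmpP.eq hev (Cmp.add (Cmp.const 1)
      (Cmp.dg hN.wk1.wk1.wk1 (Cmp.const 2) hΛ.wk1.wk1.wk1 hr3))))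

end CmpE

theorem cmp_herr (c : ℕ) (hc : 1 ≤ c) : Cmp (capN c) (herr c) := by
  have hX := cmp_X c hc
  have hN := cmp_capN c hc
  have hL : Cmp (capN c) (fun X : ℕ => lst (fool (capN c X) c (Nat.log 2 X))
      (pw (capN c X) 2 (pw (capN c X) 2 (Nat.log 2 X)))) := by
    refine Cmp.lst (P := fun X => fool (capN c X) c (Nat.log 2 X))
      (Cmp.pw hN (Cmp.const 2) (Cmp.pw hN (Cmp.const 2) (Cmp.log hX))) ?_
    exact CmpP.fool' c hc hX.wk1 hN.wk1 (Cmp.i (capN c))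
  exact Cmp.dg hN (Cmp.const 2) hL (cmp_rest c hc)

end Pool.Agent.helper39.MESH
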