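import Pool.Agent.helper39.MESH.Defs
import Pool.Agent.helper24.SP.I

/-!
# Module CODE: coding of `d`-dimensional automata by numbers
-/

set_option autoImplicit false

namespace Pool.Agent.helper39.MESH

open Pool.Agent.helper12.SP (TM DSPACE Ctx Pb Cmp num pw dg pm up np)

namespace Cod

open Pool.Agent.helper12.SP.Cod (exists_digits num_pos log_num num_bit)

theorem sum_digits_lt {q : ℕ} (s : ℕ → ℕ) (hs : ∀ u, s u < q) (D : ℕ) :
    ∑ u ∈ Finset.range D, s u * q ^ u < q ^ D := by
  induction D with
  | zero => simp
  | succ D ih =>
    rw [Finset.sum_range_succ]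
    calc ∑ u ∈ Finset.range D, s u * q ^ u + s D * q ^ D < q ^ D + s D * q ^ D := by omega
      _ = (s D + 1) * q ^ D := by ring
      _ ≤ q * q ^ D := Nat.mul_le_mul_right _ (hs D)
      _ = q ^ (D + 1) := by ring

theorem sum_digits {q : ℕ} (D : ℕ) : ∀ (s : ℕ → ℕ), (∀ u, s u < q) → ∀ v < D,
    (∑ u ∈ Finset.range D, s u * q ^ u) / q ^ v % q = s v := by
  induction D with
  | zero => intro s _ v hv; exact absurd hv (Nat.not_lt_zero v)
  | succ D ih =>
    intro s hs v hv
    have hq : 0 < q := lt_of_le_of_lt (Nat.zero_le _) (hs 0)
    have h1 : ∑ u ∈ Finset.range (D + 1), s u * q ^ u =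
        s 0 + q * ∑ u ∈ Finset.range D, s (u + 1) * q ^ u := by
      rw [Finset.sum_range_succ', Finset.mul_sum, add_comm]
      congr 1
      · simp
      · exact Finset.sum_congr rfl fun u _ => by ring
    rw [h1]
    rcases v with _ | v
    · rw [pow_zero, Nat.div_one, Nat.add_mul_mod_self_left, Nat.mod_eq_of_lt (hs 0)]
    · rw [pow_succ', ← Nat.div_div_eq_div_mul, Nat.add_mul_div_left _ _ hq,
        Nat.div_eq_of_lt (hs 0), zero_add]
      exact ih (fun u => s (u + 1)) (fun u => hs _) v (by omega)

/-- the number of a sign -/
def sg (a : SignType) : ℕ := ((a : ℤ) + 1).toNat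

theorem sg_lt (a : SignType) : sg a < 3 := by
  cases a <;> decide

theorem sg_cast (a : SignType) : ((sg a : ℕ) : ℤ) = (a : ℤ) + 1 := by
  cases a <;> decide

/-- the number of a direction -/
theorem exists_dir {d : ℕ} (e : Fin d → SignType) :
    ∃ u < 3 ^ d, ∀ j : Fin d, u / 3 ^ (j : ℕ) % 3 = sg (e j) := by
  have h3 : ∀ u : ℕ, (fun i => if h : i < d then sg (e ⟨i, h⟩) else 0 : ℕ → ℕ) u < 3 := by
    intro u
    dsimp only
    split_ifs
    · exact sg_lt _
    · omega
  refine ⟨∑ i ∈ Finset.range d, (fun i => if h : i < d then sg (e ⟨i, h⟩) else 0 : ℕ → ℕ) i * 3 ^ i,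
    sum_digits_lt _ h3 d, fun j => ?_⟩
  rw [sum_digits d _ h3 j j.2]
  simp

variable {d : ℕ} [NeZero d] (A : Aut d)

/-- state with the first answer -/
abbrev St : Type := Option Bool × A.Q

/-- initial states -/
def ini (s : A.Q) : St A := (A.out s, s)

/-- the rule -/
def rl (s : (Fin d → SignType) → St A) : St A :=
  ((s fun _ => 0).1.orElse fun _ => A.out (A.rule fun e => (s e).2), A.rule fun e => (s e).2)

/-- the configurations with the first answers -/
def cf (w α : List Bool) : ℕ → (Fin d → ℤ) → St A
  | 0, x => ini A (A.cell w α x)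
  | t + 1, x => rl A fun e => cf w α t fun j => x j + (e j : ℤ)

theorem cf_snd (w α : List Bool) (t : ℕ) (x : Fin d → ℤ) : (cf A w α t x).2 = A.conf w α t x := by
  induction t generalizing x with
  | zero => rfl
  | succ t ih =>
    change A.rule (fun e => (cf A w α t fun j => x j + (e j : ℤ)).2) = _
    simp only [ih]
    rfl

theorem cf_fst (w α : List Bool) (T : ℕ) (b : Bool) :
    (cf A w α T 0).1 = some b ↔ ∃ t ≤ T, A.Answers w α t b := by
  have key : ∀ T : ℕ, ((cf A w α T 0).1 = none ↔ ∀ t ≤ T, A.out (A.conf w α t 0) = none) ∧
      ∀ b, ((cf A w α T 0).1 = some b ↔ ∃ t ≤ T, A.Answers w α t b) := by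
    intro T
    induction T with
    | zero =>
      have h0 : (cf A w α 0 0).1 = A.out (A.conf w α 0 0) := rfl
      constructor
      · rw [h0]
        constructor
        · intro h t ht
          rw [Nat.le_zero.1 ht]
          exact h
        · intro h
          exact h 0 le_rfl
      · intro b
        rw [h0]
        constructor
        · intro h
          exact ⟨0, le_rfl, h, fun s hs => absurd hs (Nat.not_lt_zero s)⟩
        · rintro ⟨t, ht, h, _⟩
          rw [Nat.le_zero.1 ht] at h
          exact h
    | succ T ih =>
      have h0 : (cf A w α (T + 1) 0).1 = ((cf A w α T 0).1.orElse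
          fun _ => A.out (A.conf w α (T + 1) 0)) := by
        rw [← cf_snd]
        have hz : (fun j => (0 : Fin d → ℤ) j + (((0 : SignType) : ℤ))) = (0 : Fin d → ℤ) := by
          funext j
          simp
        change ((cf A w α T fun j => (0 : Fin d → ℤ) j + (((0 : SignType) : ℤ))).1.orElse
          fun _ => _) = _
        rw [hz]
        rfl
      rcases hc : (cf A w α T 0).1 with _ | b'
      · have h1 := ih.1.1 hc
        rw [hc] at h0
        change (cf A w α (T + 1) 0).1 = A.out (A.conf w α (T + 1) 0) at h0
        constructor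
        · rw [h0]
          constructor
          · intro h t ht
            rcases Nat.lt_or_ge t (T + 1) with h2 | h2
            · exact h1 t (by omega)
            · rw [show t = T + 1 by omega]
              exact h
          · intro h
            exact h _ le_rfl
        · intro b
          rw [h0]
          constructor
          · intro h
            exact ⟨T + 1, le_rfl, h, fun s hs => h1 s (by omega)⟩
          · rintro ⟨t, ht, h, h2⟩
            rcases Nat.lt_or_ge t (T + 1) with h3 | h3
            · rw [h1 t (by omega)] at h
              exact absurd h (by simp)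
            · rw [show t = T + 1 by omega] at h
              exact h
      · rw [hc] at h0
        change (cf A w α (T + 1) 0).1 = some b' at h0
        obtain ⟨t, ht, h1, h2⟩ := (ih.2 b').1 hc
        constructor
        · rw [h0]
          constructor
          · intro h
            exact absurd h (by simp)
          · intro h
            rw [h t (by omega)] at h1
            exact absurd h1 (by simp)
        · intro b
          rw [h0]
          constructor
          · intro h
            obtain rfl := Option.some.inj h
            exact ⟨t, by omega, h1, h2⟩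
          · rintro ⟨t', ht', h3, h4⟩
            have : t = t' := by
              rcases lt_trichotomy t t' with h5 | h5 | h5
              · rw [h4 t h5] at h1
                exact absurd h1 (by simp)
              · exact h5
              · rw [h2 t' h5] at h3
                exact absurd h3 (by simp)
            subst this
            rw [h1] at h3
            exact h3
  exact (key T).2 b

end Cod

open Classical Cod Pool.Agent.helper12.SP.Cod in
theorem code {d : ℕ} [NeZero d] (A : Aut d) : ∃ q M : ℕ, 5 ≤ q ∧ ∀ (w α : List Bool) (T : ℕ),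
    (nvd d q M (nconf d q M (num w) (num α) T 0) = 1 ↔ ∃ t ≤ T, A.Answers w α t false) ∧
    (nvd d q M (nconf d q M (num w) (num α) T 0) = 2 ↔ ∃ t ≤ T, A.Answers w α t true) := by
  have := A.finQ
  have hfin : Finite (Cod.St A) := inferInstance
  obtain ⟨K, ⟨e⟩⟩ := Finite.exists_equiv_fin (Cod.St A)
  -- decoding
  let dec : ℕ → Cod.St A := fun a =>
    if a = 0 then Cod.ini A A.blank else if a = 1 then Cod.ini A (A.inp false)
    else if a = 2 then Cod.ini A (A.inp true) else if a = 3 then Cod.ini A (A.adv false)
    else if a = 4 then Cod.ini A (A.adv true)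
    else if h : a - 5 < K then e.symm ⟨a - 5, h⟩ else Cod.ini A A.blank
  let enc : Cod.St A → ℕ := fun s => 5 + (e s : ℕ)
  have hdec : ∀ s, dec (enc s) = s := by
    intro s
    have h1 : (enc s) - 5 = (e s : ℕ) := by simp only [enc]; omega
    have h2 : (enc s) - 5 < K := by rw [h1]; exact (e s).2
    simp only [dec]
    rw [if_neg (by simp only [enc]; omega), if_neg (by simp only [enc]; omega),
      if_neg (by simp only [enc]; omega), if_neg (by simp only [enc]; omega),
      if_neg (by simp only [enc]; omega), dif_pos h2]
    have h3 : (⟨enc s - 5, h2⟩ : Fin K) = e s := Fin.ext h1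
    rw [h3, Equiv.symm_apply_apply]
  have henc : ∀ s, enc s < 5 + K := by
    intro s
    have := (e s).2
    simp only [enc]
    omega
  set q := 5 + K with hq
  have hq5 : 5 ≤ q := by omega
  have hq0 : 0 < q := by omega
  choose dir hdir1 hdir2 using (Cod.exists_dir (d := d))
  -- the table
  let f : ℕ → ℕ := fun i =>
    if i < q ^ 3 ^ d then enc (Cod.rl A fun v => dec (i / q ^ dir v % q))
    else if (dec (i - q ^ 3 ^ d)).1 = some false then 1
    else if (dec (i - q ^ 3 ^ d)).1 = some true then 2 else 0
  have hf : ∀ i, f i < q := by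
    intro i
    simp only [f]
    split_ifs
    · exact henc _
    · omega
    · omega
    · omega
  obtain ⟨M, hM⟩ := exists_digits q hq0 (q ^ 3 ^ d + q) f hf
  have htr : ∀ s : ℕ → ℕ, (∀ u, s u < q) →
      ntr q M (3 ^ d) s = enc (Cod.rl A fun v => dec (s (dir v))) := by
    intro s hs
    have h1 := Cod.sum_digits_lt s hs (3 ^ d)
    rw [ntr, hM _ (by omega)]
    simp only [f]
    rw [if_pos h1]
    congr 2
    funext v
    rw [Cod.sum_digits (3 ^ d) s hs _ (hdir1 v)]
  have hvd : ∀ a < q, (nvd d q M a = 1 ↔ (dec a).1 = some false) ∧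
      (nvd d q M a = 2 ↔ (dec a).1 = some true) := by
    intro a ha
    rw [nvd, hM _ (by omega)]
    simp only [f]
    rw [if_neg (by omega), Nat.add_sub_cancel_left]
    split_ifs with h h'
    · simp [h]
    · simp [h']
    · simp [h, h']
  refine ⟨q, M, hq5, fun w α T => ?_⟩
  have hcell : ∀ x : ℕ → ℤ, ncell d (num w) (num α) x < q ∧
      dec (ncell d (num w) (num α) x) = Cod.ini A (A.cell w α fun j => x j) := by
    intro x
    have hx0 : x ((0 : Fin d) : ℕ) = x 0 := by simp
    by_cases hx : ∀ j < d, j ≠ 0 → x j = 0
    · have hx' : ∀ j : Fin d, j ≠ 0 → (fun j : Fin d => x j) j = 0 := by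
        intro j hj
        exact hx j j.2 fun h => hj (Fin.ext (by simpa using h))
      simp only [ncell, if_pos hx]
      rw [Aut.cell, if_pos hx', hx0]
      rcases x 0 with i | i
      · simp only [Pool.Agent.helper12.SP.ncell, log_num]
        by_cases h : i < w.length
        · rw [if_pos h, num_bit w i h, List.getElem?_eq_getElem h]
          cases w[i] <;> simp [dec] <;> omega
        · rw [if_neg h, List.getElem?_eq_none (by omega)]
          simp [dec]
          omega
      · simp only [Pool.Agent.helper12.SP.ncell, log_num]
        by_cases h : i < α.length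
        · rw [if_pos h, num_bit α i h, List.getElem?_eq_getElem h]
          cases α[i] <;> simp [dec] <;> omega
        · rw [if_neg h, List.getElem?_eq_none (by omega)]
          simp [dec]
          omega
    · have hx' : ¬ ∀ j : Fin d, j ≠ 0 → (fun j : Fin d => x j) j = 0 := by
        intro h
        refine hx fun j hj hj0 => ?_
        exact h ⟨j, hj⟩ fun h' => hj0 (by simpa using congrArg Fin.val h')
      simp only [ncell, if_neg hx]
      rw [Aut.cell, if_neg hx']
      exact ⟨hq0, by simp [dec]⟩
  have hconf : ∀ (t : ℕ) (x : ℕ → ℤ), nconf d q M (num w) (num α) t x < q ∧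
      dec (nconf d q M (num w) (num α) t x) = Cod.cf A w α t fun j => x j := by
    intro t
    induction t with
    | zero => exact hcell
    | succ t ih =>
      intro x
      simp only [nconf]
      rw [htr _ fun u => (ih _).1]
      refine ⟨henc _, (hdec _).trans ?_⟩
      change _ = Cod.rl A fun v => Cod.cf A w α t fun j => x j + (v j : ℤ)
      congr 1
      funext v
      rw [(ih _).2]
      congr 1
      funext j
      simp only [nbr]
      rw [hdir2 v j, Cod.sg_cast]
      ring
  have h0 := hconf T 0
  have h00 : (fun j : Fin d => (0 : ℕ → ℤ) j) = (0 : Fin d → ℤ) := rfl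
  rw [h00] at h0
  rw [(hvd _ h0.1).1, (hvd _ h0.1).2, h0.2]
  exact ⟨Cod.cf_fst A w α T false, Cod.cf_fst A w α T true⟩

end Pool.Agent.helper39.MESH
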