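import Pool.Agent.helper39.MESH.Mach

/-!
# Automata simulate multi-tape machines step by step

The tapes are shifted so that all heads stay at the cell `0`; the moves travel outwards from there.
The cell `x` has simulated `s` steps at time `2 s + |x| + 1`.
-/

set_option autoImplicit false

noncomputable section

namespace Pool.Agent.helper39.MESH

namespace MS

open Classical

variable {d : ℕ}

/-- the cell in direction `e` from `x` -/
def tr (x : Fin d → ℤ) (e : Fin d → SignType) : Fin d → ℤ := fun j => x j + (e j : ℤ)

/-- the sup norm -/
def nm (x : Fin d → ℤ) : ℕ := Finset.univ.sup fun j => (x j).natAbs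

theorem le_nm (x : Fin d → ℤ) (j : Fin d) : (x j).natAbs ≤ nm x :=
  Finset.le_sup (f := fun j => (x j).natAbs) (Finset.mem_univ j)

theorem nm_le {x : Fin d → ℤ} {B : ℕ} (h : ∀ j, (x j).natAbs ≤ B) : nm x ≤ B :=
  Finset.sup_le fun j _ => h j

theorem nm_eq_zero {x : Fin d → ℤ} : nm x = 0 ↔ x = 0 := by
  constructor
  · intro h
    funext j
    have := le_nm x j
    simp only [Pi.zero_apply]
    omega
  · rintro rfl
    exact Nat.le_zero.1 (nm_le fun j => by simp)

theorem sg_abs (a : SignType) : ((a : ℤ)).natAbs ≤ 1 := by
  cases a <;> simp

theorem nm_tr_le (x : Fin d → ℤ) (e : Fin d → SignType) : nm (tr x e) ≤ nm x + 1 := by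
  refine nm_le fun j => ?_
  have h1 := le_nm x j
  have h2 := sg_abs (e j)
  have h3 := Int.natAbs_add_le (x j) (e j : ℤ)
  unfold tr
  omega

theorem le_nm_tr (x : Fin d → ℤ) (e : Fin d → SignType) : nm x ≤ nm (tr x e) + 1 := by
  refine nm_le fun j => ?_
  have h1 := le_nm (tr x e) j
  have h2 := sg_abs (e j)
  unfold tr at h1 ⊢
  omega

theorem exists_inner {x : Fin d → ℤ} (hx : x ≠ 0) : ∃ e : Fin d → SignType,
    nm (tr x e) + 1 = nm x := by
  refine ⟨fun j => - SignType.sign (x j), le_antisymm ?_ (le_nm_tr _ _)⟩
  have hpos : 1 ≤ nm x := Nat.one_le_iff_ne_zero.2 fun h => hx (nm_eq_zero.1 h)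
  have : nm (tr x fun j => - SignType.sign (x j)) ≤ nm x - 1 := by
    refine nm_le fun j => ?_
    have h1 := le_nm x j
    change (x j + ((- SignType.sign (x j) : SignType) : ℤ)).natAbs ≤ nm x - 1
    rcases lt_trichotomy (x j) 0 with h | h | h
    · rw [sign_neg h]
      simp only [neg_neg, SignType.coe_one]
      omega
    · rw [h, sign_zero]
      simp
    · rw [sign_pos h]
      simp only [SignType.coe_neg, SignType.coe_one]
      omega
  omega

variable (M : Mach d)

/-- the symbols of a cell of all tapes -/
abbrev Sym : Type := Option (Bool ⊕ Bool) × (Fin M.k → M.Γ)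

/-- the moves of all heads -/
abbrev Mv : Type := SignType × (Fin M.k → Fin d → SignType)

/-- the transition, made total: after halting nothing changes -/
def act (q : M.Q) (a : Sym M) : M.Q × (Fin M.k → M.Γ) × Mv M :=
  (M.δ q a.1 a.2).getD (q, a.2, 0, fun _ _ => 0)

/-- the contents of a cell of the automaton -/
structure Cell where
  q : Option M.Q
  ph : Option (ZMod 4)
  cur : Sym M
  old : Sym M
  mv : Mv M

/-- the states of the automaton -/
abbrev St : Type := Option (Bool ⊕ Bool) ⊕ Cell M

theorem finite_St : Finite (St M) := by
  have := M.finQ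
  have := M.finΓ
  have : Finite (Cell M) := Finite.of_injective
    (fun c : Cell M => (c.q, c.ph, c.cur, c.old, c.mv)) (by
      rintro ⟨a1, a2, a3, a4, a5⟩ ⟨b1, b2, b3, b4, b5⟩ h
      simp only [Prod.mk.injEq] at h
      obtain ⟨rfl, rfl, rfl, rfl, rfl⟩ := h
      rfl)
  infer_instance

variable {M}

def phOf : St M → Option (ZMod 4)
  | .inl _ => none
  | .inr c => c.ph

def curOf : St M → Sym M
  | .inl a => (a, fun _ => M.blank)
  | .inr c => c.cur

def oldOf : St M → Sym M
  | .inl a => (a, fun _ => M.blank)
  | .inr c => c.old

def mvOf : St M → Mv M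
  | .inl _ => (0, fun _ _ => 0)
  | .inr c => c.mv

/-- the cell holds an input bit at time 0 -/
def isIn : St M → Prop
  | .inl (some (.inl _)) => True
  | _ => False

variable [NeZero d]

/-- a move along the first axis -/
def ax (m : SignType) : Fin d → SignType := fun i => if i = 0 then m else 0

/-- the new contents of the central cell, in the state `q` -/
def updC (f : (Fin d → SignType) → St M) (c : Cell M) (p : ZMod 4) (q : M.Q) : Cell M :=
  ⟨some (act M q c.cur).1, some (p + 1),
    ((curOf (f (ax (act M q c.cur).2.2.1))).1, fun j =>
      if (act M q c.cur).2.2.2 j = 0 then (act M q c.cur).2.1 j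
      else (curOf (f ((act M q c.cur).2.2.2 j))).2 j),
    (c.cur.1, (act M q c.cur).2.1), (act M q c.cur).2.2⟩

/-- the contents of a neighbour before the last move -/
def pick (f : (Fin d → SignType) → St M) (p : ZMod 4) (e : Fin d → SignType) : Sym M :=
  if phOf (f e) = some (p + 1) then oldOf (f e) else curOf (f e)

/-- the moves which arrive from the cell `0` -/
def mvIn (f : (Fin d → SignType) → St M) (p : ZMod 4) : Mv M :=
  if h : ∃ e, phOf (f e) = some (p + 1) then mvOf (f h.choose) else (0, fun _ _ => 0)

/-- the new contents of another cell -/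
def updO (f : (Fin d → SignType) → St M) (c : Cell M) (p : ZMod 4) : Cell M :=
  ⟨none, some (p + 1), ((pick f p (ax (mvIn f p).1)).1, fun j => (pick f p ((mvIn f p).2 j)).2 j),
    c.cur, mvIn f p⟩

/-- the contents of a cell at time 1 -/
def first (f : (Fin d → SignType) → St M) (a : Option (Bool ⊕ Bool)) : Cell M :=
  ⟨if isIn (f 0) ∧ ¬ isIn (f (ax (-1))) then some M.start else none,
    if isIn (f 0) ∧ ¬ isIn (f (ax (-1))) then some 0 else none, (a, fun _ => M.blank),
    (a, fun _ => M.blank), (0, fun _ _ => 0)⟩

/-- the local rule -/
def rule (f : (Fin d → SignType) → St M) : St M :=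
  match f 0 with
  | .inl a => .inr (first f a)
  | .inr c =>
    match c.ph with
    | none => if ∃ e, phOf (f e) ≠ none then .inr { c with ph := some 0 } else .inr c
    | some p =>
      if p = 0 ∨ p = 2 then .inr { c with ph := some (p + 1) } else
        match c.q with
        | some q => .inr (updC f c p q)
        | none => .inr (updO f c p)

/-- the answer -/
def out : St M → Option Bool
  | .inl _ => none
  | .inr c =>
    match c.q with
    | none => none
    | some q => if M.δ q c.cur.1 c.cur.2 = none then some (decide (q ∈ M.acc)) else none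

variable (M)

/-- the simulating automaton -/
def aut : Aut d where
  Q := St M
  finQ := finite_St M
  blank := .inl none
  inp := fun b => .inl (some (.inl b))
  adv := fun b => .inl (some (.inr b))
  rule := rule
  out := out

/-! ### The run of the machine -/

variable (w α : List Bool)

/-- the symbols at the position `x` relative to the heads -/
def at' (c : Mach.Cfg M) (x : Fin d → ℤ) : Sym M :=
  (if ∀ j, j ≠ 0 → x j = 0 then Mach.rd w α (c.pos + x 0) else none,
    fun j => c.tape j fun i => c.head j i + x i)

/-- the transition at a configuration -/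
def ac (c : Mach.Cfg M) : M.Q × (Fin M.k → M.Γ) × Mv M := act M c.q (at' M w α c 0)

/-- the next configuration -/
def nxt (c : Mach.Cfg M) : Mach.Cfg M :=
  ⟨(ac M w α c).1, c.pos + ((ac M w α c).2.2.1 : ℤ),
    fun j => Function.update (c.tape j) (c.head j) ((ac M w α c).2.1 j),
    fun j i => c.head j i + ((ac M w α c).2.2.2 j i : ℤ)⟩

/-- the configuration after `s` steps -/
def cf (s : ℕ) : Mach.Cfg M := Nat.rec M.init (fun _ c => nxt M w α c) s

theorem cf_succ (s : ℕ) : cf M w α (s + 1) = nxt M w α (cf M w α s) := rfl

/-- the symbols at the position `x` relative to the heads, after `s` steps -/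
def X (s : ℕ) (x : Fin d → ℤ) : Sym M := at' M w α (cf M w α s) x

/-- the same after writing and before moving -/
def Y (s : ℕ) (x : Fin d → ℤ) : Sym M :=
  if x = 0 then ((X M w α s 0).1, (ac M w α (cf M w α s)).2.1) else X M w α s x

theorem shift (s : ℕ) (x : Fin d → ℤ) : X M w α (s + 1) x =
    ((Y M w α s (tr x (ax (ac M w α (cf M w α s)).2.2.1))).1, fun j =>
      (Y M w α s (tr x ((ac M w α (cf M w α s)).2.2.2 j))).2 j) := by
  have hY1 : ∀ y, (Y M w α s y).1 = (X M w α s y).1 := by
    intro y
    unfold Y
    split_ifs with h
    · rw [h]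
    · rfl
  refine Prod.ext ?_ ?_
  · rw [hY1]
    simp only [X, at', cf_succ, nxt]
    have h1 : (∀ j, j ≠ 0 → tr x (ax (ac M w α (cf M w α s)).2.2.1) j = 0) ↔
        ∀ j, j ≠ 0 → x j = 0 := by
      refine forall_congr' fun j => forall_congr' fun hj => ?_
      simp [tr, ax, hj]
    have h2 : tr x (ax (ac M w α (cf M w α s)).2.2.1) 0 =
        x 0 + ((ac M w α (cf M w α s)).2.2.1 : ℤ) := by
      simp [tr, ax]
    simp only [h1, h2]
    congr 2
    ring
  · funext j
    simp only [X, at', cf_succ, nxt, Y]
    set c := cf M w α s with hc
    set m := (ac M w α c).2.2.2 j with hm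
    by_cases h : tr x m = 0
    · have h1 : (fun i => c.head j i + (m i : ℤ) + x i) = c.head j := by
        funext i
        have := congrFun h i
        simp only [tr, Pi.zero_apply] at this
        omega
      rw [if_pos h, h1, Function.update_self]
    · have h1 : (fun i => c.head j i + (m i : ℤ) + x i) ≠ c.head j := by
        intro h2
        apply h
        funext i
        have := congrFun h2 i
        simp only [tr, Pi.zero_apply]
        omega
      rw [if_neg h, Function.update_of_ne h1]
      congr 1
      funext i
      simp only [tr]
      ring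

/-! ### The invariant -/

/-- the number of steps which the cell `x` has simulated at time `τ + 1` -/
def sp (τ : ℕ) (x : Fin d → ℤ) : ℕ := (τ - nm x) / 2

/-- the contents of the cell `x` at time `τ + 1` -/
def spec (τ : ℕ) (x : Fin d → ℤ) : Cell M :=
  ⟨if x = 0 then some (cf M w α (sp τ x)).q else none,
    if nm x ≤ τ then some ((τ - nm x : ℕ) : ZMod 4) else none,
    X M w α (sp τ x) x, if sp τ x = 0 then X M w α 0 x else Y M w α (sp τ x - 1) x,
    if sp τ x = 0 then (0, fun _ _ => 0) else (ac M w α (cf M w α (sp τ x - 1))).2.2⟩

theorem even_iff (p : ℕ) : ((p : ZMod 4) = 0 ∨ (p : ZMod 4) = 2) ↔ p % 2 = 0 := by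
  have h1 : ((p : ZMod 4) = 0) ↔ p % 4 = 0 % 4 := by
    rw [← ZMod.natCast_eq_natCast_iff']
    simp
  have h2 : ((p : ZMod 4) = 2) ↔ p % 4 = 2 % 4 := by
    rw [← ZMod.natCast_eq_natCast_iff']
    simp
  rw [h1, h2]
  omega

theorem eq_iff (a p : ℕ) : ((a : ZMod 4) = (p : ZMod 4) + 1) ↔ a % 4 = (p + 1) % 4 := by
  rw [← ZMod.natCast_eq_natCast_iff']
  push_cast
  rfl

variable {w}

theorem sp_succ_even {τ : ℕ} {x : Fin d → ℤ} (h : (τ - nm x) % 2 = 0) :
    sp (τ + 1) x = sp τ x := by
  unfold sp
  omega

theorem cell_eq (x : Fin d → ℤ) : (aut M).cell w α x =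
    .inl (if ∀ j, j ≠ 0 → x j = 0 then Mach.rd w α (x 0) else none) := by
  unfold Aut.cell
  by_cases h : ∀ j, j ≠ 0 → x j = 0
  · rw [if_pos h, if_pos h]
    rcases hx : x 0 with i | i
    · simp only [Mach.rd]
      cases w[i]? <;> rfl
    · simp only [Mach.rd]
      cases α[i]? <;> rfl
  · rw [if_neg h, if_neg h]
    rfl

theorem isIn_iff (x : Fin d → ℤ) : isIn (M := M)
    (.inl (if ∀ j, j ≠ 0 → x j = 0 then Mach.rd w α (x 0) else none)) ↔
    (∀ j, j ≠ 0 → x j = 0) ∧ 0 ≤ x 0 ∧ (x 0).toNat < w.length := by
  by_cases h : ∀ j, j ≠ 0 → x j = 0
  · rw [if_pos h]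
    rcases hx : x 0 with i | i
    · simp only [Mach.rd]
      by_cases hi : i < w.length
      · rw [List.getElem?_eq_getElem hi]
        simp only [Option.map_some, isIn, true_iff]
        exact ⟨h, by simp, by simpa using hi⟩
      · rw [List.getElem?_eq_none (by omega)]
        simp only [Option.map_none, isIn, false_iff]
        rintro ⟨-, -, h2⟩
        exact hi (by simpa using h2)
    · simp only [Mach.rd]
      have h1 : ¬ (0 ≤ Int.negSucc i) := by
        have := Int.negSucc_lt_zero i
        omega
      cases α[i]? <;> simp only [Option.map_none, Option.map_some, isIn, false_iff] <;>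
        exact fun h2 => h1 h2.2.1
  · rw [if_neg h]
    simp only [isIn, false_iff]
    exact fun h2 => h h2.1

theorem center_iff (hw : w ≠ []) (x : Fin d → ℤ) :
    (isIn (M := M) (.inl (if ∀ j, j ≠ 0 → x j = 0 then Mach.rd w α (x 0) else none)) ∧
      ¬ isIn (M := M) (.inl (if ∀ j, j ≠ 0 → tr x (ax (-1)) j = 0 then
        Mach.rd w α (tr x (ax (-1)) 0) else none))) ↔ x = 0 := by
  rw [isIn_iff, isIn_iff]
  have h1 : (∀ j, j ≠ 0 → tr x (ax (-1)) j = 0) ↔ ∀ j, j ≠ 0 → x j = 0 := by
    refine forall_congr' fun j => forall_congr' fun hj => ?_
    simp [tr, ax, hj]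
  have h2 : tr x (ax (-1)) 0 = x 0 - 1 := by
    simp [tr, ax]
    ring
  rw [h1, h2]
  have hlen : 0 < w.length := List.length_pos_iff.2 hw
  constructor
  · rintro ⟨⟨h3, h4, h5⟩, h6⟩
    funext j
    by_cases hj : j = 0
    · subst hj
      by_contra hne
      simp only [Pi.zero_apply] at hne
      exact h6 ⟨h3, by omega, by omega⟩
    · exact h3 j hj
  · rintro rfl
    refine ⟨⟨fun _ _ => rfl, le_rfl, by simpa using hlen⟩, ?_⟩
    rintro ⟨-, h3, -⟩
    simp at h3

theorem inv (hw : w ≠ []) : ∀ (τ : ℕ) (x : Fin d → ℤ),
    (aut M).conf w α (τ + 1) x = .inr (spec M w α τ x) := by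
  intro τ
  induction τ with
  | zero =>
    intro x
    have hf : ∀ e : Fin d → SignType, (aut M).conf w α 0 (fun j => x j + (e j : ℤ)) =
        .inl (if ∀ j, j ≠ 0 → tr x e j = 0 then Mach.rd w α (tr x e 0) else none) :=
      fun e => cell_eq M α _
    have h0 : tr x 0 = x := by
      funext j
      simp [tr]
    change rule (fun e => (aut M).conf w α 0 fun j => x j + (e j : ℤ)) = _
    simp only [hf]
    unfold rule first
    simp only [h0]
    have hc := center_iff M α hw x
    have hn : nm x ≤ 0 ↔ x = 0 := by
      rw [Nat.le_zero, nm_eq_zero]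
    have hs : sp 0 x = 0 := by
      unfold sp
      omega
    have hX : X M w α 0 x = (if ∀ j, j ≠ 0 → x j = 0 then Mach.rd w α (x 0) else none,
        fun _ => M.blank) := by
      change ((if ∀ j, j ≠ 0 → x j = 0 then Mach.rd w α ((0 : ℤ) + x 0) else none),
        fun _ => M.blank) = _
      rw [zero_add]
    unfold spec
    simp only [hc, hn, hs, if_true, hX]
    congr 2
    by_cases hx : x = 0
    · simp [hx]
    · simp [hx]
  | succ τ ih =>
    intro x
    have hf : ∀ e : Fin d → SignType, (aut M).conf w α (τ + 1) (fun j => x j + (e j : ℤ)) =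
        .inr (spec M w α τ (tr x e)) := fun e => ih _
    have h0 : tr x 0 = x := by
      funext j
      simp [tr]
    change rule (fun e => (aut M).conf w α (τ + 1) fun j => x j + (e j : ℤ)) = _
    simp only [hf]
    set f : (Fin d → SignType) → St M := fun e => .inr (spec M w α τ (tr x e)) with hfdef
    have hf0 : f 0 = .inr (spec M w α τ x) := by
      simp only [hfdef, h0]
    have hph : ∀ e, phOf (f e) = if nm (tr x e) ≤ τ then some ((τ - nm (tr x e) : ℕ) : ZMod 4)
        else none := fun e => rfl
    unfold rule
    rw [hf0]
    simp only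
    by_cases hx1 : nm x ≤ τ
    · have e1 : (spec M w α τ x).ph = some ((τ - nm x : ℕ) : ZMod 4) := by
        simp only [spec, if_pos hx1]
      rw [e1]
      simp only
      have hp1 : (((τ - nm x : ℕ) : ZMod 4) + 1) = ((τ + 1 - nm x : ℕ) : ZMod 4) := by
        rw [show τ + 1 - nm x = (τ - nm x) + 1 by omega]
        push_cast
        rfl
      by_cases hev : (τ - nm x) % 2 = 0
      · rw [if_pos ((even_iff _).2 hev)]
        congr 1
        simp only [spec, sp_succ_even hev, hp1, if_pos (by omega : nm x ≤ τ + 1)]
      · rw [if_neg fun h => hev ((even_iff _).1 h)]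
        set s := sp τ x with hs
        have hs1 : sp (τ + 1) x = s + 1 := by
          simp only [hs, sp]
          omega
        have hcur : (spec M w α τ x).cur = X M w α s x := rfl
        by_cases hx0 : x = 0
        · have e2 : (spec M w α τ x).q = some (cf M w α s).q := by
            simp only [spec, if_pos hx0]
            rw [← hs]
          rw [e2]
          simp only
          congr 1
          have hact : act M (cf M w α s).q (spec M w α τ x).cur = ac M w α (cf M w α s) := by
            rw [hcur, hx0]
            rfl
          have hcurf : ∀ e, curOf (f e) = X M w α s (tr x e) := by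
            intro e
            change X M w α (sp τ (tr x e)) (tr x e) = _
            have h1 := nm_tr_le x e
            have h2 : nm x = 0 := nm_eq_zero.2 hx0
            have h3 : sp τ (tr x e) = s := by
              simp only [hs, sp]
              omega
            rw [h3]
          unfold updC
          rw [hact]
          simp only [hcurf, hp1]
          unfold spec
          simp only [hs1, if_pos (by omega : nm x ≤ τ + 1), if_pos hx0, Nat.add_sub_cancel,
            if_neg (Nat.succ_ne_zero s)]
          rw [shift]
          have hY : ∀ e : Fin d → SignType, Y M w α s (tr x e) =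
              if e = 0 then ((X M w α s 0).1, (ac M w α (cf M w α s)).2.1) else
                X M w α s (tr x e) := by
            intro e
            unfold Y
            have h1 : tr x e = 0 ↔ e = 0 := by
              rw [hx0]
              constructor
              · intro h
                funext j
                have := congrFun h j
                simp only [tr, Pi.zero_apply, zero_add] at this
                cases he : e j with
                | zero => rfl
                | neg => rw [he] at this; simp at this
                | pos => rw [he] at this; simp at this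
              · rintro rfl
                funext j
                simp [tr]
            simp only [h1]
          simp only [hY]
          congr 1
          · refine Prod.ext ?_ ?_
            · simp only
              split_ifs with h
              · rw [h, h0, hx0]
              · rfl
            · funext j
              simp only
              split_ifs with h
              · rfl
              · rfl
          · unfold Y
            rw [if_pos hx0, ← hs, hx0]
        · have e2 : (spec M w α τ x).q = none := by
            simp only [spec, if_neg hx0]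
          rw [e2]
          simp only
          congr 1
          have hphe : ∀ e, phOf (f e) = some (((τ - nm x : ℕ) : ZMod 4) + 1) ↔
              nm (tr x e) + 1 = nm x := by
            intro e
            rw [hph]
            have h1 := nm_tr_le x e
            have h2 := le_nm_tr x e
            constructor
            · intro h
              split_ifs at h with h3
              rw [Option.some.injEq, eq_iff] at h
              omega
            · intro h
              rw [if_pos (by omega), Option.some.injEq, eq_iff]
              omega
          have hpick : ∀ e, pick f ((τ - nm x : ℕ) : ZMod 4) e = Y M w α s (tr x e) := by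
            intro e
            unfold pick
            have h1 := nm_tr_le x e
            have h2 := le_nm_tr x e
            have hpos : 1 ≤ nm x := Nat.one_le_iff_ne_zero.2 fun h => hx0 (nm_eq_zero.1 h)
            by_cases h : nm (tr x e) + 1 = nm x
            · rw [if_pos ((hphe e).2 h)]
              change (if sp τ (tr x e) = 0 then X M w α 0 (tr x e) else
                Y M w α (sp τ (tr x e) - 1) (tr x e)) = _
              have h3 : sp τ (tr x e) = s + 1 := by
                simp only [hs, sp]
                omega
              rw [h3, if_neg (Nat.succ_ne_zero s), Nat.add_sub_cancel]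
            · rw [if_neg fun h' => h ((hphe e).1 h')]
              change X M w α (sp τ (tr x e)) (tr x e) = _
              have h3 : sp τ (tr x e) = s := by
                simp only [hs, sp]
                omega
              have h4 : tr x e ≠ 0 := by
                intro h5
                have := nm_eq_zero.2 h5
                omega
              rw [h3]
              unfold Y
              rw [if_neg h4]
          have hmv : mvIn f ((τ - nm x : ℕ) : ZMod 4) = (ac M w α (cf M w α s)).2.2 := by
            unfold mvIn
            have hex : ∃ e, phOf (f e) = some (((τ - nm x : ℕ) : ZMod 4) + 1) := by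
              obtain ⟨e, he⟩ := exists_inner hx0
              exact ⟨e, (hphe e).2 he⟩
            rw [dif_pos hex]
            have h1 := (hphe _).1 hex.choose_spec
            set e := hex.choose with he
            change (if sp τ (tr x e) = 0 then ((0 : SignType), fun _ _ => (0 : SignType)) else
              (ac M w α (cf M w α (sp τ (tr x e) - 1))).2.2) = _
            have h3 : sp τ (tr x e) = s + 1 := by
              simp only [hs, sp]
              omega
            rw [h3, if_neg (Nat.succ_ne_zero s), Nat.add_sub_cancel]
          unfold updO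
          simp only [hpick, hmv, hp1]
          unfold spec
          simp only [hs1, if_pos (by omega : nm x ≤ τ + 1), if_neg hx0, Nat.add_sub_cancel,
            if_neg (Nat.succ_ne_zero s)]
          rw [shift, ← hs]
          congr 1
          unfold Y
          rw [if_neg hx0]
    · have e1 : (spec M w α τ x).ph = none := by
        simp only [spec, if_neg hx1]
      rw [e1]
      simp only
      have hs : sp (τ + 1) x = sp τ x := by
        unfold sp
        omega
      by_cases hx2 : nm x = τ + 1
      · have hx0 : x ≠ 0 := by
          rintro rfl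
          rw [nm_eq_zero.2 rfl] at hx2
          omega
        have hex : ∃ e, phOf (f e) ≠ none := by
          obtain ⟨e, he⟩ := exists_inner hx0
          refine ⟨e, ?_⟩
          rw [hph, if_pos (by omega)]
          simp
        rw [if_pos hex]
        congr 1
        simp only [spec, hs, if_pos (by omega : nm x ≤ τ + 1)]
        congr 2
        rw [show τ + 1 - nm x = 0 by omega]
        simp
      · have hex : ¬ ∃ e, phOf (f e) ≠ none := by
          rintro ⟨e, he⟩
          apply he
          have := le_nm_tr x e
          rw [hph, if_neg (by omega)]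
        rw [if_neg hex]
        congr 1
        simp only [spec, hs, if_neg hx1, if_neg (by omega : ¬ nm x ≤ τ + 1)]

/-! ### Answers -/

/-- the machine halts at the configuration `c` -/
def hal (w : List Bool) (c : Mach.Cfg M) : Prop :=
  M.δ c.q (at' M w α c 0).1 (at' M w α c 0).2 = none

theorem at_zero (c : Mach.Cfg M) : at' M w α c 0 =
    (Mach.rd w α c.pos, fun j => c.tape j (c.head j)) := by
  simp [at']

theorem step_none (c : Mach.Cfg M) : M.step w α c = none ↔ hal M α w c := by
  unfold Mach.step hal
  rw [at_zero]
  simp

theorem step_some {c : Mach.Cfg M} (h : ¬ hal M α w c) :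
    M.step w α c = some (nxt M w α c) := by
  unfold hal at h
  obtain ⟨r, hr⟩ := Option.ne_none_iff_exists'.1 h
  have h1 : ac M w α c = r := by
    unfold ac act
    rw [hr]
    rfl
  unfold Mach.step nxt
  rw [at_zero] at hr
  simp only at hr
  rw [hr, h1]
  rfl

theorem answers_iff (t : ℕ) (b : Bool) : M.Answers w α t b ↔
    (∀ s < t, ¬ hal M α w (cf M w α s)) ∧ hal M α w (cf M w α t) ∧
      (b = true ↔ (cf M w α t).q ∈ M.acc) := by
  constructor
  · rintro ⟨cs, h0, h1, h2, h3⟩
    have key : ∀ s ≤ t, cs s = cf M w α s := by
      intro s
      induction s with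
      | zero => exact fun _ => h0
      | succ s ih =>
        intro hs
        have h4 := ih (by omega)
        have h5 := h1 s (by omega)
        rw [h4] at h5
        have h6 : ¬ hal M α w (cf M w α s) := by
          rw [← step_none, h5]
          simp
        rw [step_some M α h6, Option.some.injEq] at h5
        rw [← h5, cf_succ]
    refine ⟨fun s hs => ?_, ?_, ?_⟩
    · have h5 := h1 s hs
      rw [key s hs.le] at h5
      rw [← step_none, h5]
      simp
    · rw [key t le_rfl] at h2
      exact (step_none M α _).1 h2
    · rw [key t le_rfl] at h3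
      exact h3
  · rintro ⟨h1, h2, h3⟩
    exact ⟨cf M w α, rfl, fun s hs => step_some M α (h1 s hs), (step_none M α _).2 h2, h3⟩

theorem out_eq (hw : w ≠ []) (τ : ℕ) : (aut M).out ((aut M).conf w α (τ + 1) 0) =
    if hal M α w (cf M w α (τ / 2)) then some (decide ((cf M w α (τ / 2)).q ∈ M.acc)) else none := by
  rw [inv M α hw]
  have h1 : nm (0 : Fin d → ℤ) = 0 := nm_eq_zero.2 rfl
  have h2 : sp τ (0 : Fin d → ℤ) = τ / 2 := by
    unfold sp
    rw [h1, Nat.sub_zero]
  change out (.inr (spec M w α τ 0)) = _
  unfold out spec
  simp only [if_true, h2]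
  by_cases h : hal M α w (cf M w α (τ / 2))
  · rw [if_pos h]
    exact if_pos h
  · rw [if_neg h]
    exact if_neg h

end MS

/-- every machine is simulated by an automaton -/
theorem exists_aut {d : ℕ} [NeZero d] (M : Mach d) : ∃ A : Aut d, ∀ w α : List Bool, w ≠ [] →
    ∀ (t : ℕ) (b : Bool), (M.Answers w α t b → A.Answers w α (2 * t + 1) b) ∧
      (A.Answers w α t b → ∃ s, t = 2 * s + 1 ∧ M.Answers w α s b) := by
  classical
  refine ⟨MS.aut M, fun w α hw t b => ⟨?_, ?_⟩⟩
  · intro h
    rw [MS.answers_iff] at h
    obtain ⟨h1, h2, h3⟩ := h
    refine ⟨?_, fun s hs => ?_⟩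
    · rw [MS.out_eq M α hw, show 2 * t / 2 = t by omega, if_pos h2]
      congr 1
      cases b with
      | true => simpa using h3
      | false =>
        simp only [Bool.false_eq_true, false_iff] at h3
        simpa using h3
    · rcases s with _ | τ
      · change MS.out ((MS.aut M).cell w α 0) = none
        rw [MS.cell_eq]
        rfl
      · rw [MS.out_eq M α hw, if_neg (h1 (τ / 2) (by omega))]
  · rintro ⟨h1, h2⟩
    rcases t with _ | τ
    · exfalso
      change MS.out ((MS.aut M).cell w α 0) = some b at h1
      rw [MS.cell_eq] at h1
      cases h1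
    · rw [MS.out_eq M α hw] at h1
      split_ifs at h1 with h3
      have hev : τ % 2 = 0 := by
        by_contra hodd
        have h4 := h2 τ (by omega)
        obtain ⟨σ, rfl⟩ : ∃ σ, τ = σ + 1 := ⟨τ - 1, by omega⟩
        rw [MS.out_eq M α hw, show σ / 2 = (σ + 1) / 2 by omega, if_pos h3] at h4
        cases h4
      refine ⟨τ / 2, by omega, ?_⟩
      rw [MS.answers_iff]
      refine ⟨fun s hs => ?_, h3, ?_⟩
      · intro h5
        have h4 := h2 (2 * s + 1) (by omega)
        rw [MS.out_eq M α hw, show 2 * s / 2 = s by omega, if_pos h5] at h4
        cases h4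
      · rw [Option.some.injEq] at h1
        rw [← h1]
        simp

end Pool.Agent.helper39.MESH
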