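import Pool.Agent.helper39.MESH.Avg
import Pool.Agent.helper39.MESH.Err
import Pool.Agent.helper39.MESH.Imm
import Pool.Agent.helper39.MESH.MSim

/-!
# The theorems for automata and machines of all dimensions
-/

set_option autoImplicit false

namespace Pool.Agent.helper39.MESH

open Pool.Agent.helper12.SP (DSPACE)

/-- the inputs of length `n` on which the device `D` with advice `α` gives in time the right answer -/
def right {d : ℕ} [NeZero d] (D : Dev d) (L : Set (List Bool)) (c n : ℕ) (α : List Bool) :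
    Set (List Bool) :=
  {w | w.length = n ∧ ∃ (t : ℕ) (b : Bool), InTime c d n t ∧ D.Answers w α t b ∧
    (b = true ↔ w ∈ L)}

theorem InTime.mono {c d n t t' : ℕ} (h : t ≤ t') (ht : InTime c d n t') : InTime c d n t :=
  (Nat.mul_le_mul_right _ (Nat.pow_le_pow_left h d)).trans ht

/-- a device is simulated by an automaton within the simulated time -/
theorem Dev.exists_aut (c : ℕ) (hc : 1 ≤ c) {d : ℕ} [NeZero d] (D : Dev d) :
    ∃ (A : Aut d) (n₀ : ℕ), (∀ w α : List Bool, w ≠ [] → ∀ (t : ℕ) (b : Bool),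
      A.Answers w α t b → ∃ s, D.Answers w α s b) ∧
      ∀ w α : List Bool, n₀ ≤ w.length → ∀ (t : ℕ) (b : Bool), InTime c d w.length t →
        D.Answers w α t b → ∃ s ≤ tm c d w.length, A.Answers w α s b := by
  have hd : 1 ≤ d := Nat.one_le_iff_ne_zero.2 (NeZero.ne d)
  cases D with
  | automaton A =>
    obtain ⟨n₂, hn₂⟩ := sw_slow (16 ^ d)
    refine ⟨A, max 12 n₂, fun w α _ t b h => ⟨t, h⟩, fun w α hw t b ht h => ?_⟩
    exact ⟨t, le_tm hc hd ((le_max_left _ _).trans hw) (hn₂ _ ((le_max_right _ _).trans hw)) ht, h⟩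
  | machine M =>
    obtain ⟨n₂, hn₂⟩ := sw_slow (48 ^ d)
    obtain ⟨A, hA⟩ := MESH.exists_aut M
    refine ⟨A, max 12 n₂, fun w α hw t b h => ?_, fun w α hw t b ht h => ?_⟩
    · obtain ⟨s, -, hs⟩ := (hA w α hw t b).2 h
      exact ⟨s, hs⟩
    · have h1 : 12 ≤ w.length := (le_max_left _ _).trans hw
      have hne : w ≠ [] := by
        rintro rfl
        simp at h1
      exact ⟨2 * t + 1, two_mul_le_tm hc hd h1 (hn₂ _ ((le_max_right _ _).trans hw)) ht,
        (hA w α hne t b).1 h⟩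

theorem avg (c : ℕ) (hc : 1 ≤ c) :
    ∃ L : Set (List Bool), (∃ C : ℕ, L ∈ DSPACE (fun n => C * 2 ^ (c * n))) ∧
      ∀ (d : ℕ) [NeZero d] (D : Dev d), ∃ n₀ : ℕ, ∀ n ≥ n₀, ∀ α : List Bool,
        (α.length + 2 * n ≤ 2 ^ n → (right D L c n α).ncard < 2 ^ n) ∧
        (2 * (right D L c n α).ncard - 2 ^ n) ^ 2 ≤ 2 * 2 ^ n * (α.length + 2 * n) := by
  obtain ⟨L, hL, h⟩ := avgT c hc
  refine ⟨L, hL, fun d hd D => ?_⟩
  obtain ⟨A, n₁, -, hA⟩ := Dev.exists_aut c hc D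
  obtain ⟨n₂, hn₂⟩ := h d A
  refine ⟨max n₁ n₂, fun n hn α => ?_⟩
  have h1 : n₁ ≤ n := (le_max_left _ _).trans hn
  have h2 : n₂ ≤ n := (le_max_right _ _).trans hn
  have hsub : right D L c n α ⊆ rightT A L c n α := by
    rintro w ⟨hw, t, b, ht, hD, hb⟩
    subst hw
    obtain ⟨s, hs, hs'⟩ := hA w α h1 t b ht hD
    exact ⟨rfl, s, b, hs, hs', hb⟩
  have hfin : (rightT A L c n α).Finite :=
    (List.finite_length_eq Bool n).subset fun w hw => hw.1
  have hle := Set.ncard_le_ncard hsub hfin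
  obtain ⟨h3, h4⟩ := hn₂ n h2 α
  exact ⟨fun hα => hle.trans_lt (h3 hα),
    (Nat.pow_le_pow_left (Nat.sub_le_sub_right (Nat.mul_le_mul_left _ hle) _) 2).trans h4⟩

theorem errorless (c : ℕ) (hc : 1 ≤ c) :
    ∃ L : Set (List Bool), (∃ C : ℕ, L ∈ DSPACE (fun n => C * 2 ^ (c * n))) ∧
      ∀ (d : ℕ) [NeZero d] (D : Dev d), ∃ n₀ : ℕ, ∀ n ≥ n₀, ∀ α : List Bool,
        (∀ (w : List Bool) (t : ℕ) (b : Bool), w.length = n → D.Answers w α t b →
          (b = true ↔ w ∈ L)) →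
        {w : List Bool | w.length = n ∧ ∃ (t : ℕ) (b : Bool), InTime c d n t ∧
          D.Answers w α t b}.ncard ≤
            α.length + 2 * Nat.log 2 (α.length + 1) + Nat.log 2 n + 4 := by
  obtain ⟨L, hL, h⟩ := errorlessT c hc
  refine ⟨L, hL, fun d hd D => ?_⟩
  obtain ⟨A, n₁, hA', hA⟩ := Dev.exists_aut c hc D
  obtain ⟨n₂, hn₂⟩ := h d A
  refine ⟨max (max n₁ n₂) 1, fun n hn α hα => ?_⟩
  have h1 : n₁ ≤ n := (le_max_left _ _).trans ((le_max_left _ _).trans hn)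
  have h2 : n₂ ≤ n := (le_max_right _ _).trans ((le_max_left _ _).trans hn)
  have h3 : 1 ≤ n := (le_max_right _ _).trans hn
  refine le_trans (Set.ncard_le_ncard ?_ ?_) (hn₂ n h2 α ?_)
  · rintro w ⟨hw, t, b, ht, hD⟩
    subst hw
    obtain ⟨s, hs, hs'⟩ := hA w α h1 t b ht hD
    exact ⟨rfl, s, b, hs, hs'⟩
  · exact (List.finite_length_eq Bool n).subset fun w hw => hw.1
  · intro w t b hw hAw
    have hne : w ≠ [] := by
      rintro rfl
      simp at hw
      omega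
    obtain ⟨s, hs⟩ := hA' w α hne t b hAw
    exact hα w s b hw hs

theorem immune (c : ℕ) (hc : 1 ≤ c) :
    ∃ L : Set (List Bool), (∃ C : ℕ, L ∈ DSPACE (fun n => C * 2 ^ (c * n))) ∧
      ∀ (d : ℕ) [NeZero d] (D : Dev d),
        (∀ (w : List Bool) (t : ℕ) (b : Bool), D.Answers w [] t b → (b = true ↔ w ∈ L)) →
        {w : List Bool | ∃ (t : ℕ) (b : Bool), InTime c d w.length t ∧
          D.Answers w [] t b}.Finite := by
  obtain ⟨L, hL, h⟩ := immuneT c hc
  refine ⟨L, hL, fun d hd D hD => ?_⟩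
  obtain ⟨A, n₁, hA', hA⟩ := Dev.exists_aut c hc D
  refine ((h d A fun w hw t b hAw => ?_).union (List.finite_length_le Bool n₁)).subset ?_
  · obtain ⟨s, hs⟩ := hA' w [] hw t b hAw
    exact hD w s b hs
  · rintro w ⟨t, b, ht, hw⟩
    by_cases h1 : w.length ≤ n₁
    · exact Or.inr h1
    · obtain ⟨s, hs, hs'⟩ := hA w [] (by omega) t b ht hw
      exact Or.inl ⟨s, b, hs, hs'⟩

end Pool.Agent.helper39.MESH
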