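import Pool.Agent.helper39.MESH.Out
import Pool.Agent.helper39.MESH.Code
import Pool.Agent.helper12.SP.Fin

/-!
# Parameters, time, and the simulation of an automaton by the family `sm`
-/

set_option autoImplicit false

namespace Pool.Agent.helper39.MESH

open Pool.Agent.helper12.SP (TM DSPACE Ctx Pb Cmp num pw dg pm up np capn np_prime pow_le_capn
  two_pow_le_capn)

/-! ### Numerical lemmas -/

theorem cube_le {n : ℕ} (hn : 12 ≤ n) : (n + 1) ^ 3 ≤ 2 ^ n := by
  induction n, hn using Nat.le_induction with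
  | base => norm_num
  | succ n hn ih =>
    have h1 : (n + 1 + 1) ^ 3 ≤ 2 * (n + 1) ^ 3 := by
      have h2 : (n + 1 + 1) ^ 3 = (n + 1) ^ 3 + 3 * (n + 1) ^ 2 + 3 * (n + 1) + 1 := by ring
      have h3 : 3 * (n + 1) ^ 2 + 3 * (n + 1) + 1 ≤ (n + 1) ^ 3 := by
        have h4 : 13 ≤ n + 1 := by omega
        nlinarith [Nat.mul_le_mul h4 (Nat.le_refl ((n + 1) ^ 2)), sq_nonneg (n + 1)]
      omega
    rw [pow_succ 2 n]
    omega

/-- the number of initial segment of an antitone predicate -/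
theorem count_spec (P : ℕ → Prop) [DecidablePred P] (hP : ∀ x y, x ≤ y → P y → P x) (Y : ℕ) :
    (∑ x ∈ Finset.range Y, if P x then 1 else 0) ≤ Y ∧
    (∀ x < ∑ x ∈ Finset.range Y, (if P x then 1 else 0), P x) ∧
    ((∑ x ∈ Finset.range Y, if P x then 1 else 0) < Y →
      ¬ P (∑ x ∈ Finset.range Y, if P x then 1 else 0)) := by
  induction Y with
  | zero => simp
  | succ Y ih =>
    obtain ⟨h1, h2, h3⟩ := ih
    rw [Finset.sum_range_succ]
    set k := ∑ x ∈ Finset.range Y, (if P x then 1 else 0) with hk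
    by_cases hY : P Y
    · rw [if_pos hY]
      have hkY : k = Y := by
        by_contra hne
        exact h3 (by omega) (hP k Y h1 hY)
      rw [hkY]
      exact ⟨le_rfl, fun x hx => hP x Y (by omega) hY, fun h => absurd h (lt_irrefl _)⟩
    · rw [if_neg hY, add_zero]
      refine ⟨by omega, h2, fun _ => ?_⟩
      rcases Nat.lt_or_ge k Y with h | h
      · exact h3 h
      · have : k = Y := by omega
        rwa [this]

theorem capn_gt (c n : ℕ) : 2 ^ (c * n) < capn c n := by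
  refine (Nat.lt_two_pow_self (n := 2 ^ (c * n))).trans_le (two_pow_le_capn ?_)
  exact Nat.le_mul_of_pos_left _ (by positivity)

theorem log_succ_le (n : ℕ) : Nat.log 2 n + 1 ≤ n + 1 := by
  have := Nat.log_le_self 2 n
  omega

theorem sw_pos (n : ℕ) : 1 ≤ sw n := Nat.succ_le_succ (Nat.zero_le _)

theorem sw_le (n : ℕ) : sw n ≤ n + 1 := by
  have h1 := Nat.log_le_self 2 n
  have h2 := Nat.log_le_self 2 (Nat.log 2 n)
  unfold sw
  omega

theorem lt_sw (n : ℕ) : Nat.log 2 n < 2 ^ sw n := Nat.lt_pow_succ_log_self (by norm_num) _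

/-- `sw` grows slowly -/
theorem sw_slow (K : ℕ) : ∃ n₀, ∀ n ≥ n₀, K * sw n ≤ Nat.log 2 n + 1 := by
  have key : ∀ x : ℕ, x ^ 2 ≤ 3 * 2 ^ x := by
    intro x
    induction x with
    | zero => simp
    | succ x ih =>
      rcases Nat.lt_or_ge x 3 with h | h
      · interval_cases x <;> norm_num
      · rw [pow_succ 2 x]
        nlinarith
  refine ⟨2 ^ 2 ^ (4 * K), fun n hn => ?_⟩
  have hn0 : n ≠ 0 := by
    have : 0 < 2 ^ 2 ^ (4 * K) := by positivity
    omega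
  have h1 : 2 ^ (4 * K) ≤ Nat.log 2 n := Nat.le_log_of_pow_le (by norm_num) hn
  have h2 : 4 * K ≤ Nat.log 2 (Nat.log 2 n) := Nat.le_log_of_pow_le (by norm_num) h1
  have h3 : 2 ^ Nat.log 2 (Nat.log 2 n) ≤ Nat.log 2 n := by
    refine Nat.pow_log_le_self 2 ?_
    have : 0 < 2 ^ (4 * K) := by positivity
    omega
  unfold sw
  set x := Nat.log 2 (Nat.log 2 n) with hx
  have h4 := key x
  rcases Nat.eq_zero_or_pos K with h0 | h0
  · rw [h0, Nat.zero_mul]
    exact Nat.zero_le _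
  · have h5 : 4 * (K * x) ≤ x ^ 2 := by
      calc 4 * (K * x) = 4 * K * x := by ring
        _ ≤ x * x := Nat.mul_le_mul_right _ h2
        _ = x ^ 2 := by ring
    have h6 : K ≤ K * x := Nat.le_mul_of_pos_right _ (by omega)
    have h7 : K * (x + 1) = K * x + K := by ring
    have h8 : 4 * K ≤ K * x := by
      calc 4 * K = K * 4 := by ring
        _ ≤ K * x := Nat.mul_le_mul_left _ (by omega)
    omega

theorem kap_spec {c d n : ℕ} (hd : 1 ≤ d) :
    (4 * kap (capn c n) c d n) ^ d * sw n ≤ 2 ^ (c * n) ∧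
    2 ^ (c * n) < (4 * (kap (capn c n) c d n + 1)) ^ d * sw n := by
  have hN := capn_gt c n
  set N := capn c n with hNdef
  set Y := 2 ^ (c * n) with hY
  set g := sw n with hg
  have hg1 : 0 < g := sw_pos n
  have hkap : kap N c d n = ∑ x ∈ Finset.range Y,
      if (4 * (x + 1)) ^ d * g ≤ Y then 1 else 0 := by
    unfold kap
    refine Finset.sum_congr rfl fun x _ => ?_
    have h1 : pw N (4 * (x + 1)) d * g ≤ Y ↔ (4 * (x + 1)) ^ d * g ≤ Y := by
      unfold pw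
      rcases le_total ((4 * (x + 1)) ^ d) N with h | h
      · rw [min_eq_left h]
      · rw [min_eq_right h]
        have h2 : N ≤ N * g := Nat.le_mul_of_pos_right _ hg1
        have h3 : (4 * (x + 1)) ^ d ≤ (4 * (x + 1)) ^ d * g := Nat.le_mul_of_pos_right _ hg1
        constructor <;> intro h4 <;> omega
    simp only [hY, hg] at h1 ⊢
    simp only [h1]
  have hanti : ∀ x y, x ≤ y → (4 * (y + 1)) ^ d * g ≤ Y → (4 * (x + 1)) ^ d * g ≤ Y := by
    intro x y hxy h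
    exact (Nat.mul_le_mul_right _ (Nat.pow_le_pow_left (by omega) d)).trans h
  obtain ⟨h1, h2, h3⟩ := count_spec (fun x => (4 * (x + 1)) ^ d * g ≤ Y) hanti Y
  rw [← hkap] at h1 h2 h3
  constructor
  · rcases Nat.eq_zero_or_pos (kap N c d n) with h0 | h0
    · rw [h0, Nat.mul_zero, zero_pow (by omega), Nat.zero_mul]
      exact Nat.zero_le _
    · have h4 := h2 (kap N c d n - 1) (by omega)
      rwa [Nat.sub_add_cancel h0] at h4
  · by_contra hcon
    rw [not_lt] at hcon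
    have h4 : kap N c d n < Y := by
      have h5 : kap N c d n + 1 ≤ (4 * (kap N c d n + 1)) ^ d :=
        (by omega : kap N c d n + 1 ≤ 4 * (kap N c d n + 1)).trans
          (Nat.le_self_pow (by omega) _)
      have h6 : (4 * (kap N c d n + 1)) ^ d ≤ (4 * (kap N c d n + 1)) ^ d * g :=
        Nat.le_mul_of_pos_right _ hg1
      omega
    exact h3 h4 hcon

theorem kap_pos {c d n : ℕ} (hc : 1 ≤ c) (hd : 1 ≤ d) (hn : 12 ≤ n) (hdn : 4 ^ d ≤ n + 1) :
    1 ≤ kap (capn c n) c d n := by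
  by_contra hcon
  have h0 : kap (capn c n) c d n = 0 := by omega
  have h1 := (kap_spec (c := c) (n := n) hd).2
  rw [h0] at h1
  have h2 := cube_le hn
  have h3 : 2 ^ n ≤ 2 ^ (c * n) := Nat.pow_le_pow_right (by norm_num) (Nat.le_mul_of_pos_left n hc)
  have h4 : (4 * (0 + 1)) ^ d * sw n ≤ (n + 1) ^ 3 := by
    rw [Nat.zero_add, Nat.mul_one]
    calc 4 ^ d * sw n ≤ (n + 1) * (n + 1) := Nat.mul_le_mul hdn (sw_le n)
      _ = (n + 1) ^ 2 := by ring
      _ ≤ (n + 1) ^ 3 := Nat.pow_le_pow_right (by omega) (by norm_num)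
  omega

theorem tm_eq (c d n : ℕ) : tm c d n = hh c n * kap (capn c n) c d n := rfl

theorem pow_le_of_sw {d n K : ℕ} (hdn : (16 * K) ^ d * sw n ≤ Nat.log 2 n + 1) (hK : 1 ≤ K) :
    4 ^ d ≤ n + 1 := by
  have h1 : 4 ^ d ≤ (16 * K) ^ d := Nat.pow_le_pow_left (by omega) d
  have h2 : (16 * K) ^ d ≤ (16 * K) ^ d * sw n := Nat.le_mul_of_pos_right _ (sw_pos n)
  have h3 := log_succ_le n
  omega

/-- the product of the numbers of block steps and of steps in a block is large -/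
theorem tm_big {c d n t : ℕ} (hc : 1 ≤ c) (hd : 1 ≤ d) (hn : 12 ≤ n) (K : ℕ)
    (hK : 1 ≤ K) (hdn : (16 * K) ^ d * sw n ≤ Nat.log 2 n + 1) (ht : InTime c d n t) :
    K * t ≤ tm c d n := by
  have h4d : 4 ^ d ≤ n + 1 := pow_le_of_sw hdn hK
  have hκ := kap_pos hc hd hn h4d
  have hspec := (kap_spec (c := c) (n := n) hd).2
  have h2n : 2 ^ n ≤ 2 ^ (c * n) := Nat.pow_le_pow_right (by norm_num) (Nat.le_mul_of_pos_left n hc)
  have hn2 : n < 2 ^ n := Nat.lt_two_pow_self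
  have hh1 : 1 ≤ hh c n := by
    unfold hh
    exact (Nat.one_le_div_iff (by omega)).2 (by omega)
  have hh2 : 2 ^ (c * n) < (hh c n + 1) * (n + 1) := by
    unfold hh
    have h1 := Nat.div_add_mod (2 ^ (c * n)) (n + 1)
    have h2 := Nat.mod_lt (2 ^ (c * n)) (by omega : n + 1 > 0)
    nlinarith
  rw [tm_eq]
  set κ := kap (capn c n) c d n with hκdef
  set H := hh c n with hH
  set Y := 2 ^ (c * n) with hY
  set l := Nat.log 2 n + 1 with hl
  set w := sw n with hw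
  by_contra hcon
  rw [not_le] at hcon
  have e1 : Y ≤ 2 * H * (n + 1) := by
    have : (H + 1) * (n + 1) ≤ 2 * H * (n + 1) := Nat.mul_le_mul_right _ (by omega)
    omega
  have e2 : Y < (8 * κ) ^ d * w := by
    have : (4 * (κ + 1)) ^ d ≤ (8 * κ) ^ d := Nat.pow_le_pow_left (by omega) d
    exact hspec.trans_le (Nat.mul_le_mul_right _ this)
  have e3 : Y ^ d * Y < (16 * (H * κ)) ^ d * ((n + 1) ^ d * w) := by
    calc Y ^ d * Y < Y ^ d * ((8 * κ) ^ d * w) :=
          Nat.mul_lt_mul_of_pos_left e2 (by positivity)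
      _ ≤ (2 * H * (n + 1)) ^ d * ((8 * κ) ^ d * w) :=
          Nat.mul_le_mul_right _ (Nat.pow_le_pow_left e1 d)
      _ = ((2 * H * (n + 1)) * (8 * κ)) ^ d * w := by
          rw [mul_pow (2 * H * (n + 1)) (8 * κ) d]
          ring
      _ = (16 * (H * κ)) ^ d * ((n + 1) ^ d * w) := by
          have h1 : (2 * H * (n + 1)) * (8 * κ) = 16 * (H * κ) * (n + 1) := by ring
          rw [h1, mul_pow (16 * (H * κ)) (n + 1) d]
          ring
  have e4 : (16 * (H * κ)) ^ d * ((n + 1) ^ d * w) ≤ t ^ d * ((n + 1) ^ d * l) := by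
    calc (16 * (H * κ)) ^ d * ((n + 1) ^ d * w)
        ≤ (16 * (K * t)) ^ d * ((n + 1) ^ d * w) :=
          Nat.mul_le_mul_right _ (Nat.pow_le_pow_left (Nat.mul_le_mul_left _ hcon.le) d)
      _ = ((16 * K) ^ d * w) * (t ^ d * (n + 1) ^ d) := by
          rw [← mul_assoc 16 K t, mul_pow]
          ring
      _ ≤ l * (t ^ d * (n + 1) ^ d) := Nat.mul_le_mul_right _ hdn
      _ = t ^ d * ((n + 1) ^ d * l) := by ring
  have e5 : 2 ^ ((d + 1) * c * n) = Y ^ d * Y := by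
    rw [hY, ← pow_mul, ← pow_add]
    congr 1
    ring
  have e6 : t ^ d * ((n + 1) ^ d * l) ≤ 2 ^ ((d + 1) * c * n) := ht
  omega

/-- the simulated time is long enough -/
theorem le_tm {c d n t : ℕ} (hc : 1 ≤ c) (hd : 1 ≤ d) (hn : 12 ≤ n)
    (hdn : 16 ^ d * sw n ≤ Nat.log 2 n + 1) (ht : InTime c d n t) : t ≤ tm c d n := by
  have := tm_big hc hd hn 1 le_rfl (by simpa using hdn) ht
  omega

/-- the simulated time is long enough for machines -/
theorem two_mul_le_tm {c d n t : ℕ} (hc : 1 ≤ c) (hd : 1 ≤ d) (hn : 12 ≤ n)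
    (hdn : 48 ^ d * sw n ≤ Nat.log 2 n + 1) (ht : InTime c d n t) : 2 * t + 1 ≤ tm c d n := by
  have h1 := tm_big hc hd hn 3 (by norm_num) (by simpa using hdn) ht
  rcases Nat.eq_zero_or_pos t with h0 | h0
  · have h4d : 4 ^ d ≤ n + 1 := pow_le_of_sw (K := 3) (by simpa using hdn) (by norm_num)
    have hκ := kap_pos hc hd hn h4d
    have h2n : 2 ^ n ≤ 2 ^ (c * n) :=
      Nat.pow_le_pow_right (by norm_num) (Nat.le_mul_of_pos_left n hc)
    have hn2 : n < 2 ^ n := Nat.lt_two_pow_self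
    have hh1 : 1 ≤ hh c n := by
      unfold hh
      exact (Nat.one_le_div_iff (by omega)).2 (by omega)
    have h2 : 1 ≤ hh c n * kap (capn c n) c d n := Nat.one_le_iff_ne_zero.2 (by positivity)
    rw [tm_eq]
    omega
  · omega

/-- all the inequalities needed -/
theorem params {c d n : ℕ} (hc : 1 ≤ c) (hd : 1 ≤ d) (hn : 12 ≤ n) (hdn : 4 ^ d ≤ n + 1) {q : ℕ}
    (hq : 5 ≤ q) (hqn : q ≤ Nat.log 2 n) :
    (pp (capn c n) c d n q).Prime ∧
    2 ^ d * gr (capn c n) c d n * (q ^ gg n - 1) + 2 ≤ pp (capn c n) c d n q ∧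
    q ^ gg n < pp (capn c n) c d n q ∧
    1 ≤ kap (capn c n) c d n ∧ 1 ≤ gg n ∧
    (2 * kap (capn c n) c d n) ^ d ≤ gr (capn c n) c d n * gg n ∧
    pp (capn c n) c d n q ^ ((2 ^ d + 1) * gr (capn c n) c d n) ≤ capn c n ∧
    q ^ (4 * kap (capn c n) c d n) ^ d ≤ capn c n ∧
    (q ^ gg n) ^ (2 ^ d * gr (capn c n) c d n) ≤ capn c n ∧
    ((2 ^ d + 1) * pp (capn c n) c d n q) ^ hh c n ≤ capn c n ∧
    2 ^ (n + 1) ≤ capn c n ∧ 2 ^ 2 ^ n ≤ capn c n := by
  have h1 : 2 ^ n ≤ 2 ^ (c * n) := Nat.pow_le_pow_right (by norm_num) (Nat.le_mul_of_pos_left n hc)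
  have h2 : n + 1 ≤ 2 ^ n := Nat.lt_two_pow_self
  have hcube := cube_le hn
  have hκ := kap_pos hc hd hn hdn
  have hspec := (kap_spec (c := c) (n := n) hd).1
  have hcap := capn_gt c n
  have hw1 := sw_pos n
  have hwn := sw_le n
  have hqw : q ≤ 2 ^ sw n := hqn.trans (lt_sw n).le
  -- the size of the groups
  have hg1 : 1 ≤ gg n := by
    unfold gg
    exact (Nat.one_le_div_iff (by omega)).2 hwn
  have hgw : gg n * sw n ≤ n + 1 := Nat.div_mul_le_self _ _
  have hgw2 : n + 1 < (gg n + 1) * sw n := by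
    have h3 := Nat.div_add_mod (n + 1) (sw n)
    have h4 := Nat.mod_lt (n + 1) (by omega : sw n > 0)
    unfold gg
    nlinarith
  have hpw2 : pw (capn c n) 2 d = 2 ^ d := by
    refine min_eq_left ?_
    have : 2 ^ d ≤ 4 ^ d := Nat.pow_le_pow_left (by norm_num) d
    omega
  have hQ : q ^ gg n ≤ 2 ^ (n + 1) := by
    calc q ^ gg n ≤ (2 ^ sw n) ^ gg n := Nat.pow_le_pow_left hqw _
      _ = 2 ^ (gg n * sw n) := by rw [← pow_mul, Nat.mul_comm]
      _ ≤ 2 ^ (n + 1) := Nat.pow_le_pow_right (by norm_num) hgw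
  have hpwQ : pw (capn c n) q (gg n) = q ^ gg n := by
    refine min_eq_left (hQ.trans (two_pow_le_capn ?_))
    nlinarith
  set K := kap (capn c n) c d n with hK
  set D := (4 * K) ^ d with hD
  set P := 2 ^ (c * n) with hP
  set g := gg n with hg
  set w := sw n with hw
  have hDP : D ≤ P := le_trans (Nat.le_mul_of_pos_right D (by omega)) hspec
  have hBD : (2 * K) ^ d ≤ D := Nat.pow_le_pow_left (by omega) d
  have hB1 : 1 ≤ (2 * K) ^ d := Nat.one_le_pow _ _ (by omega)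
  have hFB : 2 ^ d * (2 * K) ^ d = D := by
    rw [hD, ← mul_pow]
    congr 1
    ring
  have hpwB : pw (capn c n) (2 * K) d = (2 * K) ^ d := min_eq_left (by omega)
  set A := (2 * K) ^ d / g with hA
  have hGr : gr (capn c n) c d n = A + 1 := by
    unfold gr
    rw [← hK, hpwB]
  have hpp : pp (capn c n) c d n q = np (2 ^ d * (A + 1) * q ^ g + 2) := by
    rw [pp, hpw2, hGr, hpwQ]
  rw [hpp, hGr]
  obtain ⟨hp, hp1, hp2⟩ := np_prime (x := 2 ^ d * (A + 1) * q ^ g + 2) (by omega)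
  have hAg : A * g ≤ (2 * K) ^ d := Nat.div_mul_le_self _ _
  have hAg2 : (2 * K) ^ d < (A + 1) * g := by
    have h3 := Nat.div_add_mod ((2 * K) ^ d) g
    have h4 := Nat.mod_lt ((2 * K) ^ d) (by omega : g > 0)
    nlinarith
  have hF1 : 1 ≤ 2 ^ d := Nat.one_le_two_pow
  have hdle : d ≤ n := by
    have h3 : d < 4 ^ d := Nat.lt_pow_self (by norm_num)
    omega
  have h2d : 2 ^ d ≤ n + 1 := (Nat.pow_le_pow_left (by norm_num) d).trans hdn
  have hFA : 2 ^ d * (A + 1) ≤ 2 * D := by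
    have h3 : A ≤ (2 * K) ^ d := Nat.div_le_self _ _
    calc 2 ^ d * (A + 1) ≤ 2 ^ d * ((2 * K) ^ d + (2 * K) ^ d) := Nat.mul_le_mul_left _ (by omega)
      _ = 2 * D := by rw [← hFB]; ring
  have hQ0 : 1 ≤ q ^ g := Nat.one_le_pow _ _ (by omega)
  have hpb : np (2 ^ d * (A + 1) * q ^ g + 2) ≤ 2 ^ (c * n + n + 4) := by
    have h3 : 2 ^ d * (A + 1) * q ^ g ≤ 2 * P * 2 ^ (n + 1) :=
      Nat.mul_le_mul (hFA.trans (Nat.mul_le_mul_left _ hDP)) hQ
    have h4 : 2 ^ (c * n + n + 4) = 16 * P * 2 ^ n := by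
      rw [pow_add, pow_add, ← hP]
      ring
    have h5 : 2 * P * 2 ^ (n + 1) = 4 * P * 2 ^ n := by
      rw [pow_succ]
      ring
    have h6 : 1 ≤ P * 2 ^ n := Nat.mul_pos (by positivity) (by positivity)
    have h7 : 16 * P * 2 ^ n = 16 * (P * 2 ^ n) := by ring
    have h8 : 4 * P * 2 ^ n = 4 * (P * 2 ^ n) := by ring
    omega
  have hsq : (n + 1) * (n + 1) ≤ P := by
    have : (n + 1) * (n + 1) ≤ (n + 1) ^ 3 := by
      calc (n + 1) * (n + 1) = (n + 1) ^ 2 := by ring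
        _ ≤ (n + 1) ^ 3 := Nat.pow_le_pow_right (by omega) (by norm_num)
    omega
  refine ⟨hp, ?_, ?_, hκ, hg1, hAg2.le, ?_, ?_, ?_, ?_, ?_, ?_⟩
  · refine le_trans ?_ hp1
    exact Nat.add_le_add_right (Nat.mul_le_mul_left _ (Nat.sub_le _ _)) _
  · have h3 : q ^ g ≤ 2 ^ d * (A + 1) * q ^ g :=
      Nat.le_mul_of_pos_left _ (Nat.mul_pos hF1 (Nat.succ_pos _))
    omega
  · refine pow_le_capn hpb ?_
    have h3 : (n + 1) * A ≤ 2 * w * (2 * K) ^ d := by
      calc (n + 1) * A ≤ ((g + 1) * w) * A := Nat.mul_le_mul_right _ hgw2.le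
        _ ≤ (2 * g * w) * A := Nat.mul_le_mul_right _ (Nat.mul_le_mul_right _ (by omega))
        _ = 2 * w * (A * g) := by ring
        _ ≤ 2 * w * (2 * K) ^ d := Nat.mul_le_mul_left _ hAg
    have h4 : (n + 1) * (2 ^ d * (A + 1)) ≤ 3 * P := by
      calc (n + 1) * (2 ^ d * (A + 1)) = 2 ^ d * ((n + 1) * A) + (n + 1) * 2 ^ d := by ring
        _ ≤ 2 ^ d * (2 * w * (2 * K) ^ d) + (n + 1) * (n + 1) :=
          Nat.add_le_add (Nat.mul_le_mul_left _ h3) (Nat.mul_le_mul_left _ h2d)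
        _ = 2 * (D * w) + (n + 1) * (n + 1) := by rw [← hFB]; ring
        _ ≤ 3 * P := by omega
    calc (c * n + n + 4) * ((2 ^ d + 1) * (A + 1))
        ≤ ((c + 4) * (n + 1)) * (2 * 2 ^ d * (A + 1)) := by
          refine Nat.mul_le_mul (by nlinarith) (Nat.mul_le_mul_right _ (by omega))
      _ = 2 * (c + 4) * ((n + 1) * (2 ^ d * (A + 1))) := by ring
      _ ≤ 2 * (c + 4) * (3 * P) := Nat.mul_le_mul_left _ h4
      _ = (6 * (c + 4)) * P := by ring
      _ ≤ 8 * (c + 8) * P := Nat.mul_le_mul_right _ (by omega)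
  · refine pow_le_capn (b := w) hqw ?_
    calc w * D = D * w := Nat.mul_comm _ _
      _ ≤ P := hspec
      _ ≤ 8 * (c + 8) * P := Nat.le_mul_of_pos_left _ (by positivity)
  · refine pow_le_capn (b := w * g) ?_ ?_
    · calc q ^ g ≤ (2 ^ w) ^ g := Nat.pow_le_pow_left hqw _
        _ = 2 ^ (w * g) := by rw [← pow_mul]
    · calc w * g * (2 ^ d * (A + 1)) = w * (2 ^ d * (A * g)) + 2 ^ d * (g * w) := by ring
        _ ≤ w * (2 ^ d * (2 * K) ^ d) + (n + 1) * (n + 1) :=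
          Nat.add_le_add (Nat.mul_le_mul_left _ (Nat.mul_le_mul_left _ hAg))
            (Nat.mul_le_mul h2d hgw)
        _ = D * w + (n + 1) * (n + 1) := by rw [← hFB]; ring
        _ ≤ 2 * P := by omega
        _ ≤ 8 * (c + 8) * P := Nat.mul_le_mul_right _ (by omega)
  · have h3 : (2 ^ d + 1) * np (2 ^ d * (A + 1) * q ^ g + 2) ≤ 2 ^ (c * n + n + d + 5) := by
      have h4 : 2 ^ d + 1 ≤ 2 ^ (d + 1) := by
        rw [pow_succ]
        omega
      calc (2 ^ d + 1) * np (2 ^ d * (A + 1) * q ^ g + 2)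
          ≤ 2 ^ (d + 1) * 2 ^ (c * n + n + 4) := Nat.mul_le_mul h4 hpb
        _ = 2 ^ (c * n + n + d + 5) := by
            rw [← pow_add]
            congr 1
            ring
    refine pow_le_capn h3 ?_
    have h5 : hh c n * (n + 1) ≤ P := Nat.div_mul_le_self _ _
    calc (c * n + n + d + 5) * hh c n ≤ ((c + 7) * (n + 1)) * hh c n := by
          refine Nat.mul_le_mul_right _ (by nlinarith)
      _ = (c + 7) * (hh c n * (n + 1)) := by ring
      _ ≤ (c + 7) * P := Nat.mul_le_mul_left _ h5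
      _ ≤ 8 * (c + 8) * P := Nat.mul_le_mul_right _ (by omega)
  · refine two_pow_le_capn ?_
    rw [← hP]
    nlinarith
  · refine two_pow_le_capn ?_
    rw [← hP]
    nlinarith

theorem ot_zero_or_one (v N p κ d h q M g G X Z : ℕ) :
    ot v N p κ d h q M g G X Z = 0 ∨ ot v N p κ d h q M g G X Z = 1 := by
  unfold ot
  split_ifs <;> simp

theorem sm_zero_or_one (v N c n e Z r : ℕ) : sm v N c n e Z r = 0 ∨ sm v N c n e Z r = 1 :=
  ot_zero_or_one _ _ _ _ _ _ _ _ _ _ _ _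

theorem sm_spec_cap {c d q M : ℕ} (hc : 1 ≤ c) (hd : 1 ≤ d) (hq : 5 ≤ q) :
    ∃ n₀, ∀ n ≥ n₀, ∀ e : ℕ,
    (Nat.unpair (Nat.unpair e).1).1 = d → (Nat.unpair (Nat.unpair (Nat.unpair e).1).2).1 = q →
    (Nat.unpair (Nat.unpair (Nat.unpair e).1).2).2 = M → ∀ v, ∀ Z < capn c n, ∀ r < 2 ^ n,
      sm v (capn c n) c n e Z r =
        if nvd d q M (nconf d q M (2 ^ n + r) Z (tm c d n) 0) = v then 1 else 0 := by
  refine ⟨max (max 12 (4 ^ d)) (max (2 ^ q) (M + 1)), fun n hn e he1 he2 he3 v Z hZ r hr => ?_⟩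
  have hn12 : 12 ≤ n := (le_max_left _ _).trans ((le_max_left _ _).trans hn)
  have hn4 : 4 ^ d ≤ n := (le_max_right _ _).trans ((le_max_left _ _).trans hn)
  have hqn : q ≤ Nat.log 2 n :=
    Nat.le_log_of_pow_le (by norm_num) (((le_max_left _ _).trans (le_max_right _ _)).trans hn)
  have hMn : M < n := ((le_max_right _ _).trans (le_max_right _ _)).trans hn
  obtain ⟨hp, hp1, hQp, hκ, hg, hG, hN1, hN2, hN2', hN3, hN4, hN5⟩ :=
    params hc hd hn12 (by omega) hq hqn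
  have hnn : n < 2 ^ n := Nat.lt_two_pow_self
  have hn1 : 2 ^ n + 2 ^ n ≤ capn c n := by
    rw [pow_succ] at hN4
    omega
  unfold sm
  rw [he1, he2, he3]
  exact out_eq hp hp1 hQp hκ hd hq hg hG hN1 hN2 hN2' hN3 (by omega) (by omega) hZ

theorem sm_spec {c d q M : ℕ} (hc : 1 ≤ c) (hd : 1 ≤ d) (hq : 5 ≤ q) : ∃ n₀, ∀ n ≥ n₀, ∀ e : ℕ,
    (Nat.unpair (Nat.unpair e).1).1 = d → (Nat.unpair (Nat.unpair (Nat.unpair e).1).2).1 = q →
    (Nat.unpair (Nat.unpair (Nat.unpair e).1).2).2 = M → ∀ v, ∀ Z < 2 ^ 2 ^ n, ∀ r < 2 ^ n,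
      sm v (capn c n) c n e Z r =
        if nvd d q M (nconf d q M (2 ^ n + r) Z (tm c d n) 0) = v then 1 else 0 := by
  obtain ⟨n₀, h⟩ := sm_spec_cap (M := M) hc hd hq
  refine ⟨n₀, fun n hn e he1 he2 he3 v Z hZ r hr => h n hn e he1 he2 he3 v Z ?_ r hr⟩
  refine hZ.trans_le (two_pow_le_capn ?_)
  have h1 : 2 ^ n ≤ 2 ^ (c * n) :=
    Nat.pow_le_pow_right (by norm_num) (Nat.le_mul_of_pos_left n hc)
  nlinarith

/-- every automaton is simulated, with arbitrarily large codes `e` -/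
theorem sim (c : ℕ) (hc : 1 ≤ c) {d : ℕ} [NeZero d] (A : Aut d) : ∃ n₀, ∀ B, ∃ e ≥ B,
    ∀ n ≥ n₀, ∀ w α : List Bool, w.length = n → α.length < 2 ^ n →
      (sm 1 (capn c n) c n e (num α) (num w - 2 ^ n) = 1 ↔
        ∃ t ≤ tm c d n, A.Answers w α t false) ∧
      (sm 2 (capn c n) c n e (num α) (num w - 2 ^ n) = 1 ↔
        ∃ t ≤ tm c d n, A.Answers w α t true) := by
  have hd : 1 ≤ d := Nat.one_le_iff_ne_zero.2 (NeZero.ne d)
  obtain ⟨q, M, hq, hcode⟩ := code A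
  obtain ⟨n₀, hn₀⟩ := sm_spec (M := M) hc hd hq
  refine ⟨n₀, fun B => ?_⟩
  refine ⟨Nat.pair (Nat.pair d (Nat.pair q M)) B, Nat.right_le_pair _ _, fun n hn w α hw hα => ?_⟩
  have hwb := Pool.Agent.helper12.SP.num_bounds w
  have hαb := Pool.Agent.helper12.SP.num_bounds α
  rw [hw, pow_succ] at hwb
  have hZ : num α < 2 ^ 2 ^ n := hαb.2.trans_le (Nat.pow_le_pow_right (by norm_num) (by omega))
  have hwn : 2 ^ n + (num w - 2 ^ n) = num w := by omega
  have key := hn₀ n hn (Nat.pair (Nat.pair d (Nat.pair q M)) B) (by simp) (by simp) (by simp)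
  have k1 := key 1 (num α) hZ (num w - 2 ^ n) (by omega)
  have k2 := key 2 (num α) hZ (num w - 2 ^ n) (by omega)
  rw [hwn] at k1 k2
  constructor
  · rw [k1, ← (hcode w α (tm c d n)).1]
    split_ifs with h <;> simp [h]
  · rw [k2, ← (hcode w α (tm c d n)).2]
    split_ifs with h <;> simp [h]

end Pool.Agent.helper39.MESH
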