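import Pool.Agent.helper39.MESH.CmpS
import Pool.Agent.helper39.MESH.Par
import Pool.Agent.helper12.SP.K3
import Pool.Agent.helper73.SP.B

/-!
# General facts, and the definitions of the languages
-/

set_option autoImplicit false

namespace Pool.Agent.helper39.MESH

open Pool.Agent.helper12.SP (TM DSPACE Ctx Pb Cmp CmpP num pw dg pm up np capN capn num_bounds
  num_inj DSPACE_mono dspace_of_cmp exists_hard pw_eq two_pow_le_capN)

/-! ### General facts -/

theorem Answers_unique {d : ℕ} [NeZero d] (A : Aut d) {w α : List Bool} {t t' : ℕ} {b b' : Bool}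
    (h : A.Answers w α t b) (h' : A.Answers w α t' b') : t = t' ∧ b = b' := by
  obtain ⟨h1, h2⟩ := h
  obtain ⟨h3, h4⟩ := h'
  have htt : t = t' := by
    rcases lt_trichotomy t t' with h5 | h5 | h5
    · rw [h4 t h5] at h1
      exact absurd h1 (by simp)
    · exact h5
    · rw [h2 t' h5] at h3
      exact absurd h3 (by simp)
  subst htt
  rw [h1] at h3
  exact ⟨rfl, Option.some.inj h3⟩

theorem capN_eq (c n r : ℕ) (hr : r < 2 ^ n) : Nat.log 2 (2 ^ n + r) = n ∧
    capN c (2 ^ n + r) = capn c n ∧ 2 ^ n + r - 2 ^ n = r := by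
  have h1 : Nat.log 2 (2 ^ n + r) = n := by
    rw [Nat.log_eq_iff (Or.inr ⟨by norm_num, by positivity⟩)]
    rw [pow_succ]
    omega
  refine ⟨h1, ?_, by omega⟩
  unfold capN
  rw [h1]
  rfl

/-- the language with the characteristic function `f` is in `DSPACE (C * 2 ^ (c n))` -/
theorem dspace_capN {c : ℕ} (hc : 1 ≤ c) {f : ℕ → ℕ} (hf : Cmp (capN c) f) :
    ∃ C : ℕ, {w : List Bool | f (num w) ≠ 0} ∈ DSPACE (fun n => C * 2 ^ (c * n)) := by
  obtain ⟨C, hC⟩ := dspace_of_cmp hf (fun n => (8 * (c + 8)) * 2 ^ (c * n)) (fun X _ => le_rfl)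
  refine ⟨C * (8 * (c + 8) + 1), DSPACE_mono (fun n => ?_) hC⟩
  have h1 : n + 1 ≤ 2 ^ (c * n) := by
    have h1 : 2 ^ n ≤ 2 ^ (c * n) :=
      Nat.pow_le_pow_right (by norm_num) (Nat.le_mul_of_pos_left n hc)
    have h2 : n + 1 ≤ 2 ^ n := Nat.lt_two_pow_self
    omega
  calc C * (8 * (c + 8) * 2 ^ (c * n) + n + 1)
      ≤ C * (8 * (c + 8) * 2 ^ (c * n) + 2 ^ (c * n)) := Nat.mul_le_mul_left _ (by omega)
    _ = C * (8 * (c + 8) + 1) * 2 ^ (c * n) := by ring

theorem cmp_X (c : ℕ) (hc : 1 ≤ c) : Cmp (capN c) (fun X : ℕ => X) := by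
  refine Cmp.var (Pool.Agent.helper12.SP.Pb.ofLe fun X => ?_)
  have h1 : X < 2 ^ (Nat.log 2 X + 1) := Nat.lt_pow_succ_log_self (by norm_num) X
  exact h1.le.trans (two_pow_le_capN c X _ ((Pool.Agent.helper12.SP.log_lt c X hc).trans
    (Pool.Agent.helper12.SP.le_eight c _)))

theorem cmp_capN (c : ℕ) (hc : 1 ≤ c) : Cmp (capN c) (fun X : ℕ => capN c X) := by
  have hn : Cmp (capN c) (fun X : ℕ => Nat.log 2 X) := Cmp.log (cmp_X c hc)
  have hcn : Cmp (capN c) (fun X : ℕ => 2 ^ (c * Nat.log 2 X)) := by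
    refine Cmp.two_pow (Cmp.mul (Cmp.const c) hn) (Pool.Agent.helper12.SP.Pb.ofLe fun X => ?_)
    exact two_pow_le_capN c X _ (Nat.lt_two_pow_self.le.trans
      (Pool.Agent.helper12.SP.le_eight c _))
  exact Cmp.two_pow (Cmp.mul (Cmp.const _) hcn) Pb.self

theorem cmp_rest (c : ℕ) (hc : 1 ≤ c) : Cmp (capN c) (fun X : ℕ => X - 2 ^ Nat.log 2 X) := by
  refine Cmp.sub (cmp_X c hc) (Cmp.two_pow (Cmp.log (cmp_X c hc))
    (Pool.Agent.helper12.SP.Pb.ofLe fun X => ?_))
  refine two_pow_le_capN c X _ (le_trans ?_ (Pool.Agent.helper12.SP.le_eight c _))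
  have := Pool.Agent.helper12.SP.log_lt c X hc
  omega

/-! ### The language -/

/-- the number of inputs of length `n` on which the automaton `e` with advice `Z` gives in time the
answer prescribed by the bits of `Λ` -/
def ag (N c n e Z Λ : ℕ) : ℕ :=
  ∑ r ∈ Finset.range (pw N 2 n), if sm 1 N c n e Z r + dg N 2 Λ r = 1 then 1 else 0

/-- the bits of `Λ` are hard for all automata `e` with advice `Z` -/
def good (N c n Λ : ℕ) : Prop :=
  ∀ e < n, ∀ Z < pw N 2 (pw N 2 n + 1 - 2 * n),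
    ag N c n e Z Λ < pw N 2 n ∧
      (2 * ag N c n e Z Λ - pw N 2 n) ^ 2 ≤ 2 * pw N 2 n * (Nat.log 2 Z + 2 * n)

instance (N c n : ℕ) : DecidablePred (good N c n) := by
  intro Λ
  unfold good
  infer_instance

/-- the characteristic function of the language -/
def hard (c X : ℕ) : ℕ :=
  dg (capN c X) 2 (lst (good (capN c X) c (Nat.log 2 X))
    (pw (capN c X) 2 (pw (capN c X) 2 (Nat.log 2 X)))) (X - 2 ^ Nat.log 2 X)

/-! ### The language for errorless automata -/

/-- the answer of the automaton `e` with advice `Z` on the input number `r`: `1` no, `2` yes, `0`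
none in time -/
def ev (N c n e Z r : ℕ) : ℕ :=
  if sm 1 N c n e Z r = 1 then 1 else if sm 2 N c n e Z r = 1 then 2 else 0

/-- the number of answered inputs -/
def an (N c n e Z : ℕ) : ℕ :=
  ∑ r ∈ Finset.range (pw N 2 n), if ev N c n e Z r = 0 then 0 else 1

/-- the bound for the number of answers -/
def be (n Z : ℕ) : ℕ := Nat.log 2 Z + 2 * Nat.log 2 (Nat.log 2 Z + 1) + Nat.log 2 n + 4

/-- every automaton with advice which answers too many inputs gives a wrong answer for `Λ` -/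
def fool (N c n Λ : ℕ) : Prop :=
  ∀ e < n, ∀ Z < pw N 2 (pw N 2 n), an N c n e Z ≤ be n Z ∨
    ∃ r < pw N 2 n, ev N c n e Z r ≠ 0 ∧ ev N c n e Z r ≠ 1 + dg N 2 Λ r

instance (N c n : ℕ) : DecidablePred (fool N c n) := by
  intro Λ
  unfold fool
  infer_instance

/-- the characteristic function of the language -/
def herr (c X : ℕ) : ℕ :=
  dg (capN c X) 2 (lst (fool (capN c X) c (Nat.log 2 X))
    (pw (capN c X) 2 (pw (capN c X) 2 (Nat.log 2 X)))) (X - 2 ^ Nat.log 2 X)

/-! ### The immune language -/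

/-- the answer of the automaton `e` without advice on the input `Y` -/
def evY (c Y e : ℕ) : ℕ := ev (capN c Y) c (Nat.log 2 Y) e 1 (Y - 2 ^ Nat.log 2 Y)

/-- the least automaton which is not cancelled (is not in the set coded by `m`) and answers `Y` -/
def le1 (c Y m : ℕ) : ℕ :=
  lst (fun e => dg (capN c Y) 2 m e = 0 ∧ evY c Y e ≠ 0) (Nat.log 2 Y)

/-- cancel it -/
def um (c Y m : ℕ) : ℕ :=
  if le1 c Y m < Nat.log 2 Y then m + pw (capN c Y) 2 (le1 c Y m) else m

/-- the set of the automata cancelled before the input `X` -/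
def mk (c X : ℕ) : ℕ := Nat.rec 0 (fun Y ih => um c Y ih) X

/-- the characteristic function of the language -/
def imm (c X : ℕ) : ℕ :=
  if le1 c X (mk c X) < Nat.log 2 X ∧ evY c X (le1 c X (mk c X)) = 1 then 1 else 0

end Pool.Agent.helper39.MESH
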