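import Pool.Agent.helper39.MESH.Defs
import Pool.Agent.helper74.SP.F

/-!
# Module CAT: the catalytic recursion with `F` children as a sequence of instructions
-/

set_option autoImplicit false

namespace Pool.Agent.helper39.MESH

open Pool.Agent.helper12.SP (TM DSPACE Ctx Pb Cmp num pw dg pm up np)
open Pool.Agent.helper12.SP (runF runF_zero runF_succ runF_add runF_congr runF_blocks runF_eq
  div_block mod_block)

namespace CatX

variable {V : Type} [AddCommGroup V]

/-! ### Banks -/

theorem bk {F o e : ℕ} (he : e ≤ F) : (o + 1 + e) % (F + 1) =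
    if o % (F + 1) + 1 + e < F + 1 then o % (F + 1) + 1 + e else o % (F + 1) + 1 + e - (F + 1) := by
  have h2 : o % (F + 1) < F + 1 := Nat.mod_lt o (Nat.succ_pos F)
  have h : (o + 1 + e) % (F + 1) = (o % (F + 1) + 1 + e) % (F + 1) := by
    rw [Nat.add_assoc, Nat.add_assoc, Nat.mod_add_mod]
  rw [h]
  split_ifs with h1
  · exact Nat.mod_eq_of_lt h1
  · rw [Nat.mod_eq_sub_mod (by omega), Nat.mod_eq_of_lt (by omega)]

theorem bk_ne {F o e : ℕ} (he : e < F) : (o + 1 + e) % (F + 1) ≠ o % (F + 1) := by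
  have h2 : o % (F + 1) < F + 1 := Nat.mod_lt o (Nat.succ_pos F)
  rw [bk he.le]
  split_ifs <;> omega

theorem bk_inj {F o e e' : ℕ} (he : e ≤ F) (he' : e' ≤ F)
    (h : (o + 1 + e) % (F + 1) = (o + 1 + e') % (F + 1)) : e = e' := by
  have h2 : o % (F + 1) < F + 1 := Nat.mod_lt o (Nat.succ_pos F)
  rw [bk he, bk he'] at h
  split_ifs at h <;> omega

theorem bk_surj {F o k : ℕ} (hk : k < F + 1) (hne : k ≠ o % (F + 1)) :
    ∃ e < F, (o + 1 + e) % (F + 1) = k := by
  have h2 : o % (F + 1) < F + 1 := Nat.mod_lt o (Nat.succ_pos F)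
  rcases Nat.lt_or_ge (o % (F + 1)) k with h | h
  · refine ⟨k - 1 - o % (F + 1), by omega, ?_⟩
    rw [bk (by omega)]
    split_ifs <;> omega
  · refine ⟨k + F - o % (F + 1), by omega, ?_⟩
    rw [bk (by omega)]
    split_ifs <;> omega

/-! ### The recursive program -/

/-- the instruction number `τ` of the program for the node `c` at the level `l` with output bank
`o` -/
def stpF (N F A : ℕ) (v0 : (ℕ → ℕ) → V) (loc : ℕ → (ℕ → V) → V) :
    ℕ → (ℕ → ℕ) → ℕ → ℕ → (ℕ → V) → (ℕ → V)
  | 0, c, o, _, S => Function.update S (o % (F + 1)) (S (o % (F + 1)) + v0 c)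
  | l + 1, c, o, τ, S =>
    if τ / A ^ l % A % (F + 1) = F then
      if τ % A ^ l = 0 then
        Function.update S (o % (F + 1)) (S (o % (F + 1)) +
          loc (τ / A ^ l % A / (F + 1) + 1) (fun e => S ((o + 1 + e) % (F + 1))))
      else S
    else stpF N F A v0 loc l (mv N (τ / A ^ l % A % (F + 1)) c)
      (o + 1 + τ / A ^ l % A % (F + 1)) τ S

/-- `j` calls of the outer loop -/
theorem calls (F o : ℕ) (w : ℕ → V) (G : ℕ → (ℕ → V) → (ℕ → V)) (a : ℕ)
    (G0 : ∀ e < F, ∀ S, G (a + e) S = Function.update S ((o + 1 + e) % (F + 1))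
      (S ((o + 1 + e) % (F + 1)) + w e)) (T : ℕ → V) (j : ℕ) : j ≤ F →
    runF G a j T (o % (F + 1)) = T (o % (F + 1)) ∧
    (∀ e < F, runF G a j T ((o + 1 + e) % (F + 1)) =
      T ((o + 1 + e) % (F + 1)) + if e < j then w e else 0) ∧
    (∀ k, F + 1 ≤ k → runF G a j T k = T k) := by
  induction j with
  | zero =>
    intro _
    refine ⟨rfl, fun e _ => ?_, fun k _ => rfl⟩
    rw [if_neg (Nat.not_lt_zero e), add_zero, runF_zero]
  | succ j ih =>
    intro hj
    obtain ⟨h1, h2, h3⟩ := ih (by omega)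
    have hjF : j < F := by omega
    have hlt : (o + 1 + j) % (F + 1) < F + 1 := Nat.mod_lt _ (Nat.succ_pos F)
    rw [runF_succ, G0 j hjF]
    refine ⟨?_, fun e he => ?_, fun k hk => ?_⟩
    · rw [Function.update_of_ne (Ne.symm (bk_ne hjF)), h1]
    · by_cases hej : e = j
      · subst hej
        rw [Function.update_self, h2 e he, if_neg (lt_irrefl e), add_zero,
          if_pos (Nat.lt_succ_self e)]
      · rw [Function.update_of_ne (fun h => hej (bk_inj he.le hjF.le h)), h2 e he]
        by_cases hlt2 : e < j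
        · rw [if_pos hlt2, if_pos (by omega)]
        · rw [if_neg hlt2, if_neg (by omega)]
    · rw [Function.update_of_ne (by omega), h3 k hk]

/-- `n` rounds of the outer loop -/
theorem rounds (F o : ℕ) (w : ℕ → V) (L : ℕ → (ℕ → V) → V)
    (hL : ∀ (m : ℕ) (Y Y' : ℕ → V), (∀ e < F, Y e = Y' e) → L m Y = L m Y')
    (G : ℕ → (ℕ → V) → (ℕ → V))
    (G0 : ∀ m, ∀ e < F, ∀ S, G ((F + 1) * m + e) S = Function.update S ((o + 1 + e) % (F + 1))
      (S ((o + 1 + e) % (F + 1)) + w e))
    (G1 : ∀ m S, G ((F + 1) * m + F) S = Function.update S (o % (F + 1)) (S (o % (F + 1)) +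
      L (m + 1) (fun e => S ((o + 1 + e) % (F + 1))))) (S : ℕ → V) (n : ℕ) :
    runF G 0 ((F + 1) * n) S (o % (F + 1)) = S (o % (F + 1)) + ∑ m ∈ Finset.range n,
      L (m + 1) (fun e => S ((o + 1 + e) % (F + 1)) + (m + 1) • w e) ∧
    (∀ e < F, runF G 0 ((F + 1) * n) S ((o + 1 + e) % (F + 1)) =
      S ((o + 1 + e) % (F + 1)) + n • w e) ∧
    (∀ k, F + 1 ≤ k → runF G 0 ((F + 1) * n) S k = S k) := by
  induction n with
  | zero => simp [runF_zero]
  | succ n ih =>
    obtain ⟨h1, h2, h3⟩ := ih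
    have e1 : (F + 1) * (n + 1) = (F + 1) * n + F + 1 := by ring
    have e2 : runF G 0 ((F + 1) * (n + 1)) S =
        G ((F + 1) * n + F) (runF G ((F + 1) * n) F (runF G 0 ((F + 1) * n) S)) := by
      rw [e1, runF_succ, runF_add, Nat.zero_add, Nat.zero_add]
    obtain ⟨c1, c2, c3⟩ := calls F o w G ((F + 1) * n) (G0 n) (runF G 0 ((F + 1) * n) S) F le_rfl
    rw [e2, G1]
    have e3 : ∀ e < F, runF G ((F + 1) * n) F (runF G 0 ((F + 1) * n) S)
        ((o + 1 + e) % (F + 1)) = S ((o + 1 + e) % (F + 1)) + (n + 1) • w e := by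
      intro e he
      rw [c2 e he, if_pos he, h2 e he, succ_nsmul, add_assoc]
    refine ⟨?_, fun e he => ?_, fun k hk => ?_⟩
    · rw [Function.update_self, c1, h1, Finset.sum_range_succ, add_assoc]
      congr 2
      exact hL _ _ _ e3
    · rw [Function.update_of_ne (bk_ne he), e3 e he]
    · have hlt : o % (F + 1) < F + 1 := Nat.mod_lt _ (Nat.succ_pos F)
      rw [Function.update_of_ne (by omega), c3 k hk, h3 k hk]

/-- the program for a node adds the value of the node to the output bank -/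
theorem run_stpF (N F p h : ℕ) (hp : 1 ≤ p) (hV : ∀ v : V, p • v = 0)
    (val : ℕ → (ℕ → ℕ) → V) (loc : ℕ → (ℕ → V) → V)
    (hloc : ∀ (m : ℕ) (Y Y' : ℕ → V), (∀ e < F, Y e = Y' e) → loc m Y = loc m Y')
    (H : ∀ l < h, ∀ c : ℕ → ℕ, ∀ R : ℕ → V, ∑ m ∈ Finset.range p,
      loc (m + 1) (fun e => R e + (m + 1) • val l (mv N e c)) = val (l + 1) c)
    (l : ℕ) : l ≤ h → ∀ (c : ℕ → ℕ) (o k : ℕ) (S : ℕ → V),
    runF (stpF N F ((F + 1) * p) (val 0) loc l c o) (k * ((F + 1) * p) ^ l)
      (((F + 1) * p) ^ l) S =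
      Function.update S (o % (F + 1)) (S (o % (F + 1)) + val l c) := by
  have hA : 1 ≤ (F + 1) * p := Nat.mul_pos (Nat.succ_pos F) hp
  obtain ⟨A, hAd⟩ : ∃ A, A = (F + 1) * p := ⟨_, rfl⟩
  rw [← hAd] at hA ⊢
  induction l with
  | zero =>
    intro _ c o k S
    rw [pow_zero, show (1 : ℕ) = 0 + 1 from rfl, runF_succ, runF_zero, stpF]
  | succ l ih =>
    intro hl c o k S
    have ih' := ih (by omega)
    have hpos : 0 < A ^ l := pow_pos (by omega) l
    have e1 : A ^ (l + 1) = A * A ^ l := by ring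
    conv_lhs => rw [show runF (stpF N F A (val 0) loc (l + 1) c o) (k * A ^ (l + 1))
      (A ^ (l + 1)) S = runF (stpF N F A (val 0) loc (l + 1) c o) (k * A ^ (l + 1))
      (A * A ^ l) S from by rw [← e1]]
    rw [runF_blocks]
    -- the effect of one block
    let G : ℕ → (ℕ → V) → (ℕ → V) := fun d S =>
      if d % (F + 1) = F then Function.update S (o % (F + 1)) (S (o % (F + 1)) +
        loc (d / (F + 1) + 1) (fun e => S ((o + 1 + e) % (F + 1))))
      else Function.update S ((o + 1 + d % (F + 1)) % (F + 1))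
        (S ((o + 1 + d % (F + 1)) % (F + 1)) + val l (mv N (d % (F + 1)) c))
    have hG : ∀ d < A, ∀ S, runF (stpF N F A (val 0) loc (l + 1) c o)
        (k * A ^ (l + 1) + d * A ^ l) (A ^ l) S = G d S := by
      intro d hd S
      by_cases hd2 : d % (F + 1) = F
      · simp only [G, if_pos hd2]
        obtain ⟨n, hn⟩ : ∃ n, A ^ l = n + 1 := ⟨A ^ l - 1, by omega⟩
        have hstep : ∀ i < A ^ l, ∀ S', stpF N F A (val 0) loc (l + 1) c o
            (k * A ^ (l + 1) + d * A ^ l + i) S' = if i = 0 then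
              Function.update S' (o % (F + 1)) (S' (o % (F + 1)) +
                loc (d / (F + 1) + 1) (fun e => S' ((o + 1 + e) % (F + 1)))) else S' := by
          intro i hi S'
          rw [stpF, div_block _ _ _ _ _ hA hd hi, mod_block _ _ _ _ _ hi, if_pos hd2]
        have hind : ∀ n' < A ^ l, runF (stpF N F A (val 0) loc (l + 1) c o)
            (k * A ^ (l + 1) + d * A ^ l) (n' + 1) S =
              Function.update S (o % (F + 1)) (S (o % (F + 1)) +
                loc (d / (F + 1) + 1) (fun e => S ((o + 1 + e) % (F + 1)))) := by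
          intro n'
          induction n' with
          | zero =>
            intro hn'
            rw [runF_succ, runF_zero, hstep 0 hn', if_pos rfl]
          | succ n' ihn =>
            intro hn'
            rw [runF_succ, ihn (by omega), hstep (n' + 1) hn', if_neg (by omega)]
        conv_lhs => rw [show runF (stpF N F A (val 0) loc (l + 1) c o)
          (k * A ^ (l + 1) + d * A ^ l) (A ^ l) S =
          runF (stpF N F A (val 0) loc (l + 1) c o)
          (k * A ^ (l + 1) + d * A ^ l) (n + 1) S from by rw [← hn]]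
        exact hind n (by omega)
      · simp only [G, if_neg hd2]
        rw [← ih' (mv N (d % (F + 1)) c) (o + 1 + d % (F + 1)) (k * A + d) S,
          show (k * A + d) * A ^ l = k * A ^ (l + 1) + d * A ^ l by ring]
        apply runF_congr
        intro i hi S'
        rw [stpF, div_block _ _ _ _ _ hA hd hi, if_neg hd2]
    rw [runF_congr (G := G) (fun d hd S' => by rw [Nat.zero_add]; exact hG d hd S')]
    obtain ⟨r1, r2, r3⟩ := rounds F o (fun e => val l (mv N e c)) loc hloc G (fun m e he S' => by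
      have h3 : ((F + 1) * m + e) % (F + 1) = e := by
        rw [Nat.mul_add_mod, Nat.mod_eq_of_lt (by omega)]
      simp only [G, h3]
      rw [if_neg (by omega)]) (fun m S' => by
      have h3 : ((F + 1) * m + F) % (F + 1) = F := by
        rw [Nat.mul_add_mod, Nat.mod_eq_of_lt (by omega)]
      have h4 : ((F + 1) * m + F) / (F + 1) = m := by
        rw [Nat.mul_add_div (Nat.succ_pos F), Nat.div_eq_of_lt (Nat.lt_succ_self F), add_zero]
      simp only [G, h3, h4]
      rw [if_pos trivial]) S p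
    rw [← hAd] at r1 r2 r3
    funext k'
    by_cases hk : k' = o % (F + 1)
    · subst hk
      rw [r1, Function.update_self, H l (by omega) c (fun e => S ((o + 1 + e) % (F + 1)))]
    · rw [Function.update_of_ne hk]
      rcases Nat.lt_or_ge k' (F + 1) with hlt | hge
      · obtain ⟨e, he, rfl⟩ := bk_surj hlt hk
        rw [r2 e he, hV, add_zero]
      · exact r3 k' hge

/-! ### The instructions -/

theorem tt_succ (N F A h τ i : ℕ) : tt N F A h τ (i + 1) =
    if tt N F A h τ i = i ∧ sl N F A τ (h - 1 - i) ≠ F then tt N F A h τ i + 1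
    else tt N F A h τ i := rfl

/-- `tt` is the number of calls before the first digit which is no call -/
theorem tt_spec (N F A h τ i : ℕ) : tt N F A h τ i ≤ i ∧
    (∀ j < tt N F A h τ i, sl N F A τ (h - 1 - j) ≠ F) ∧
    (tt N F A h τ i < i → sl N F A τ (h - 1 - tt N F A h τ i) = F) := by
  induction i with
  | zero =>
    have h0 : tt N F A h τ 0 = 0 := rfl
    rw [h0]
    exact ⟨le_rfl, fun j hj => absurd hj (Nat.not_lt_zero _), fun h => absurd h (lt_irrefl 0)⟩
  | succ i ih =>
    obtain ⟨h1, h2, h3⟩ := ih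
    rw [tt_succ]
    split_ifs with hc
    · refine ⟨by omega, fun j hj => ?_, fun hlt => by omega⟩
      rcases Nat.lt_or_ge j (tt N F A h τ i) with hj' | hj'
      · exact h2 j hj'
      · have : j = i := by omega
        subst this
        exact hc.2
    · refine ⟨by omega, h2, fun _ => ?_⟩
      rcases Nat.lt_or_ge (tt N F A h τ i) i with hlt | hge
      · exact h3 hlt
      · have heq : tt N F A h τ i = i := by omega
        by_contra hne
        apply hc
        refine ⟨heq, ?_⟩
        rw [heq] at hne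
        exact hne

theorem pw_eq {N A h r : ℕ} (hN : A ^ h ≤ N) (hA : 1 ≤ A) (hr : r ≤ h) : pw N A r = A ^ r := by
  unfold pw
  apply min_eq_left
  exact le_trans (Nat.pow_le_pow_right (by omega) hr) hN

theorem walk (N F A h : ℕ) (hN : A ^ h ≤ N) (hA : 1 ≤ A) (v0 : (ℕ → ℕ) → V)
    (loc : ℕ → (ℕ → V) → V) (τ : ℕ) (S : ℕ → V) (i : ℕ) : i ≤ h →
    (∀ j < i, sl N F A τ (h - 1 - j) ≠ F) →
    stpF N F A v0 loc h (fun _ => 0) 0 τ S =
      stpF N F A v0 loc (h - i) (cc N F A h τ i) (i + cs N F A h τ i) τ S := by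
  induction i with
  | zero =>
    intro _ _
    have e : cc N F A h τ 0 = fun _ => 0 := by funext b; simp [cc]
    rw [e]
    simp [cs]
  | succ i ih =>
    intro hi hsl
    rw [ih (by omega) (fun j hj => hsl j (by omega))]
    have e : h - i = (h - 1 - i) + 1 := by omega
    have hpw : pw N A (h - 1 - i) = A ^ (h - 1 - i) := pw_eq hN hA (by omega)
    have hs : τ / A ^ (h - 1 - i) % A % (F + 1) = sl N F A τ (h - 1 - i) := by
      rw [sl, hpw]
    rw [e, stpF, hs, if_neg (hsl i (Nat.lt_succ_self i))]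
    have hcs : cs N F A h τ (i + 1) = cs N F A h τ i + sl N F A τ (h - 1 - i) := by
      rw [cs, Finset.sum_range_succ]
      rfl
    have hcc : cc N F A h τ (i + 1) = mv N (sl N F A τ (h - 1 - i)) (cc N F A h τ i) := by
      funext b
      rw [cc, Finset.sum_range_succ]
      rfl
    rw [hcs, hcc]
    have e2 : h - (i + 1) = h - 1 - i := by omega
    rw [e2]
    congr 1
    ring

theorem ast_eq (N F A h : ℕ) (hN : A ^ h ≤ N) (hA : 1 ≤ A) (v0 : (ℕ → ℕ) → V)
    (loc : ℕ → (ℕ → V) → V) (τ : ℕ) (S : ℕ → V) :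
    ast N F A h v0 loc τ S = stpF N F A v0 loc h (fun _ => 0) 0 τ S := by
  obtain ⟨h1, h2, h3⟩ := tt_spec N F A h τ h
  rw [walk N F A h hN hA v0 loc τ S _ h1 h2]
  unfold ast
  split_ifs with hc hm
  · rw [hc, Nat.sub_self, stpF]
  · have hlt : tt N F A h τ h < h := lt_of_le_of_ne h1 hc
    have e : h - tt N F A h τ h = (h - 1 - tt N F A h τ h) + 1 := by omega
    have hpw : pw N A (h - 1 - tt N F A h τ h) = A ^ (h - 1 - tt N F A h τ h) :=
      pw_eq hN hA (by omega)
    have hs : τ / A ^ (h - 1 - tt N F A h τ h) % A % (F + 1) = F := by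
      have := h3 hlt
      rwa [sl, hpw] at this
    rw [e, stpF, if_pos hs, if_pos (by rwa [hpw] at hm), hpw]
    have e5 : ∀ x e : ℕ, (x % (F + 1) + 1 + e) % (F + 1) = (x + 1 + e) % (F + 1) := by
      intro x e
      rw [Nat.add_assoc, Nat.add_assoc, Nat.mod_add_mod]
    simp only [e5]
  · have hlt : tt N F A h τ h < h := lt_of_le_of_ne h1 hc
    have e : h - tt N F A h τ h = (h - 1 - tt N F A h τ h) + 1 := by omega
    have hpw : pw N A (h - 1 - tt N F A h τ h) = A ^ (h - 1 - tt N F A h τ h) :=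
      pw_eq hN hA (by omega)
    have hs : τ / A ^ (h - 1 - tt N F A h τ h) % A % (F + 1) = F := by
      have := h3 hlt
      rwa [sl, hpw] at this
    rw [e, stpF, if_pos hs, if_neg (by rwa [hpw] at hm)]

end CatX

open CatX in
theorem cat {V : Type} [AddCommGroup V] (N F p h : ℕ) (hp : 1 ≤ p) (hF : 1 ≤ F)
    (hN : ((F + 1) * p) ^ h ≤ N) (hV : ∀ v : V, p • v = 0) (val : ℕ → (ℕ → ℕ) → V)
    (loc : ℕ → (ℕ → V) → V)
    (hloc : ∀ (m : ℕ) (Y Y' : ℕ → V), (∀ e < F, Y e = Y' e) → loc m Y = loc m Y')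
    (H : ∀ l < h, ∀ c : ℕ → ℕ, ∀ R : ℕ → V, ∑ m ∈ Finset.range p,
      loc (m + 1) (fun e => R e + (m + 1) • val l (mv N e c)) = val (l + 1) c)
    (S : ℕ → ℕ → V) (h0 : ∀ k, S 0 k = 0)
    (hS : ∀ τ < ((F + 1) * p) ^ h, S (τ + 1) = ast N F ((F + 1) * p) h (val 0) loc τ (S τ)) :
    S (((F + 1) * p) ^ h) = fun k => if k = 0 then val h (fun _ => 0) else 0 := by
  have hA : 1 ≤ (F + 1) * p := Nat.mul_pos (Nat.succ_pos F) hp
  have h1 := runF_eq (stpF N F ((F + 1) * p) (val 0) loc h (fun _ => 0) 0)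
    (((F + 1) * p) ^ h) S (fun τ hτ => by
    rw [hS τ hτ, ast_eq N F _ h hN hA])
  have h2 := run_stpF N F p h hp hV val loc hloc H h le_rfl (fun _ => 0) 0 0 (S 0)
  rw [Nat.zero_mul] at h2
  rw [h1, h2]
  funext k
  by_cases hk : k = 0
  · subst hk
    rw [if_pos rfl, Nat.zero_mod, Function.update_self, h0, zero_add]
  · rw [if_neg hk, Nat.zero_mod, Function.update_of_ne hk, h0]

end Pool.Agent.helper39.MESH
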