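import Pool.Agent.helper39.MESH.Defs
import Pool.Agent.helper18.SP.D1

/-!
# Module CMPA: the local operation is computable within polynomial bounds
-/

set_option autoImplicit false
set_option linter.unusedVariables false

namespace Pool.Agent.helper39.MESH

open Pool.Agent.helper12.SP (TM DSPACE Ctx Pb Cmp CmpP num pw dg pm up np)
open Pool.Agent.helper12

/-! ### numerical bounds -/

theorem gs_le (N q M S d z : ℕ) : gs N q M S d z ≤ N * (M * N) := by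
  unfold gs
  calc _ ≤ ∑ y ∈ Finset.range (pw N S d), M * N := by
        apply Finset.sum_le_sum
        intro y _
        apply Nat.mul_le_mul _ (SP.D1_pw_le _ _ _)
        split_ifs
        · exact SP.D1_dg_le _ _ _ _
        · exact Nat.zero_le _
    _ = pw N S d * (M * N) := by simp
    _ ≤ N * (M * N) := Nat.mul_le_mul_right _ (SP.D1_pw_le _ _ _)

theorem gi_le (N q M S d z m : ℕ) : gi N q M S d z m ≤ z + N * (M * N) := by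
  cases m with
  | zero => exact Nat.le_add_right _ _
  | succ m => exact (gs_le _ _ _ _ _ _).trans (Nat.le_add_left _ _)

theorem lz_iter_le (N p κ d q M g G o m z s : ℕ) (hp : 1 ≤ p) (j : ℕ) :
    (Nat.rec (motive := fun _ => ℕ) s (fun k ih => up N p ih (o * G + k)
      ((p - pm p m (p - 1 - pw N 2 d * G * (pw N q g - 1))) *
        wt N p G (pw N 2 d) (pw N q g) m ih o z % p * nw N κ d q M g G z k % p)) j : ℕ) ≤
      s + j * (p * N) :=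
  SP.D1_lz_iter_le N p hp s (fun k _ => o * G + k)
    (fun k ih => (p - pm p m (p - 1 - pw N 2 d * G * (pw N q g - 1))) *
        wt N p G (pw N 2 d) (pw N q g) m ih o z % p * nw N κ d q M g G z k % p) j

theorem lz_le (N p κ d q M g G o m z s : ℕ) (hp : 1 ≤ p) :
    lz N p κ d q M g G o m z s ≤ s + G * (p * N) :=
  lz_iter_le N p κ d q M g G o m z s hp G

theorem lo_iter_le (N p κ d q M g G o m s : ℕ) (hp : 1 ≤ p) (j : ℕ) :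
    (Nat.rec (motive := fun _ => ℕ) s (fun z ih => lz N p κ d q M g G o m z ih) j : ℕ) ≤
      s + j * (G * (p * N)) := by
  induction j with
  | zero => simp
  | succ j ih =>
    refine (lz_le _ _ _ _ _ _ _ _ _ _ _ _ hp).trans ?_
    calc _ ≤ s + j * (G * (p * N)) + G * (p * N) := by
          exact Nat.add_le_add_right ih _
      _ = _ := by ring

/-- the register contents after the local operation are bounded -/
theorem lo_le (N p κ d q M g G o m s : ℕ) (hp1 : 1 ≤ p) :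
    lo N p κ d q M g G o m s ≤ s + N * (G * (p * N)) := by
  unfold lo
  refine (lo_iter_le N p κ d q M g G o m s hp1 _).trans ?_
  exact Nat.add_le_add_left (Nat.mul_le_mul_right _ (SP.D1_pw_le _ _ _)) _

variable {α : Type} [Ctx α] {bd N p κ d h q M g G X Z F A : α → ℕ}

theorem Cmp.cb {S : α → ℕ} {f : α → ℕ → ℕ} (hN : Cmp bd N) (hS : Cmp bd S) (hd : Cmp bd d)
    (hf : Cmp (fun x : α × ℕ => bd x.1 + x.2) (fun x : α × ℕ => f x.1 x.2)) :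
    Cmp bd (fun a => MESH.cb (N a) (S a) (d a) (f a)) := by
  unfold MESH.cb
  exact SP.Cmp.sum (h := fun x : α × ℕ => f x.1 x.2 * pw (N x.1) (S x.1) x.2) hd
    (SP.Cmp.mul hf (SP.Cmp.pw hN.wk1 hS.wk1 (SP.Cmp.i bd)))

theorem Cmp.od {S y u : α → ℕ} (hN : Cmp bd N) (hS : Cmp bd S) (hd : Cmp bd d) (hy : Cmp bd y)
    (hu : Cmp bd u) : Cmp bd (fun a => MESH.od (N a) (S a) (d a) (y a) (u a)) := by
  unfold MESH.od
  exact SP.Cmp.sub (SP.Cmp.add hy (Cmp.cb (f := fun a j => dg (N a) 3 (u a) j) hN hS hd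
    (SP.Cmp.dg hN.wk1 (SP.Cmp.const 3) hu.wk1 (SP.Cmp.i bd))))
    (Cmp.cb (f := fun _ _ => 2) hN hS hd (SP.Cmp.const 2))

theorem Cmp.ch {y : α → ℕ} (hN : Cmp bd N) (hκ : Cmp bd κ) (hd : Cmp bd d) (hy : Cmp bd y) :
    Cmp bd (fun a => MESH.ch (N a) (κ a) (d a) (y a)) := by
  unfold MESH.ch
  exact Cmp.cb (f := fun a j => if dg (N a) (4 * κ a) (y a) j < 2 * κ a then 1 else 0) hN
    (SP.Cmp.const 2) hd (SP.Cmp.ite (SP.CmpP.lt (SP.Cmp.dg hN.wk1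
      (SP.Cmp.mul (SP.Cmp.const 4) hκ.wk1) hy.wk1 (SP.Cmp.i bd))
      (SP.Cmp.mul (SP.Cmp.const 2) hκ.wk1)) (SP.Cmp.const 1) (SP.Cmp.const 0))

theorem Cmp.nr {y : α → ℕ} (hN : Cmp bd N) (hκ : Cmp bd κ) (hd : Cmp bd d) (hy : Cmp bd y) :
    Cmp bd (fun a => MESH.nr (N a) (κ a) (d a) (y a)) := by
  unfold MESH.nr
  exact Cmp.cb (f := fun a j => dg (N a) (4 * κ a) (y a) j % (2 * κ a)) hN
    (SP.Cmp.mul (SP.Cmp.const 2) hκ) hd (SP.Cmp.mod (SP.Cmp.dg hN.wk1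
      (SP.Cmp.mul (SP.Cmp.const 4) hκ.wk1) hy.wk1 (SP.Cmp.i bd))
      (SP.Cmp.mul (SP.Cmp.const 2) hκ.wk1))

theorem Cmp.ou {i : α → ℕ} (hN : Cmp bd N) (hκ : Cmp bd κ) (hd : Cmp bd d) (hi : Cmp bd i) :
    Cmp bd (fun a => MESH.ou (N a) (κ a) (d a) (i a)) := by
  unfold MESH.ou
  exact Cmp.cb (f := fun a j => 2 * κ a + dg (N a) (2 * κ a) (i a) j) hN
    (SP.Cmp.mul (SP.Cmp.const 4) hκ) hd (SP.Cmp.add (SP.Cmp.mul (SP.Cmp.const 2) hκ.wk1)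
      (SP.Cmp.dg hN.wk1 (SP.Cmp.mul (SP.Cmp.const 2) hκ.wk1) hi.wk1 (SP.Cmp.i bd)))

theorem Cmp.gs {S z : α → ℕ} (hN : Cmp bd N) (hq : Cmp bd q) (hM : Cmp bd M) (hS : Cmp bd S)
    (hd : Cmp bd d) (hz : Cmp bd z) :
    Cmp bd (fun a => MESH.gs (N a) (q a) (M a) (S a) (d a) (z a)) := by
  unfold MESH.gs
  refine SP.Cmp.sum (f := fun a => pw (N a) (S a) (d a)) (h := fun x : α × ℕ =>
    (if MESH.cb (N x.1) (S x.1) (d x.1) (fun _ => 2) ≤ x.2 then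
      dg (N x.1) (q x.1) (M x.1) (∑ u ∈ Finset.range (pw (N x.1) 3 (d x.1)),
        dg (N x.1) (q x.1) (z x.1) (MESH.od (N x.1) (S x.1) (d x.1) x.2 u) * pw (N x.1) (q x.1) u)
      else 0) * pw (N x.1) (q x.1) x.2) (SP.Cmp.pw hN hS hd) ?_
  have e := SP.Cmp.i bd
  have hN' := hN.wk1
  have hq' := hq.wk1
  have hM' := hM.wk1
  have hz' := hz.wk1
  have hS' := hS.wk1
  have hd' := hd.wk1
  refine SP.Cmp.mul (SP.Cmp.ite (SP.CmpP.le (Cmp.cb (f := fun _ _ => 2) hN' hS' hd'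
    (SP.Cmp.const 2)) e) (SP.Cmp.dg hN' hq' hM' ?_) (SP.Cmp.const 0)) (SP.Cmp.pw hN' hq' e)
  refine SP.Cmp.sum (f := fun x : α × ℕ => pw (N x.1) 3 (d x.1)) (h := fun x : (α × ℕ) × ℕ =>
    dg (N x.1.1) (q x.1.1) (z x.1.1) (MESH.od (N x.1.1) (S x.1.1) (d x.1.1) x.1.2 x.2) *
      pw (N x.1.1) (q x.1.1) x.2) (SP.Cmp.pw hN' (SP.Cmp.const 3) hd') ?_
  have e' := SP.Cmp.i (fun x : α × ℕ => bd x.1 + x.2)
  exact SP.Cmp.mul (SP.Cmp.dg hN'.wk1 hq'.wk1 hz'.wk1 (Cmp.od hN'.wk1 hS'.wk1 hd'.wk1 e.wk1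
    e')) (SP.Cmp.pw hN'.wk1 hq'.wk1 e')

theorem Cmp.gi {S z m : α → ℕ} (hN : Cmp bd N) (hq : Cmp bd q) (hM : Cmp bd M) (hS : Cmp bd S)
    (hd : Cmp bd d) (hz : Cmp bd z) (hm : Cmp bd m) :
    Cmp bd (fun a => MESH.gi (N a) (q a) (M a) (S a) (d a) (z a) (m a)) := by
  unfold MESH.gi
  refine SP.Cmp.natRec (h := fun x : α × ℕ × ℕ =>
    MESH.gs (N x.1) (q x.1) (M x.1) (S x.1) (d x.1) x.2.2) hz hm
    (Cmp.gs hN.wk hq.wk hM.wk hS.wk hd.wk (SP.Cmp.ih bd)) ?_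
  obtain ⟨C, hC⟩ := (hz.add (hN.mul (hM.mul hN))).pb
  refine ⟨C, fun a y _ => le_trans ?_ (hC a)⟩
  exact gi_le (N a) (q a) (M a) (S a) (d a) (z a) y

theorem Cmp.ar {z : α → ℕ} (hN : Cmp bd N) (hκ : Cmp bd κ) (hd : Cmp bd d) (hq : Cmp bd q)
    (hg : Cmp bd g) (hG : Cmp bd G) (hz : Cmp bd z) :
    Cmp bd (fun a => MESH.ar (N a) (κ a) (d a) (q a) (g a) (G a) (z a)) := by
  unfold MESH.ar
  have e := SP.Cmp.i bd
  exact SP.Cmp.sum (f := fun a => pw (N a) (4 * κ a) (d a)) (h := fun x : α × ℕ =>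
    dg (N x.1) (q x.1) (z x.1) (MESH.ch (N x.1) (κ x.1) (d x.1) x.2 * (G x.1 * g x.1) +
      MESH.nr (N x.1) (κ x.1) (d x.1) x.2) * pw (N x.1) (q x.1) x.2)
    (SP.Cmp.pw hN (SP.Cmp.mul (SP.Cmp.const 4) hκ) hd)
    (SP.Cmp.mul (SP.Cmp.dg hN.wk1 hq.wk1 hz.wk1 (SP.Cmp.add (SP.Cmp.mul
      (Cmp.ch hN.wk1 hκ.wk1 hd.wk1 e) (SP.Cmp.mul hG.wk1 hg.wk1))
      (Cmp.nr hN.wk1 hκ.wk1 hd.wk1 e))) (SP.Cmp.pw hN.wk1 hq.wk1 e))

theorem Cmp.nw {z k : α → ℕ} (hN : Cmp bd N) (hκ : Cmp bd κ) (hd : Cmp bd d) (hq : Cmp bd q)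
    (hM : Cmp bd M) (hg : Cmp bd g) (hG : Cmp bd G) (hz : Cmp bd z) (hk : Cmp bd k) :
    Cmp bd (fun a => MESH.nw (N a) (κ a) (d a) (q a) (M a) (g a) (G a) (z a) (k a)) := by
  unfold MESH.nw
  have e : Cmp (fun x : α × ℕ => bd x.1 + x.2) (fun x => k x.1 * g x.1 + x.2) :=
    SP.Cmp.add (SP.Cmp.mul hk.wk1 hg.wk1) (SP.Cmp.i bd)
  have h4 : Cmp (fun x : α × ℕ => bd x.1 + x.2) (fun x => 4 * κ x.1) :=
    SP.Cmp.mul (SP.Cmp.const 4) hκ.wk1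
  exact SP.Cmp.sum (f := fun a => g a) (h := fun x : α × ℕ =>
    (if k x.1 * g x.1 + x.2 < pw (N x.1) (2 * κ x.1) (d x.1) then
      dg (N x.1) (q x.1) (MESH.gi (N x.1) (q x.1) (M x.1) (4 * κ x.1) (d x.1)
        (MESH.ar (N x.1) (κ x.1) (d x.1) (q x.1) (g x.1) (G x.1) (z x.1)) (κ x.1))
        (MESH.ou (N x.1) (κ x.1) (d x.1) (k x.1 * g x.1 + x.2)) else 0) *
      pw (N x.1) (q x.1) x.2) hg
    (SP.Cmp.mul (SP.Cmp.ite (SP.CmpP.lt e (SP.Cmp.pw hN.wk1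
      (SP.Cmp.mul (SP.Cmp.const 2) hκ.wk1) hd.wk1))
      (SP.Cmp.dg hN.wk1 hq.wk1 (Cmp.gi hN.wk1 hq.wk1 hM.wk1 h4 hd.wk1
        (Cmp.ar hN.wk1 hκ.wk1 hd.wk1 hq.wk1 hg.wk1 hG.wk1 hz.wk1) hκ.wk1)
        (Cmp.ou hN.wk1 hκ.wk1 hd.wk1 e)) (SP.Cmp.const 0))
      (SP.Cmp.pw hN.wk1 hq.wk1 (SP.Cmp.i bd)))

theorem Cmp.lg {Q y v m : α → ℕ} (hp : Cmp bd p) (hp1 : ∀ a, 1 ≤ p a) (hQ : Cmp bd Q)
    (hy : Cmp bd y) (hv : Cmp bd v) (hm : Cmp bd m) :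
    Cmp bd (fun a => MESH.lg (p a) (Q a) (y a) (v a) (m a)) := by
  unfold MESH.lg
  refine SP.Cmp.natRec (m := fun a => Q a) (h := fun x : α × ℕ × ℕ =>
    if x.2.1 = v x.1 then x.2.2 else
      x.2.2 * ((y x.1 + (p x.1 - x.2.1 * m x.1 % p x.1)) *
        pm (p x.1) (v x.1 + (p x.1 - x.2.1)) (p x.1 - 2) % p x.1) % p x.1)
    (SP.Cmp.mod (SP.Cmp.const 1) hp) hQ ?_ ?_
  · have u := SP.Cmp.y bd
    have ih := SP.Cmp.ih bd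
    have hp1' : ∀ x : α × ℕ × ℕ, 1 ≤ p x.1 := fun x => hp1 x.1
    exact SP.Cmp.ite (SP.CmpP.eq u hv.wk) ih (SP.Cmp.mod (SP.Cmp.mul ih (SP.Cmp.mod
      (SP.Cmp.mul (SP.Cmp.add hy.wk (SP.Cmp.sub hp.wk (SP.Cmp.mod (SP.Cmp.mul u hm.wk) hp.wk)))
        (SP.Cmp.pm hp.wk hp1' (SP.Cmp.add hv.wk (SP.Cmp.sub hp.wk u))
          (SP.Cmp.sub hp.wk (SP.Cmp.const 2)))) hp.wk)) hp.wk)
  · obtain ⟨C, hC⟩ := hp.pb
    refine ⟨C, fun a y' _ => le_trans ?_ (hC a)⟩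
    induction y' with
    | zero => exact (Nat.mod_lt _ (hp1 a)).le
    | succ y' ih' =>
      dsimp only
      split_ifs
      · exact ih' (by omega)
      · exact (Nat.mod_lt _ (hp1 a)).le

theorem Cmp.wt {Q m s o z : α → ℕ} (hN : Cmp bd N) (hp : Cmp bd p) (hp1 : ∀ a, 1 ≤ p a)
    (hG : Cmp bd G) (hF : Cmp bd F) (hQ : Cmp bd Q) (hm : Cmp bd m) (hs : Cmp bd s)
    (ho : Cmp bd o) (hz : Cmp bd z) :
    Cmp bd (fun a => MESH.wt (N a) (p a) (G a) (F a) (Q a) (m a) (s a) (o a) (z a)) := by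
  unfold MESH.wt
  refine SP.Cmp.natRec (m := fun a => F a * G a) (h := fun x : α × ℕ × ℕ =>
    x.2.2 * MESH.lg (p x.1) (Q x.1) (dg (N x.1) (p x.1) (s x.1)
      ((o x.1 + 1 + x.2.1 / G x.1) % (F x.1 + 1) * G x.1 + x.2.1 % G x.1))
      (dg (N x.1) (Q x.1) (z x.1) x.2.1) (m x.1) % p x.1)
    (SP.Cmp.mod (SP.Cmp.const 1) hp) (SP.Cmp.mul hF hG) ?_ ?_
  · have y := SP.Cmp.y bd
    exact SP.Cmp.mod (SP.Cmp.mul (SP.Cmp.ih bd) (Cmp.lg hp.wk (fun x => hp1 x.1) hQ.wk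
      (SP.Cmp.dg hN.wk hp.wk hs.wk (SP.Cmp.add (SP.Cmp.mul (SP.Cmp.mod (SP.Cmp.add
        (SP.Cmp.add ho.wk (SP.Cmp.const 1)) (SP.Cmp.div y hG.wk))
        (SP.Cmp.add hF.wk (SP.Cmp.const 1))) hG.wk) (SP.Cmp.mod y hG.wk)))
      (SP.Cmp.dg hN.wk hQ.wk hz.wk y) hm.wk)) hp.wk
  · obtain ⟨C, hC⟩ := hp.pb
    refine ⟨C, fun a y _ => le_trans ?_ (hC a)⟩
    cases y with
    | zero => exact (Nat.mod_lt _ (hp1 a)).le
    | succ y => exact (Nat.mod_lt _ (hp1 a)).le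

theorem Cmp.lz {o m z s : α → ℕ} (hN : Cmp bd N) (hp : Cmp bd p) (hp1 : ∀ a, 1 ≤ p a)
    (hκ : Cmp bd κ) (hd : Cmp bd d) (hq : Cmp bd q) (hM : Cmp bd M) (hg : Cmp bd g)
    (hG : Cmp bd G) (ho : Cmp bd o) (hm : Cmp bd m) (hz : Cmp bd z) (hs : Cmp bd s) :
    Cmp bd (fun a => MESH.lz (N a) (p a) (κ a) (d a) (q a) (M a) (g a) (G a) (o a) (m a) (z a)
      (s a)) := by
  unfold MESH.lz
  refine SP.Cmp.natRec (m := fun a => G a) (h := fun x : α × ℕ × ℕ =>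
    up (N x.1) (p x.1) x.2.2 (o x.1 * G x.1 + x.2.1)
      ((p x.1 - pm (p x.1) (m x.1) (p x.1 - 1 - pw (N x.1) 2 (d x.1) * G x.1 *
        (pw (N x.1) (q x.1) (g x.1) - 1))) *
        MESH.wt (N x.1) (p x.1) (G x.1) (pw (N x.1) 2 (d x.1)) (pw (N x.1) (q x.1) (g x.1))
          (m x.1) x.2.2 (o x.1) (z x.1) % p x.1 *
          MESH.nw (N x.1) (κ x.1) (d x.1) (q x.1) (M x.1) (g x.1) (G x.1) (z x.1) x.2.1 % p x.1))
    hs hG ?_ ?_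
  · have y := SP.Cmp.y bd
    have ih := SP.Cmp.ih bd
    have hp1' : ∀ x : α × ℕ × ℕ, 1 ≤ p x.1 := fun x => hp1 x.1
    have hF : Cmp (fun x : α × ℕ × ℕ => bd x.1 + x.2.1 + x.2.2)
        (fun x => pw (N x.1) 2 (d x.1)) := SP.Cmp.pw hN.wk (SP.Cmp.const 2) hd.wk
    have hQ : Cmp (fun x : α × ℕ × ℕ => bd x.1 + x.2.1 + x.2.2)
        (fun x => pw (N x.1) (q x.1) (g x.1)) := SP.Cmp.pw hN.wk hq.wk hg.wk
    exact SP.Cmp.up hN.wk hp.wk ih (SP.Cmp.add (SP.Cmp.mul ho.wk hG.wk) y)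
      (SP.Cmp.mod (SP.Cmp.mul (SP.Cmp.mod (SP.Cmp.mul (SP.Cmp.sub hp.wk
        (SP.Cmp.pm hp.wk hp1' hm.wk (SP.Cmp.sub (SP.Cmp.sub hp.wk (SP.Cmp.const 1))
          (SP.Cmp.mul (SP.Cmp.mul hF hG.wk) (SP.Cmp.sub hQ (SP.Cmp.const 1))))))
        (Cmp.wt hN.wk hp.wk hp1' hG.wk hF hQ hm.wk ih ho.wk hz.wk)) hp.wk)
        (Cmp.nw hN.wk hκ.wk hd.wk hq.wk hM.wk hg.wk hG.wk hz.wk y)) hp.wk)
  · obtain ⟨C, hC⟩ := (hs.add (hG.mul (hp.mul hN))).pb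
    refine ⟨C, fun a y hy => le_trans ?_ (hC a)⟩
    refine le_trans (lz_iter_le (N a) (p a) (κ a) (d a) (q a) (M a) (g a) (G a) (o a) (m a) (z a)
      (s a) (hp1 a) y) ?_
    exact Nat.add_le_add_left (Nat.mul_le_mul_right _ hy) _

theorem Cmp.lo {o m s : α → ℕ} (hN : Cmp bd N) (hp : Cmp bd p) (hp1 : ∀ a, 1 ≤ p a)
    (hκ : Cmp bd κ) (hd : Cmp bd d) (hq : Cmp bd q) (hM : Cmp bd M) (hg : Cmp bd g)
    (hG : Cmp bd G) (ho : Cmp bd o) (hm : Cmp bd m) (hs : Cmp bd s) :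
    Cmp bd (fun a => MESH.lo (N a) (p a) (κ a) (d a) (q a) (M a) (g a) (G a) (o a) (m a)
      (s a)) := by
  unfold MESH.lo
  refine SP.Cmp.natRec (m := fun a => pw (N a) (pw (N a) (q a) (g a)) (pw (N a) 2 (d a) * G a))
    (h := fun x : α × ℕ × ℕ => MESH.lz (N x.1) (p x.1) (κ x.1) (d x.1) (q x.1) (M x.1) (g x.1)
      (G x.1) (o x.1) (m x.1) x.2.1 x.2.2)
    hs (SP.Cmp.pw hN (SP.Cmp.pw hN hq hg) (SP.Cmp.mul (SP.Cmp.pw hN (SP.Cmp.const 2) hd) hG))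
    (Cmp.lz hN.wk hp.wk (fun x => hp1 x.1) hκ.wk hd.wk hq.wk hM.wk hg.wk hG.wk ho.wk hm.wk
      (SP.Cmp.y bd) (SP.Cmp.ih bd)) ?_
  obtain ⟨C, hC⟩ := (hs.add (hN.mul (hG.mul (hp.mul hN)))).pb
  refine ⟨C, fun a y hy => le_trans ?_ (hC a)⟩
  refine le_trans (lo_iter_le (N a) (p a) (κ a) (d a) (q a) (M a) (g a) (G a) (o a) (m a) (s a)
    (hp1 a) y) ?_
  have : y ≤ N a := hy.trans (SP.D1_pw_le _ _ _)
  exact Nat.add_le_add_left (Nat.mul_le_mul_right _ this) _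

end Pool.Agent.helper39.MESH
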