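import Pool.Agent.helper39.MESH.CmpA
import Pool.Agent.helper18.SP.D2

/-!
# Module CMPB: the leaf operation, the instructions and the result are computable within polynomial
bounds
-/

set_option autoImplicit false
set_option linter.unusedVariables false

namespace Pool.Agent.helper39.MESH

open Pool.Agent.helper12.SP (TM DSPACE Ctx Pb Cmp CmpP num pw dg pm up np)

/-! ### numerical bounds -/

theorem lf_iter_le (N p κ d h q g G X Z : ℕ) (c : ℕ → ℕ) (o s : ℕ) (hp : 1 ≤ p) (j : ℕ) :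
    (Nat.rec (motive := fun _ => ℕ) s (fun k ih => up N p ih (o * G + k)
      (∑ j ∈ Finset.range g, (if k * g + j < pw N (2 * κ) d then
        lv N κ d h X Z c (k * g + j) else 0) * pw N q j)) j : ℕ) ≤ s + j * (p * N) :=
  Pool.Agent.helper12.SP.D1_lz_iter_le N p hp s (fun k _ => o * G + k)
    (fun k _ => ∑ j ∈ Finset.range g, (if k * g + j < pw N (2 * κ) d then
        lv N κ d h X Z c (k * g + j) else 0) * pw N q j) j

theorem lf_le (N p κ d h q g G X Z : ℕ) (c : ℕ → ℕ) (o s : ℕ) (hp1 : 1 ≤ p) :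
    lf N p κ d h q g G X Z c o s ≤ s + G * (p * N) :=
  lf_iter_le N p κ d h q g G X Z c o s hp1 G

theorem tt_le (N F A h τ i : ℕ) : tt N F A h τ i ≤ i := by
  induction i with
  | zero => exact le_refl _
  | succ i ih =>
    show (if tt N F A h τ i = i ∧ sl N F A τ (h - 1 - i) ≠ F then tt N F A h τ i + 1
      else tt N F A h τ i) ≤ i + 1
    split_ifs <;> omega

theorem st_le (N p κ d h q M g G X Z F A τ s : ℕ) (hp : 1 ≤ p) :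
    st N p κ d h q M g G X Z F A τ s ≤ s + (G * (p * N) + N * (G * (p * N))) := by
  unfold st
  split_ifs
  · refine (lf_le _ _ _ _ _ _ _ _ _ _ _ _ _ hp).trans ?_
    omega
  · refine (lo_le _ _ _ _ _ _ _ _ _ _ _ hp).trans ?_
    omega
  · omega

theorem rn_le (N p κ d h q M g G X Z F A m : ℕ) (hp : 1 ≤ p) :
    rn N p κ d h q M g G X Z F A m ≤ m * (G * (p * N) + N * (G * (p * N))) := by
  induction m with
  | zero => exact Nat.zero_le _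
  | succ m ih =>
    show st N p κ d h q M g G X Z F A m (rn N p κ d h q M g G X Z F A m) ≤ _
    refine (st_le _ _ _ _ _ _ _ _ _ _ _ _ _ _ _ hp).trans ?_
    rw [Nat.add_mul, Nat.one_mul]
    exact Nat.add_le_add_right ih _

variable {α : Type} [Ctx α] {bd N p κ d h q M g G X Z F A : α → ℕ}

/-! ### vectors -/

/-- weakening of a vector to the context of a recursion -/
theorem Cmp.vwk {c : α → ℕ → ℕ}
    (hc : Cmp (fun x : α × ℕ => bd x.1 + x.2) (fun x => c x.1 x.2)) :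
    Cmp (fun x : (α × ℕ × ℕ) × ℕ => bd x.1.1 + x.1.2.1 + x.1.2.2 + x.2)
      (fun x => c x.1.1 x.2) := by
  refine Pool.Agent.helper12.SP.Cmp.reindex hc (fun x : (α × ℕ × ℕ) × ℕ => (x.1.1, x.2)) ?_ ?_
  · intro i hi
    rw [Pool.Agent.helper12.SP.dim_prod, Pool.Agent.helper12.SP.dim_nat] at hi
    by_cases h1 : i < Ctx.dim α
    · refine ⟨i, ?_, fun x => ?_⟩
      · rw [Pool.Agent.helper12.SP.dim_prod, Pool.Agent.helper12.SP.dim_prod]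
        omega
      · rw [Pool.Agent.helper12.SP.reg_prod, if_pos h1, Pool.Agent.helper12.SP.reg_prod,
          if_pos (by rw [Pool.Agent.helper12.SP.dim_prod]; omega),
          Pool.Agent.helper12.SP.reg_prod, if_pos h1]
    · refine ⟨Ctx.dim (α × ℕ × ℕ), ?_, fun x => ?_⟩
      · show Ctx.dim (α × ℕ × ℕ) < Ctx.dim (α × ℕ × ℕ) + Ctx.dim ℕ
        rw [Pool.Agent.helper12.SP.dim_nat]
        omega
      · rw [Pool.Agent.helper12.SP.reg_prod, if_neg h1, Pool.Agent.helper12.SP.reg_prod,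
          if_neg (lt_irrefl _)]
        rfl
  · exact Pb.of_le (fun x => by simp only; omega) Pb.self

/-- weakening of a vector to the context of a sum -/
theorem Cmp.vwk1 {c : α → ℕ → ℕ}
    (hc : Cmp (fun x : α × ℕ => bd x.1 + x.2) (fun x => c x.1 x.2)) :
    Cmp (fun x : (α × ℕ) × ℕ => bd x.1.1 + x.1.2 + x.2) (fun x => c x.1.1 x.2) := by
  refine Pool.Agent.helper12.SP.Cmp.reindex hc (fun x : (α × ℕ) × ℕ => (x.1.1, x.2)) ?_ ?_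
  · intro i hi
    rw [Pool.Agent.helper12.SP.dim_prod, Pool.Agent.helper12.SP.dim_nat] at hi
    by_cases h1 : i < Ctx.dim α
    · refine ⟨i, ?_, fun x => ?_⟩
      · rw [Pool.Agent.helper12.SP.dim_prod, Pool.Agent.helper12.SP.dim_prod]
        omega
      · rw [Pool.Agent.helper12.SP.reg_prod, if_pos h1, Pool.Agent.helper12.SP.reg_prod,
          if_pos (by rw [Pool.Agent.helper12.SP.dim_prod]; omega),
          Pool.Agent.helper12.SP.reg_prod, if_pos h1]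
    · refine ⟨Ctx.dim (α × ℕ), ?_, fun x => ?_⟩
      · show Ctx.dim (α × ℕ) < Ctx.dim (α × ℕ) + Ctx.dim ℕ
        rw [Pool.Agent.helper12.SP.dim_nat]
        omega
      · rw [Pool.Agent.helper12.SP.reg_prod, if_neg h1, Pool.Agent.helper12.SP.reg_prod,
          if_neg (lt_irrefl _)]
        rfl
  · exact Pb.of_le (fun x => by simp only; omega) Pb.self

/-- the entry `0` of a vector -/
theorem Cmp.v0 {c : α → ℕ → ℕ}
    (hc : Cmp (fun x : α × ℕ => bd x.1 + x.2) (fun x => c x.1 x.2)) :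
    Cmp bd (fun a => c a 0) :=
  (Pool.Agent.helper12.SP.Cmp.sum (Pool.Agent.helper12.SP.Cmp.const 1) hc).congr
    fun a => by simp

/-! ### the functions -/

section

open Pool.Agent.helper12.SP

theorem Cmp.lv {c : α → ℕ → ℕ} {i : α → ℕ} (hN : Cmp bd N) (hκ : Cmp bd κ) (hd : Cmp bd d)
    (hh : Cmp bd h) (hX : Cmp bd X) (hZ : Cmp bd Z)
    (hc : Cmp (fun x : α × ℕ => bd x.1 + x.2) (fun x => c x.1 x.2)) (hi : Cmp bd i) :
    Cmp bd (fun a => MESH.lv (N a) (κ a) (d a) (h a) (X a) (Z a) (c a) (i a)) := by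
  unfold MESH.lv
  have h2κ : Cmp bd (fun a => 2 * κ a) := Cmp.mul (Cmp.const 2) hκ
  have e0 : Cmp bd (fun a => h a * κ a + dg (N a) (2 * κ a) (i a) 0) :=
    Cmp.add (Cmp.mul hh hκ) (Cmp.dg hN h2κ hi (Cmp.const 0))
  have ec : Cmp bd (fun a => 2 * κ a * c a 0) := Cmp.mul h2κ (Cmp.v0 hc)
  have e1 : Cmp bd (fun a => h a * κ a + dg (N a) (2 * κ a) (i a) 0 - 2 * κ a * c a 0) :=
    Cmp.sub e0 ec
  have e2 : Cmp bd (fun a => 2 * κ a * c a 0 - (h a * κ a + dg (N a) (2 * κ a) (i a) 0) - 1) :=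
    Cmp.sub (Cmp.sub ec e0) (Cmp.const 1)
  refine Cmp.ite ?_
    (Cmp.ite (CmpP.le ec e0)
      (Cmp.ite (CmpP.lt e1 (Cmp.log hX)) (Cmp.add (Cmp.const 1) (Cmp.dg hN (Cmp.const 2) hX e1))
        (Cmp.const 0))
      (Cmp.ite (CmpP.lt e2 (Cmp.log hZ)) (Cmp.add (Cmp.const 3) (Cmp.dg hN (Cmp.const 2) hZ e2))
        (Cmp.const 0)))
    (Cmp.const 0)
  refine CmpP.ball (P := fun x : α × ℕ => x.2 ≠ 0 →
    h x.1 * κ x.1 + dg (N x.1) (2 * κ x.1) (i x.1) x.2 = 2 * κ x.1 * c x.1 x.2) hd ?_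
  have h2κ' : Cmp (fun x : α × ℕ => bd x.1 + x.2) (fun x => 2 * κ x.1) :=
    Cmp.mul (Cmp.const 2) hκ.wk1
  refine (CmpP.not (CmpP.and (CmpP.not (CmpP.eq (Cmp.i bd) (Cmp.const 0)))
    (CmpP.not (CmpP.eq (Cmp.add (Cmp.mul hh.wk1 hκ.wk1) (Cmp.dg hN.wk1 h2κ' hi.wk1 (Cmp.i bd)))
      (Cmp.mul h2κ' hc))))).congr fun x => ?_
  constructor
  · intro h1 h2
    by_contra h3
    exact h1 ⟨h2, h3⟩
  · rintro h1 ⟨h2, h3⟩
    exact h3 (h1 h2)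

theorem Cmp.lf {c : α → ℕ → ℕ} {o s : α → ℕ} (hN : Cmp bd N) (hp : Cmp bd p)
    (hp1 : ∀ a, 1 ≤ p a) (hκ : Cmp bd κ) (hd : Cmp bd d) (hh : Cmp bd h) (hq : Cmp bd q)
    (hg : Cmp bd g) (hG : Cmp bd G) (hX : Cmp bd X) (hZ : Cmp bd Z)
    (hc : Cmp (fun x : α × ℕ => bd x.1 + x.2) (fun x => c x.1 x.2)) (ho : Cmp bd o)
    (hs : Cmp bd s) :
    Cmp bd (fun a => MESH.lf (N a) (p a) (κ a) (d a) (h a) (q a) (g a) (G a) (X a) (Z a) (c a)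
      (o a) (s a)) := by
  unfold MESH.lf
  refine Cmp.natRec (m := fun a => G a)
    (h := fun x : α × ℕ × ℕ => up (N x.1) (p x.1) x.2.2 (o x.1 * G x.1 + x.2.1)
      (∑ j ∈ Finset.range (g x.1), (if x.2.1 * g x.1 + j < pw (N x.1) (2 * κ x.1) (d x.1) then
        MESH.lv (N x.1) (κ x.1) (d x.1) (h x.1) (X x.1) (Z x.1) (c x.1) (x.2.1 * g x.1 + j)
        else 0) * pw (N x.1) (q x.1) j))
    hs hG
    (Cmp.up hN.wk hp.wk (Cmp.ih bd) (Cmp.add (Cmp.mul ho.wk hG.wk) (Cmp.y bd)) ?_) ?_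
  · refine Cmp.sum (f := fun x : α × ℕ × ℕ => g x.1) (h := fun x : (α × ℕ × ℕ) × ℕ =>
      (if x.1.2.1 * g x.1.1 + x.2 < pw (N x.1.1) (2 * κ x.1.1) (d x.1.1) then
        MESH.lv (N x.1.1) (κ x.1.1) (d x.1.1) (h x.1.1) (X x.1.1) (Z x.1.1) (c x.1.1)
          (x.1.2.1 * g x.1.1 + x.2) else 0) * pw (N x.1.1) (q x.1.1) x.2) hg.wk ?_
    have e := Cmp.i (fun x : α × ℕ × ℕ => bd x.1 + x.2.1 + x.2.2)
    have hy := (Cmp.y bd).wk1
    have hN' := hN.wk.wk1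
    have hκ' := hκ.wk.wk1
    have hd' := hd.wk.wk1
    have hg' := hg.wk.wk1
    have hi := Cmp.add (Cmp.mul hy hg') e
    refine Cmp.mul (Cmp.ite (CmpP.lt hi (Cmp.pw hN' (Cmp.mul (Cmp.const 2) hκ') hd'))
      (Cmp.lv (c := fun x : (α × ℕ × ℕ) × ℕ => c x.1.1) hN' hκ' hd' hh.wk.wk1 hX.wk.wk1
        hZ.wk.wk1 ?_ hi) (Cmp.const 0)) (Cmp.pw hN' hq.wk.wk1 e)
    exact MESH.Cmp.vwk1 (bd := fun x : α × ℕ × ℕ => bd x.1 + x.2.1 + x.2.2)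
      (c := fun x : α × ℕ × ℕ => c x.1) (MESH.Cmp.vwk hc)
  · obtain ⟨C, hC⟩ := (hs.add (hG.mul (hp.mul hN))).pb
    refine ⟨C, fun a y hy => le_trans ?_ (hC a)⟩
    refine le_trans (lf_iter_le (N a) (p a) (κ a) (d a) (h a) (q a) (g a) (G a) (X a) (Z a) (c a)
      (o a) (s a) (hp1 a) y) ?_
    exact Nat.add_le_add_left (Nat.mul_le_mul_right _ hy) _

theorem Cmp.sl {τ l : α → ℕ} (hN : Cmp bd N) (hF : Cmp bd F) (hA : Cmp bd A) (hτ : Cmp bd τ)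
    (hl : Cmp bd l) : Cmp bd (fun a => MESH.sl (N a) (F a) (A a) (τ a) (l a)) := by
  unfold MESH.sl
  exact Cmp.mod (Cmp.mod (Cmp.div hτ (Cmp.pw hN hA hl)) hA) (Cmp.add hF (Cmp.const 1))

theorem Cmp.tt {τ i : α → ℕ} (hN : Cmp bd N) (hF : Cmp bd F) (hA : Cmp bd A) (hh : Cmp bd h)
    (hτ : Cmp bd τ) (hi : Cmp bd i) :
    Cmp bd (fun a => MESH.tt (N a) (F a) (A a) (h a) (τ a) (i a)) := by
  unfold MESH.tt
  refine Cmp.natRec (h := fun x : α × ℕ × ℕ => if x.2.2 = x.2.1 ∧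
    MESH.sl (N x.1) (F x.1) (A x.1) (τ x.1) (h x.1 - 1 - x.2.1) ≠ F x.1 then x.2.2 + 1
      else x.2.2)
    (Cmp.const 0) hi
    (Cmp.ite (CmpP.and (CmpP.eq (Cmp.ih bd) (Cmp.y bd)) (CmpP.not (CmpP.eq
      (Cmp.sl hN.wk hF.wk hA.wk hτ.wk (Cmp.sub (Cmp.sub hh.wk (Cmp.const 1)) (Cmp.y bd)))
        hF.wk)))
      (Cmp.add (Cmp.ih bd) (Cmp.const 1)) (Cmp.ih bd)) ?_
  obtain ⟨C, hC⟩ := hi.pb
  refine ⟨C, fun a y hy => le_trans ?_ ((hC a))⟩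
  exact (MESH.tt_le (N a) (F a) (A a) (h a) (τ a) y).trans hy

theorem Cmp.cs {τ i : α → ℕ} (hN : Cmp bd N) (hF : Cmp bd F) (hA : Cmp bd A) (hh : Cmp bd h)
    (hτ : Cmp bd τ) (hi : Cmp bd i) :
    Cmp bd (fun a => MESH.cs (N a) (F a) (A a) (h a) (τ a) (i a)) := by
  unfold MESH.cs
  exact Cmp.sum (h := fun x : α × ℕ =>
    MESH.sl (N x.1) (F x.1) (A x.1) (τ x.1) (h x.1 - 1 - x.2)) hi
    (Cmp.sl hN.wk1 hF.wk1 hA.wk1 hτ.wk1 (Cmp.sub (Cmp.sub hh.wk1 (Cmp.const 1)) (Cmp.i bd)))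

theorem Cmp.cc {τ i b : α → ℕ} (hN : Cmp bd N) (hF : Cmp bd F) (hA : Cmp bd A) (hh : Cmp bd h)
    (hτ : Cmp bd τ) (hi : Cmp bd i) (hb : Cmp bd b) :
    Cmp bd (fun a => MESH.cc (N a) (F a) (A a) (h a) (τ a) (i a) (b a)) := by
  unfold MESH.cc
  exact Cmp.sum (h := fun x : α × ℕ =>
    dg (N x.1) 2 (MESH.sl (N x.1) (F x.1) (A x.1) (τ x.1) (h x.1 - 1 - x.2)) (b x.1)) hi
    (Cmp.dg hN.wk1 (Cmp.const 2) (Cmp.sl hN.wk1 hF.wk1 hA.wk1 hτ.wk1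
      (Cmp.sub (Cmp.sub hh.wk1 (Cmp.const 1)) (Cmp.i bd))) hb.wk1)

theorem Cmp.st {τ s : α → ℕ} (hN : Cmp bd N) (hp : Cmp bd p) (hp1 : ∀ a, 1 ≤ p a)
    (hκ : Cmp bd κ) (hd : Cmp bd d) (hh : Cmp bd h) (hq : Cmp bd q) (hM : Cmp bd M)
    (hg : Cmp bd g) (hG : Cmp bd G) (hX : Cmp bd X) (hZ : Cmp bd Z) (hF : Cmp bd F)
    (hA : Cmp bd A) (hτ : Cmp bd τ) (hs : Cmp bd s) :
    Cmp bd (fun a => MESH.st (N a) (p a) (κ a) (d a) (h a) (q a) (M a) (g a) (G a) (X a) (Z a)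
      (F a) (A a) (τ a) (s a)) := by
  unfold MESH.st
  have hF1 : Cmp bd (fun a => F a + 1) := Cmp.add hF (Cmp.const 1)
  have ht := Cmp.tt hN hF hA hh hτ hh
  have hc1 := Cmp.cs hN hF hA hh hτ hh
  have hc2 := Cmp.cs hN hF hA hh hτ ht
  have hw := Cmp.pw hN hA (Cmp.sub (Cmp.sub hh (Cmp.const 1)) ht)
  exact Cmp.ite (CmpP.eq ht hh)
    (Cmp.lf (c := fun a => MESH.cc (N a) (F a) (A a) (h a) (τ a) (h a)) hN hp hp1 hκ hd hh hq hg
      hG hX hZ (Cmp.cc hN.wk1 hF.wk1 hA.wk1 hh.wk1 hτ.wk1 hh.wk1 (Cmp.i bd))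
      (Cmp.mod (Cmp.add hh hc1) hF1) hs)
    (Cmp.ite (CmpP.eq (Cmp.mod hτ hw) (Cmp.const 0))
      (Cmp.lo hN hp hp1 hκ hd hq hM hg hG (Cmp.mod (Cmp.add ht hc2) hF1)
        (Cmp.add (Cmp.div (Cmp.mod (Cmp.div hτ hw) hA) hF1) (Cmp.const 1)) hs) hs)

theorem Cmp.rn {m : α → ℕ} (hN : Cmp bd N) (hp : Cmp bd p) (hp1 : ∀ a, 1 ≤ p a)
    (hκ : Cmp bd κ) (hd : Cmp bd d) (hh : Cmp bd h) (hq : Cmp bd q) (hM : Cmp bd M)
    (hg : Cmp bd g) (hG : Cmp bd G) (hX : Cmp bd X) (hZ : Cmp bd Z) (hF : Cmp bd F)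
    (hA : Cmp bd A) (hm : Cmp bd m) :
    Cmp bd (fun a => MESH.rn (N a) (p a) (κ a) (d a) (h a) (q a) (M a) (g a) (G a) (X a) (Z a)
      (F a) (A a) (m a)) := by
  unfold MESH.rn
  refine Cmp.natRec (h := fun x : α × ℕ × ℕ => MESH.st (N x.1) (p x.1) (κ x.1) (d x.1) (h x.1)
    (q x.1) (M x.1) (g x.1) (G x.1) (X x.1) (Z x.1) (F x.1) (A x.1) x.2.1 x.2.2) (Cmp.const 0) hm
    (Cmp.st hN.wk hp.wk (fun x => hp1 x.1) hκ.wk hd.wk hh.wk hq.wk hM.wk hg.wk hG.wk hX.wk hZ.wk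
      hF.wk hA.wk (Cmp.y bd) (Cmp.ih bd)) ?_
  obtain ⟨C, hC⟩ := (hm.mul ((hG.mul (hp.mul hN)).add (hN.mul (hG.mul (hp.mul hN))))).pb
  refine ⟨C, fun a y hy => le_trans ?_ (hC a)⟩
  refine le_trans (MESH.rn_le (N a) (p a) (κ a) (d a) (h a) (q a) (M a) (g a) (G a) (X a) (Z a)
    (F a) (A a) y (hp1 a)) ?_
  exact Nat.mul_le_mul_right _ hy

theorem Cmp.ot (v : ℕ) (hN : Cmp bd N) (hp : Cmp bd p) (hp1 : ∀ a, 1 ≤ p a) (hκ : Cmp bd κ)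
    (hd : Cmp bd d) (hh : Cmp bd h) (hq : Cmp bd q) (hM : Cmp bd M) (hg : Cmp bd g)
    (hG : Cmp bd G) (hX : Cmp bd X) (hZ : Cmp bd Z) :
    Cmp bd (fun a => MESH.ot v (N a) (p a) (κ a) (d a) (h a) (q a) (M a) (g a) (G a) (X a)
      (Z a)) := by
  unfold MESH.ot
  have hF : Cmp bd (fun a => pw (N a) 2 (d a)) := Cmp.pw hN (Cmp.const 2) hd
  have hA : Cmp bd (fun a => (pw (N a) 2 (d a) + 1) * p a) :=
    Cmp.mul (Cmp.add hF (Cmp.const 1)) hp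
  have hr : Cmp bd (fun a => MESH.rn (N a) (p a) (κ a) (d a) (h a) (q a) (M a) (g a) (G a) (X a)
      (Z a) (pw (N a) 2 (d a)) ((pw (N a) 2 (d a) + 1) * p a)
      (pw (N a) ((pw (N a) 2 (d a) + 1) * p a) (h a))) :=
    Cmp.rn hN hp hp1 hκ hd hh hq hM hg hG hX hZ hF hA (Cmp.pw hN hA hh)
  have hE : Cmp bd (fun a => pw (N a) (q a) (pw (N a) 3 (d a))) :=
    Cmp.pw hN hq (Cmp.pw hN (Cmp.const 3) hd)
  exact Cmp.ite (CmpP.eq (Cmp.dg hN hq hM (Cmp.add hE (Cmp.mod (Cmp.dg hN hp hr (Cmp.const 0))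
    hq))) (Cmp.const v)) (Cmp.const 1) (Cmp.const 0)

end

end Pool.Agent.helper39.MESH
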