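import Pool.Agent.helper39.MESH.CmpB
import Pool.Agent.helper77.SP.D3

/-!
# Module CMPS: the family `sm` and bounded search are computable within polynomial bounds
-/

set_option autoImplicit false
set_option linter.unusedVariables false

namespace Pool.Agent.helper39.MESH

open Pool.Agent.helper12.SP (TM DSPACE Ctx Pb Cmp CmpP num pw dg pm up np capN)

/-- the least number with the property `P`, if there is one less than `B`; `B` otherwise -/
def lst (P : ℕ → Prop) [DecidablePred P] (B : ℕ) : ℕ :=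
  Nat.rec 0 (fun _ ih => if P ih then ih else ih + 1) B

theorem lst_succ (P : ℕ → Prop) [DecidablePred P] (B : ℕ) :
    lst P (B + 1) = if P (lst P B) then lst P B else lst P B + 1 := rfl

theorem lst_le (P : ℕ → Prop) [DecidablePred P] (B : ℕ) : lst P B ≤ B := by
  induction B with
  | zero => exact le_refl _
  | succ B ih =>
    rw [lst_succ]
    split_ifs <;> omega

/-- below `lst P B` nothing has the property -/
theorem lst_min (P : ℕ → Prop) [DecidablePred P] (B : ℕ) : ∀ x < lst P B, ¬ P x := by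
  induction B with
  | zero => intro x hx; exact absurd hx (Nat.not_lt_zero x)
  | succ B ih =>
    intro x hx
    rw [lst_succ] at hx
    split_ifs at hx with h
    · exact ih x hx
    · rcases Nat.lt_succ_iff_lt_or_eq.1 hx with h1 | h1
      · exact ih x h1
      · rw [h1]; exact h

theorem lst_prop (P : ℕ → Prop) [DecidablePred P] (B : ℕ) (h : lst P B < B) : P (lst P B) := by
  induction B with
  | zero => exact absurd h (Nat.not_lt_zero _)
  | succ B ih =>
    by_cases h1 : P (lst P B)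
    · have h2 : lst P (B + 1) = lst P B := by rw [lst_succ, if_pos h1]
      rw [h2]
      exact h1
    · have h2 : lst P (B + 1) = lst P B + 1 := by rw [lst_succ, if_neg h1]
      exact absurd (ih (by omega)) h1

variable {α : Type} [Ctx α] {bd f : α → ℕ}

theorem pb_wk1 (hf : Pb bd f) :
    Pb (fun x : α × ℕ => bd x.1 + x.2) (fun x : α × ℕ => f x.1) := by
  obtain ⟨C, hC⟩ := hf
  exact ⟨C, fun x => (hC x.1).trans (Nat.pow_le_pow_left (by simp only; omega) C)⟩

section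

open Pool.Agent.helper12.SP

theorem Cmp.sqrt (hf : Cmp bd f) : Cmp bd (fun a => Nat.sqrt (f a)) := by
  classical
  have h1 : CmpP (fun x : α × ℕ => bd x.1 + x.2)
      (fun x => (x.2 + 1) * (x.2 + 1) ≤ f x.1) :=
    CmpP.le ((Cmp.i bd).succ.mul (Cmp.i bd).succ) hf.wk1
  refine (Cmp.sum hf h1).congr fun a => ?_
  rw [← sum_ind (f a) (Nat.sqrt (f a)) (Nat.sqrt_le_self _)]
  refine Finset.sum_congr rfl fun i _ => ?_
  have h2 : (i + 1) * (i + 1) ≤ f a ↔ i < Nat.sqrt (f a) := by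
    rw [← Nat.le_sqrt]
    omega
  simp only [h2]

theorem Cmp.unpair1 (hf : Cmp bd f) : Cmp bd (fun a => (Nat.unpair (f a)).1) := by
  have hs := Cmp.sqrt hf
  have hd : Cmp bd (fun a => f a - Nat.sqrt (f a) * Nat.sqrt (f a)) := hf.sub (hs.mul hs)
  refine (Cmp.ite (CmpP.lt hd hs) hd hs).congr fun a => ?_
  unfold Nat.unpair
  simp only
  split_ifs <;> rfl

theorem Cmp.unpair2 (hf : Cmp bd f) : Cmp bd (fun a => (Nat.unpair (f a)).2) := by
  have hs := Cmp.sqrt hf
  have hd : Cmp bd (fun a => f a - Nat.sqrt (f a) * Nat.sqrt (f a)) := hf.sub (hs.mul hs)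
  refine (Cmp.ite (CmpP.lt hd hs) hs (hd.sub hs)).congr fun a => ?_
  unfold Nat.unpair
  simp only
  split_ifs <;> rfl

/-- from the context of a sum to the context of a recursion, looking at the accumulator -/
theorem Cmp.wk3 {h : α × ℕ → ℕ} (hh : Cmp (fun x : α × ℕ => bd x.1 + x.2) h) :
    Cmp (fun x : α × ℕ × ℕ => bd x.1 + x.2.1 + x.2.2) (fun x => h (x.1, x.2.2)) := by
  refine Pool.Agent.helper12.SP.Cmp.reindex hh (fun x : α × ℕ × ℕ => (x.1, x.2.2)) ?_ ?_
  · intro i hi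
    rw [dim_prod, dim_nat] at hi
    by_cases h1 : i < Ctx.dim α
    · refine ⟨i, by rw [dim_prod, dim_prod, dim_nat]; omega, fun x => ?_⟩
      rw [reg_prod, reg_prod, if_pos h1, if_pos h1]
    · refine ⟨Ctx.dim α + 1, by rw [dim_prod, dim_prod, dim_nat]; omega, fun x => ?_⟩
      rw [reg_prod, reg_prod, if_neg h1, if_neg (by omega), reg_prod,
        if_neg (by rw [dim_nat]; omega)]
      rfl
  · exact Pb.of_le (fun x => by simp only; omega) Pb.self

theorem Cmp.lst {P : α → ℕ → Prop} [∀ a, DecidablePred (P a)] {B : α → ℕ} (hB : Cmp bd B)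
    (hP : CmpP (fun x : α × ℕ => bd x.1 + x.2) (fun x : α × ℕ => P x.1 x.2)) :
    Cmp bd (fun a => MESH.lst (P a) (B a)) := by
  have hP' : CmpP (fun x : α × ℕ × ℕ => bd x.1 + x.2.1 + x.2.2)
      (fun x : α × ℕ × ℕ => P x.1 x.2.2) := Cmp.wk3 hP
  refine Cmp.natRec (g := fun _ => 0) (m := B)
    (h := fun x : α × ℕ × ℕ => if P x.1 x.2.2 then x.2.2 else x.2.2 + 1) Cmp.zero hB ?_ ?_
  · exact Cmp.ite hP' (Cmp.ih bd) (Cmp.add (Cmp.ih bd) (Cmp.const 1))
  · obtain ⟨C, hC⟩ := hB.pb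
    exact ⟨C, fun a y hy => (lst_le (P a) y).trans (le_trans hy (hC a))⟩

theorem Cmp.sm (v c : ℕ) (hc : 1 ≤ c) {Y e Z r : α → ℕ} (hY : Cmp bd Y)
    (hb : Pb bd (fun a => capN c (Y a))) (he : Cmp bd e) (hZ : Cmp bd Z) (hr : Cmp bd r) :
    Cmp bd (fun a => MESH.sm v (capN c (Y a)) c (Nat.log 2 (Y a)) (e a) (Z a) (r a)) := by
  have hn : Cmp bd (fun a => Nat.log 2 (Y a)) := Cmp.log hY
  have hcn : Cmp bd (fun a => 2 ^ (c * Nat.log 2 (Y a))) := by
    refine Cmp.two_pow (Cmp.mul (Cmp.const c) hn) (Pb.of_le (fun a => ?_) hb)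
    exact two_pow_le_capN c (Y a) _ (Nat.lt_two_pow_self.le.trans (le_eight c _))
  have hN : Cmp bd (fun a => capN c (Y a)) :=
    Cmp.two_pow (Cmp.mul (Cmp.const _) hcn) hb
  have h2n : Cmp bd (fun a => 2 ^ Nat.log 2 (Y a)) := by
    refine Cmp.two_pow hn (Pb.of_le (fun a => ?_) hb)
    refine two_pow_le_capN c (Y a) _ (le_trans ?_ (le_eight c _))
    have := log_lt c (Y a) hc
    omega
  have hd : Cmp bd (fun a => (Nat.unpair (Nat.unpair (e a)).1).1) :=
    Cmp.unpair1 (Cmp.unpair1 he)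
  have hq : Cmp bd (fun a => (Nat.unpair (Nat.unpair (Nat.unpair (e a)).1).2).1) :=
    Cmp.unpair1 (Cmp.unpair2 (Cmp.unpair1 he))
  have hM : Cmp bd (fun a => (Nat.unpair (Nat.unpair (Nat.unpair (e a)).1).2).2) :=
    Cmp.unpair2 (Cmp.unpair2 (Cmp.unpair1 he))
  have hh : Cmp bd (fun a => hh c (Nat.log 2 (Y a))) := Cmp.div hcn hn.succ
  have hsw : Cmp bd (fun a => MESH.sw (Nat.log 2 (Y a))) := Cmp.succ (Cmp.log (Cmp.log hn))
  have hgg : Cmp bd (fun a => MESH.gg (Nat.log 2 (Y a))) := Cmp.div hn.succ hsw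
  have hκ : Cmp bd (fun a => MESH.kap (capN c (Y a)) c (Nat.unpair (Nat.unpair (e a)).1).1
      (Nat.log 2 (Y a))) := by
    refine Cmp.sum (h := fun x : α × ℕ =>
      if pw (capN c (Y x.1)) (4 * (x.2 + 1)) (Nat.unpair (Nat.unpair (e x.1)).1).1 *
        MESH.sw (Nat.log 2 (Y x.1)) ≤
          2 ^ (c * Nat.log 2 (Y x.1)) then 1 else 0) hcn ?_
    exact Cmp.ite (CmpP.le (Cmp.mul (Cmp.pw hN.wk1 (Cmp.mul (Cmp.const 4) (Cmp.i bd).succ)
      hd.wk1) hsw.wk1) hcn.wk1) (Cmp.const 1) (Cmp.const 0)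
  have hgr : Cmp bd (fun a => MESH.gr (capN c (Y a)) c (Nat.unpair (Nat.unpair (e a)).1).1
      (Nat.log 2 (Y a))) :=
    Cmp.succ (Cmp.div (Cmp.pw hN (Cmp.mul (Cmp.const 2) hκ) hd) hgg)
  have hp : Cmp bd (fun a => MESH.pp (capN c (Y a)) c (Nat.unpair (Nat.unpair (e a)).1).1
      (Nat.log 2 (Y a)) (Nat.unpair (Nat.unpair (Nat.unpair (e a)).1).2).1) :=
    Cmp.np (Cmp.add (Cmp.mul (Cmp.mul (Cmp.pw hN (Cmp.const 2) hd) hgr) (Cmp.pw hN hq hgg))
      (Cmp.const 2))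
  have hp1 : ∀ a, 1 ≤ MESH.pp (capN c (Y a)) c (Nat.unpair (Nat.unpair (e a)).1).1
      (Nat.log 2 (Y a)) (Nat.unpair (Nat.unpair (Nat.unpair (e a)).1).2).1 :=
    fun a => (np_prime (by omega)).1.one_le
  exact Cmp.ot v hN hp hp1 hκ hd hh hq hM hgg hgr (Cmp.add h2n hr) hZ

end

end Pool.Agent.helper39.MESH
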