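import Pool.Agent.helper12.SP.Defs

/-!
# Cellular automata in dimension `d`: definitions

Cellular automata on `ℤ ^ d` with advice; automata on numbers; the number-coded simulation algorithm
(catalytic recursion with `2 ^ d` children, blocks of side `2κ`).
-/

set_option autoImplicit false

namespace Pool.Agent.helper39.MESH

open Pool.Agent.helper12.SP (TM DSPACE Ctx Pb Cmp num pw dg pm up np)

/-! ### Cellular automata with advice -/

/-- A `d`-dimensional cellular automaton (on `ℤ ^ d`, radius 1, all `3 ^ d` neighbours) for languages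
over `Bool`, with advice. -/
structure Aut (d : ℕ) where
  /-- states -/
  Q : Type
  finQ : Finite Q
  /-- the state of the cells without input or advice at time 0 -/
  blank : Q
  /-- the states of the cells with an input bit at time 0 -/
  inp : Bool → Q
  /-- the states of the cells with an advice bit at time 0 -/
  adv : Bool → Q
  /-- the local rule: the new state of a cell, from the states of the cells in the directions
  `e ∈ {-1, 0, 1} ^ d` -/
  rule : ((Fin d → SignType) → Q) → Q
  /-- the answer given by the cell `0` in a state, if any -/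
  out : Q → Option Bool

namespace Aut

variable {d : ℕ} [NeZero d] (A : Aut d)

/-- The cells at time `0`: the input `w` is in the cells `(i, 0, …, 0)`, `0 ≤ i < |w|`, the advice `α`
in the cells `(-i, 0, …, 0)`, `1 ≤ i ≤ |α|`, all other cells are blank. -/
def cell (w α : List Bool) (x : Fin d → ℤ) : A.Q :=
  if ∀ j, j ≠ 0 → x j = 0 then
    match x 0 with
    | Int.ofNat i => (w[i]?).elim A.blank A.inp
    | Int.negSucc i => (α[i]?).elim A.blank A.adv
  else A.blank

/-- The state of the cell `x` at time `t`, on input `w` with advice `α`. -/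
def conf (w α : List Bool) : ℕ → (Fin d → ℤ) → A.Q
  | 0, x => A.cell w α x
  | t + 1, x => A.rule fun e => conf w α t fun j => x j + (e j : ℤ)

/-- On input `w` with advice `α`, the automaton gives its answer at time `t` and the answer is `b`:
the cell `0` is for the first time in a state with an answer. -/
def Answers (w α : List Bool) (t : ℕ) (b : Bool) : Prop :=
  A.out (A.conf w α t 0) = some b ∧ ∀ s < t, A.out (A.conf w α s 0) = none

end Aut

/-- Time `t` is allowed on inputs of length `n` in dimension `d`:
`t ^ d * (n + 1) ^ d * (log n + 1) ≤ 2 ^ ((d + 1) c n)` (the logarithm is rounded down). -/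
def InTime (c d n t : ℕ) : Prop :=
  t ^ d * ((n + 1) ^ d * (Nat.log 2 n + 1)) ≤ 2 ^ ((d + 1) * c * n)

/-! ### Cellular automata on numbers

Positions are functions `ℕ → ℤ`; the coordinates `j < d` matter. -/

/-- the state of a cell, from the states `s u` of its `D = 3 ^ d` neighbours; the rule is coded by
`(q, M)` -/
def ntr (q M D : ℕ) (s : ℕ → ℕ) : ℕ := M / q ^ (∑ u ∈ Finset.range D, s u * q ^ u) % q

/-- the neighbour number `u` of the cell `x` -/
def nbr (u : ℕ) (x : ℕ → ℤ) : ℕ → ℤ := fun j => x j + (u / 3 ^ j % 3 : ℕ) - 1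

/-- The cells at time `0`, for the input with code `X` and the advice with code `Z`. -/
def ncell (d X Z : ℕ) (x : ℕ → ℤ) : ℕ :=
  if ∀ j < d, j ≠ 0 → x j = 0 then Pool.Agent.helper12.SP.ncell X Z (x 0) else 0

/-- The state of the cell `x` at time `t`. -/
def nconf (d q M X Z : ℕ) : ℕ → (ℕ → ℤ) → ℕ
  | 0, x => ncell d X Z x
  | t + 1, x => ntr q M (3 ^ d) fun u => nconf d q M X Z t (nbr u x)

/-- The verdict of the state `a`: `1` means that the answer is no, `2` that it is yes. -/
def nvd (d q M a : ℕ) : ℕ := M / q ^ (q ^ 3 ^ d + a) % q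

/-! ### The number-coded simulation algorithm

All powers are capped by `N`.  The parameters are: `N` the cap, `p` the prime, `κ` (the blocks have
side `2κ`, a block step is `κ` steps), `d` the dimension, `h` the number of block steps, `(q, M)` the
code of the automaton, `g` the number of cells of a group, `G` the number of groups of a block (each
group is stored in one register), `X` the input, `Z` the advice, `F = 2 ^ d` the number of children,
`A` the base of the instruction numbers. -/

/-- the number with the digits `f 0, …, f (d - 1)` in base `S` -/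
def cb (N S d : ℕ) (f : ℕ → ℕ) : ℕ := ∑ j ∈ Finset.range d, f j * pw N S j

/-- the old cell in the direction `u` of the new cell `y`, in an array of side `S`: its digits are
`y_j + u_j - 2` -/
def od (N S d y u : ℕ) : ℕ := y + cb N S d (fun j => dg N 3 u j) - cb N S d (fun _ => 2)

/-- one step of the automaton on an array of side `S` (a number in base `q` with `S ^ d` digits) -/
def gs (N q M S d z : ℕ) : ℕ :=
  ∑ y ∈ Finset.range (pw N S d), (if cb N S d (fun _ => 2) ≤ y then
    dg N q M (∑ u ∈ Finset.range (pw N 3 d), dg N q z (od N S d y u) * pw N q u) else 0) * pw N q y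

/-- `m` steps of the automaton on an array -/
def gi (N q M S d z m : ℕ) : ℕ := Nat.rec z (fun _ ih => gs N q M S d ih) m

/-- the number of the child block containing the cell `y` of the array of side `4κ` -/
def ch (N κ d y : ℕ) : ℕ := cb N 2 d (fun j => if dg N (4 * κ) y j < 2 * κ then 1 else 0)

/-- the number of the cell `y` of the array in its child block -/
def nr (N κ d y : ℕ) : ℕ := cb N (2 * κ) d (fun j => dg N (4 * κ) y j % (2 * κ))

/-- the cell of the array which is the cell `i` of the new block -/
def ou (N κ d i : ℕ) : ℕ := cb N (4 * κ) d (fun j => 2 * κ + dg N (2 * κ) i j)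

/-- the array of side `4κ` whose blocks are given by the number `z`: the block number `e` has the
digits `e G g, …, (e + 1) G g - 1` of `z` -/
def ar (N κ d q g G z : ℕ) : ℕ :=
  ∑ y ∈ Finset.range (pw N (4 * κ) d),
    dg N q z (ch N κ d y * (G * g) + nr N κ d y) * pw N q y

/-- the group number `k` (of `g` cells) of the block reached from `z` after `κ` steps -/
def nw (N κ d q M g G z k : ℕ) : ℕ :=
  ∑ j ∈ Finset.range g, (if k * g + j < pw N (2 * κ) d then
    dg N q (gi N q M (4 * κ) d (ar N κ d q g G z) κ) (ou N κ d (k * g + j)) else 0) * pw N q j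

/-- the factor (modulo `p`) for the group value `v < Q`, the register `y` and the multiplier `m` -/
def lg (p Q y v m : ℕ) : ℕ :=
  Nat.rec (1 % p) (fun u ih => if u = v then ih else
    ih * ((y + (p - u * m % p)) * pm p (v + (p - u)) (p - 2) % p) % p) Q

/-- the product (modulo `p`) of the factors for all registers of the input banks, for the values
given by `z`; `Q = q ^ g` -/
def wt (N p G F Q m s o z : ℕ) : ℕ :=
  Nat.rec (1 % p) (fun w ih => ih * lg p Q (dg N p s ((o + 1 + w / G) % (F + 1) * G + w % G))
    (dg N Q z w) m % p) (F * G)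

/-- the part of the local operation for one number `z` -/
def lz (N p κ d q M g G o m z s : ℕ) : ℕ :=
  Nat.rec s (fun k ih => up N p ih (o * G + k)
    ((p - pm p m (p - 1 - pw N 2 d * G * (pw N q g - 1))) *
      wt N p G (pw N 2 d) (pw N q g) m ih o z % p * nw N κ d q M g G z k % p)) G

/-- the local operation with output bank `o` and multiplier `m` -/
def lo (N p κ d q M g G o m s : ℕ) : ℕ :=
  Nat.rec s (fun z ih => lz N p κ d q M g G o m z ih) (pw N (pw N q g) (pw N 2 d * G))

/-- the cell `i` of the leaf block reached by `c j` moves in the direction `-j`, `j < d` -/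
def lv (N κ d h X Z : ℕ) (c : ℕ → ℕ) (i : ℕ) : ℕ :=
  if ∀ j < d, j ≠ 0 → h * κ + dg N (2 * κ) i j = 2 * κ * c j then
    (if 2 * κ * c 0 ≤ h * κ + dg N (2 * κ) i 0 then
      (if h * κ + dg N (2 * κ) i 0 - 2 * κ * c 0 < Nat.log 2 X then
        1 + dg N 2 X (h * κ + dg N (2 * κ) i 0 - 2 * κ * c 0) else 0)
    else (if 2 * κ * c 0 - (h * κ + dg N (2 * κ) i 0) - 1 < Nat.log 2 Z then
        3 + dg N 2 Z (2 * κ * c 0 - (h * κ + dg N (2 * κ) i 0) - 1) else 0))
  else 0

/-- the leaf operation -/
def lf (N p κ d h q g G X Z : ℕ) (c : ℕ → ℕ) (o s : ℕ) : ℕ :=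
  Nat.rec s (fun k ih => up N p ih (o * G + k) (∑ j ∈ Finset.range g,
    (if k * g + j < pw N (2 * κ) d then lv N κ d h X Z c (k * g + j) else 0) * pw N q j)) G

/-- the slot (`e < F`: the call of the child `e`, `F`: the local operation) given by the digit number
`l` of `τ` in base `A` -/
def sl (N F A τ l : ℕ) : ℕ := τ / pw N A l % A % (F + 1)

/-- the number of calls on the way to the instruction number `τ` (levels are `h, h - 1, …`), looking
at the first `i` levels only -/
def tt (N F A h τ i : ℕ) : ℕ :=
  Nat.rec 0 (fun i ih => if ih = i ∧ sl N F A τ (h - 1 - i) ≠ F then ih + 1 else ih) i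

/-- the sum of the slots of the first `i` calls -/
def cs (N F A h τ i : ℕ) : ℕ := ∑ j ∈ Finset.range i, sl N F A τ (h - 1 - j)

/-- the number of moves in the direction `b` among the first `i` calls -/
def cc (N F A h τ i b : ℕ) : ℕ := ∑ j ∈ Finset.range i, dg N 2 (sl N F A τ (h - 1 - j)) b

/-- the instruction number `τ` -/
def st (N p κ d h q M g G X Z F A τ s : ℕ) : ℕ :=
  if tt N F A h τ h = h then
    lf N p κ d h q g G X Z (cc N F A h τ h) ((h + cs N F A h τ h) % (F + 1)) s
  else if τ % pw N A (h - 1 - tt N F A h τ h) = 0 then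
    lo N p κ d q M g G ((tt N F A h τ h + cs N F A h τ (tt N F A h τ h)) % (F + 1))
      (τ / pw N A (h - 1 - tt N F A h τ h) % A / (F + 1) + 1) s
  else s

/-- the contents of the registers after `m` instructions -/
def rn (N p κ d h q M g G X Z F A m : ℕ) : ℕ :=
  Nat.rec 0 (fun τ ih => st N p κ d h q M g G X Z F A τ ih) m

/-- the result: `1` if the verdict of the automaton after `h * κ` steps is `v`, else `0` -/
def ot (v N p κ d h q M g G X Z : ℕ) : ℕ :=
  if dg N q M (pw N q (pw N 3 d) + dg N p (rn N p κ d h q M g G X Z (pw N 2 d)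
      ((pw N 2 d + 1) * p) (pw N ((pw N 2 d + 1) * p) h)) 0 % q) = v then 1 else 0

/-! ### Abstract counterparts -/

/-- the move to the child `e` -/
def mv (N e : ℕ) (c : ℕ → ℕ) : ℕ → ℕ := fun j => c j + dg N 2 e j

/-- one instruction on the banks `S 0, …, S F` -/
def ast {V : Type} [AddCommGroup V] (N F A h : ℕ) (lea : (ℕ → ℕ) → V) (loc : ℕ → (ℕ → V) → V)
    (τ : ℕ) (S : ℕ → V) : ℕ → V :=
  if tt N F A h τ h = h then
    Function.update S ((h + cs N F A h τ h) % (F + 1))
      (S ((h + cs N F A h τ h) % (F + 1)) + lea (cc N F A h τ h))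
  else if τ % pw N A (h - 1 - tt N F A h τ h) = 0 then
    Function.update S ((tt N F A h τ h + cs N F A h τ (tt N F A h τ h)) % (F + 1))
      (S ((tt N F A h τ h + cs N F A h τ (tt N F A h τ h)) % (F + 1)) +
        loc (τ / pw N A (h - 1 - tt N F A h τ h) % A / (F + 1) + 1)
          (fun e => S (((tt N F A h τ h + cs N F A h τ (tt N F A h τ h)) % (F + 1) + 1 + e) % (F + 1))))
  else S

/-- the cell number `i` of the block reached by the moves `c`, after `l` block steps -/
def bcell (κ d h q M X Z l : ℕ) (c : ℕ → ℕ) (i : ℕ) : ℕ :=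
  nconf d q M X Z (l * κ) (fun j =>
    (h : ℤ) * κ - 2 * κ * c j + (i / (2 * κ) ^ j % (2 * κ) : ℕ) - l * κ)

/-- the group number `k` of the block reached by the moves `c`, after `l` block steps -/
def bgrp (κ d h q M X Z g l : ℕ) (c : ℕ → ℕ) (k : ℕ) : ℕ :=
  ∑ j ∈ Finset.range g, (if k * g + j < (2 * κ) ^ d then
    bcell κ d h q M X Z l c (k * g + j) else 0) * q ^ j

/-- the values of the registers for the block reached by the moves `c`, after `l` block steps -/
def bval (p κ d h q M X Z g G l : ℕ) (c : ℕ → ℕ) : ℕ → ZMod p := fun k =>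
  if k < G then (bgrp κ d h q M X Z g l c k : ℕ) else 0

/-- the factor for the group value `v < Q`, the register `y` and the multiplier `m` -/
def lag (p Q : ℕ) (y : ZMod p) (v m : ℕ) : ZMod p :=
  ∏ u ∈ Finset.range Q, if u = v then 1 else
    (y - (u : ZMod p) * m) * ((v : ZMod p) - u) ^ (p - 2)

/-- the local operation -/
def floc (N p κ d q M g G m : ℕ) (Y : ℕ → ℕ → ZMod p) : ℕ → ZMod p := fun k =>
  if k < G then ∑ z ∈ Finset.range ((q ^ g) ^ (2 ^ d * G)),
    - (m : ZMod p) ^ (p - 1 - 2 ^ d * G * (q ^ g - 1)) * (∏ w ∈ Finset.range (2 ^ d * G),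
      lag p (q ^ g) (Y (w / G) (w % G)) (dg N (q ^ g) z w) m) * (nw N κ d q M g G z k : ℕ)
  else 0

/-- the number `s` represents the contents of the `F + 1` banks -/
def Rep (N p F G s : ℕ) (S : ℕ → ℕ → ZMod p) : Prop :=
  s < p ^ ((F + 1) * G) ∧ ∀ k < F + 1, ∀ i < G, ((dg N p s (k * G + i) : ℕ) : ZMod p) = S k i

/-! ### The family of all automata -/

/-- the number of block steps for inputs of length `n` -/
def hh (c n : ℕ) : ℕ := 2 ^ (c * n) / (n + 1)

/-- the slowly growing function `log (log n) + 1` -/
def sw (n : ℕ) : ℕ := Nat.log 2 (Nat.log 2 n) + 1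

/-- the largest `κ` with `(4 κ) ^ d * (log (log n) + 1) ≤ 2 ^ (c n)` -/
def kap (N c d n : ℕ) : ℕ :=
  ∑ x ∈ Finset.range (2 ^ (c * n)),
    if pw N (4 * (x + 1)) d * sw n ≤ 2 ^ (c * n) then 1 else 0

/-- the number of cells of a group -/
def gg (n : ℕ) : ℕ := (n + 1) / sw n

/-- the number of groups of a block -/
def gr (N c d n : ℕ) : ℕ := pw N (2 * kap N c d n) d / gg n + 1

/-- the prime -/
def pp (N c d n q : ℕ) : ℕ := np (pw N 2 d * gr N c d n * pw N q (gg n) + 2)

/-- the simulated time -/
def tm (c d n : ℕ) : ℕ := hh c n * kap (2 ^ ((8 * (c + 8)) * 2 ^ (c * n))) c d n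

/-- the automaton with the dimension, the number of states and the rule coded by `e` -/
def sm (v N c n e Z r : ℕ) : ℕ :=
  ot v N (pp N c (Nat.unpair (Nat.unpair e).1).1 n (Nat.unpair (Nat.unpair (Nat.unpair e).1).2).1)
    (kap N c (Nat.unpair (Nat.unpair e).1).1 n)
    (Nat.unpair (Nat.unpair e).1).1 (hh c n) (Nat.unpair (Nat.unpair (Nat.unpair e).1).2).1
    (Nat.unpair (Nat.unpair (Nat.unpair e).1).2).2 (gg n) (gr N c (Nat.unpair (Nat.unpair e).1).1 n)
    (2 ^ n + r) Z

end Pool.Agent.helper39.MESH
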