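import Pool.Agent.helper39.MESH.Defs
import Pool.Agent.helper19.SP.Geo

/-!
# Module GEO: blocks of the automaton in dimension `d`
-/

set_option autoImplicit false

namespace Pool.Agent.helper39.MESH

open Pool.Agent.helper12.SP (TM DSPACE Ctx Pb Cmp num pw dg pm up np)

namespace GE

open Pool.Agent.helper12.SP.G (cod cod_lt cod_digit cod_digits eq_cod_iff dg_small dg_lt_cap dg_lt)

/-- without caps, `cb` is `cod` -/
theorem cb_eq_cod {N S d : ℕ} {f : ℕ → ℕ} (hS : 1 ≤ S) (hN : S ^ d ≤ N) :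
    cb N S d f = cod S d f := by
  unfold cb cod
  refine Finset.sum_congr rfl (fun j hj => ?_)
  have h : S ^ j ≤ N := (Nat.pow_le_pow_right hS (Finset.mem_range.mp hj).le).trans hN
  rw [show pw N S j = S ^ j from min_eq_left h]

theorem cb_lt {N S d : ℕ} {f : ℕ → ℕ} (hS : 1 ≤ S) (hN : S ^ d ≤ N) (hf : ∀ j < d, f j < S) :
    cb N S d f < S ^ d := by
  rw [cb_eq_cod hS hN]
  exact cod_lt hf

theorem cb_digit {N S d : ℕ} {f : ℕ → ℕ} (hS : 1 ≤ S) (hN : S ^ d ≤ N) (hf : ∀ j < d, f j < S)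
    {j : ℕ} (hj : j < d) : cb N S d f / S ^ j % S = f j := by
  rw [cb_eq_cod hS hN]
  exact cod_digit hf hj

theorem dg_eq {N S d : ℕ} (hS : 1 ≤ S) (hN : S ^ d ≤ N) {j : ℕ} (hj : j ≤ d) (y : ℕ) :
    dg N S y j = y / S ^ j % S :=
  dg_small ((Nat.pow_le_pow_right hS hj).trans hN)

/-- the state of a cell depends on the coordinates `j < d` only -/
theorem ncell_congr {d X Z : ℕ} (hd : 1 ≤ d) {x x' : ℕ → ℤ} (h : ∀ j < d, x j = x' j) :
    ncell d X Z x = ncell d X Z x' := by
  unfold ncell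
  rw [h 0 (by omega)]
  have : (∀ j < d, j ≠ 0 → x j = 0) ↔ (∀ j < d, j ≠ 0 → x' j = 0) := by
    constructor
    · intro H j hj hj0
      rw [← h j hj]; exact H j hj hj0
    · intro H j hj hj0
      rw [h j hj]; exact H j hj hj0
  simp only [this]

theorem nconf_congr {d q M X Z : ℕ} (hd : 1 ≤ d) (t : ℕ) :
    ∀ {x x' : ℕ → ℤ}, (∀ j < d, x j = x' j) → nconf d q M X Z t x = nconf d q M X Z t x' := by
  induction t with
  | zero =>
    intro x x' h
    exact ncell_congr hd h
  | succ t ih =>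
    intro x x' h
    unfold nconf
    congr 1
    funext u
    refine ih (fun j hj => ?_)
    unfold nbr
    rw [h j hj]

/-- the digits of one step of the automaton on an array -/
theorem gs_eq_cod {N q M S d z : ℕ} (hq : 0 < q) (hNS : S ^ d ≤ N)
    (hN : q ^ S ^ d ≤ N) :
    gs N q M S d z = cod q (S ^ d) (fun y => if cb N S d (fun _ => 2) ≤ y then
      dg N q M (∑ u ∈ Finset.range (pw N 3 d), dg N q z (od N S d y u) * pw N q u) else 0) := by
  unfold gs cod
  rw [show pw N S d = S ^ d from min_eq_left hNS]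
  refine Finset.sum_congr rfl (fun y hy => ?_)
  have h : q ^ y ≤ N := (Nat.pow_le_pow_right hq (Finset.mem_range.mp hy).le).trans hN
  rw [show pw N q y = q ^ y from min_eq_left h]

theorem cod_mono {S d : ℕ} {f g : ℕ → ℕ} (h : ∀ j < d, f j ≤ g j) : cod S d f ≤ cod S d g := by
  unfold cod
  exact Finset.sum_le_sum (fun j hj => Nat.mul_le_mul_right _ (h j (Finset.mem_range.mp hj)))

theorem cod_add {S d : ℕ} (f g : ℕ → ℕ) : cod S d f + cod S d g = cod S d (fun j => f j + g j) := by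
  unfold cod
  rw [← Finset.sum_add_distrib]
  exact Finset.sum_congr rfl (fun j _ => by ring)

/-- the old cell in the direction `u` -/
theorem od_eq {N S d y u : ℕ} (hS : 1 ≤ S) (hNS : S ^ d ≤ N) (hN3 : 3 ^ d ≤ N) (hy : y < S ^ d)
    (h2 : ∀ j < d, 2 ≤ y / S ^ j % S) :
    cb N S d (fun _ => 2) ≤ y ∧
      od N S d y u = cod S d (fun j => y / S ^ j % S + u / 3 ^ j % 3 - 2) := by
  have hyc : y = cod S d (fun j => y / S ^ j % S) := by
    rw [cod_digits, Nat.mod_eq_of_lt hy]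
  have e1 : cb N S d (fun _ => 2) = cod S d (fun _ => 2) := cb_eq_cod hS hNS
  have e2 : cb N S d (fun j => dg N 3 u j) = cod S d (fun j => u / 3 ^ j % 3) := by
    rw [cb_eq_cod hS hNS]
    unfold cod
    refine Finset.sum_congr rfl (fun j hj => ?_)
    dsimp only
    rw [dg_eq (by norm_num) hN3 (Finset.mem_range.mp hj).le]
  constructor
  · rw [e1]
    conv_rhs => rw [hyc]
    exact cod_mono h2
  · unfold od
    rw [e1, e2]
    have e3 : y + cod S d (fun j => u / 3 ^ j % 3) =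
        cod S d (fun _ => 2) + cod S d (fun j => y / S ^ j % S + u / 3 ^ j % 3 - 2) := by
      conv_lhs => rw [hyc]
      rw [cod_add, cod_add]
      unfold cod
      refine Finset.sum_congr rfl (fun j hj => ?_)
      have := h2 j (Finset.mem_range.mp hj)
      congr 1
      dsimp only
      omega
    rw [e3, Nat.add_sub_cancel_left]

/-- the array of the cells of the automaton after `m` steps, in skewed coordinates -/
theorem gi_digit {N q M X Z S d : ℕ} (hd : 1 ≤ d) (hq : 5 ≤ q) (hS : 3 ≤ S) (hNS : S ^ d ≤ N)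
    (hN : q ^ S ^ d ≤ N) (hM : M < N) (t : ℕ) (b : ℕ → ℤ)
    (z : ℕ) (hz : ∀ y < S ^ d, dg N q z y =
      nconf d q M X Z t (fun j => b j + (y / S ^ j % S : ℕ) - t)) (m : ℕ) :
    ∀ y < S ^ d, (∀ j < d, 2 * m ≤ y / S ^ j % S) →
      dg N q (gi N q M S d z m) y =
        nconf d q M X Z (t + m) (fun j => b j + (y / S ^ j % S : ℕ) - (t + m : ℕ)) := by
  have hq0 : 0 < q := by omega
  have hS1 : 1 ≤ S := by omega
  have h3S : 3 ^ d ≤ S ^ d := Nat.pow_le_pow_left hS d
  have hN3 : 3 ^ d ≤ N := h3S.trans hNS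
  induction m with
  | zero =>
    intro y hy _
    simpa [gi] using hz y hy
  | succ m ih =>
    intro y hy hmy
    have h1 : gi N q M S d z (m + 1) = gs N q M S d (gi N q M S d z m) := rfl
    have h2 : q ^ y ≤ N := (Nat.pow_le_pow_right hq0 hy.le).trans hN
    have h2y : ∀ j < d, 2 ≤ y / S ^ j % S := fun j hj => by have := hmy j hj; omega
    rw [h1, gs_eq_cod hq0 hNS hN, dg_small h2, cod_digit _ hy]
    · rw [if_pos (od_eq (u := 0) hS1 hNS hN3 hy h2y).1, dg_lt_cap hM]
      show _ = ntr q M (3 ^ d) _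
      unfold ntr
      congr 3
      rw [show pw N 3 d = 3 ^ d from min_eq_left hN3]
      refine Finset.sum_congr rfl (fun u hu => ?_)
      have hu' : u < 3 ^ d := Finset.mem_range.mp hu
      have h3 : q ^ u ≤ N := (Nat.pow_le_pow_right hq0 (hu'.le.trans h3S)).trans hN
      rw [show pw N q u = q ^ u from min_eq_left h3]
      congr 1
      have hodd : ∀ j < d, y / S ^ j % S + u / 3 ^ j % 3 - 2 < S := by
        intro j _
        have ha : y / S ^ j % S < S := Nat.mod_lt _ (by omega)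
        have hb : u / 3 ^ j % 3 < 3 := Nat.mod_lt _ (by norm_num)
        omega
      rw [(od_eq hS1 hNS hN3 hy h2y).2]
      rw [ih _ (cod_lt hodd) (fun j hj => ?_)]
      · refine nconf_congr hd _ (fun j hj => ?_)
        rw [cod_digit hodd hj]
        unfold nbr
        have := h2y j hj
        push_cast [Nat.cast_sub (show 2 ≤ y / S ^ j % S + u / 3 ^ j % 3 by omega)]
        ring
      · rw [cod_digit hodd hj]
        have := hmy j hj
        omega
    · intro j _
      split_ifs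
      · exact dg_lt hq0
      · exact hq0

end GE

open Pool.Agent.helper12.SP.G (cod cod_lt cod_digit cod_digits eq_cod_iff dg_small dg_lt_cap dg_lt)

/-- the number of the child block of a cell is less than `2 ^ d` -/
theorem ch_lt {N κ d : ℕ} (hN : 2 ^ d ≤ N) (y : ℕ) : ch N κ d y < 2 ^ d := by
  unfold ch
  refine GE.cb_lt (by norm_num) hN (fun j _ => ?_)
  split_ifs <;> norm_num

/-- the number of a cell in its child block is less than `(2 κ) ^ d` -/
theorem nr_lt {N κ d : ℕ} (hκ : 1 ≤ κ) (hN : (2 * κ) ^ d ≤ N) (y : ℕ) :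
    nr N κ d y < (2 * κ) ^ d := by
  unfold nr
  exact GE.cb_lt (by omega) hN (fun j _ => Nat.mod_lt _ (by omega))

theorem floc_congr {N p κ d q M g G m : ℕ} (hG : 1 ≤ G) {Y Y' : ℕ → ℕ → ZMod p}
    (hY : ∀ e < 2 ^ d, Y e = Y' e) :
    floc N p κ d q M g G m Y = floc N p κ d q M g G m Y' := by
  unfold floc
  funext k
  have h : ∀ z, (∏ w ∈ Finset.range (2 ^ d * G),
      lag p (q ^ g) (Y (w / G) (w % G)) (dg N (q ^ g) z w) m) =
      ∏ w ∈ Finset.range (2 ^ d * G),
        lag p (q ^ g) (Y' (w / G) (w % G)) (dg N (q ^ g) z w) m := by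
    intro z
    refine Finset.prod_congr rfl fun w hw => ?_
    rw [hY _ ((Nat.div_lt_iff_lt_mul (by omega)).2 (Finset.mem_range.1 hw))]
  simp only [h]

theorem nconf_lt {d q M X Z : ℕ} (hq : 5 ≤ q) (t : ℕ) (x : ℕ → ℤ) : nconf d q M X Z t x < q := by
  cases t with
  | zero =>
    unfold nconf ncell
    split_ifs
    · exact Pool.Agent.helper12.SP.G.nconf_lt (q := q) (M := M) hq 0 (x 0)
    · omega
  | succ t =>
    unfold nconf ntr
    exact Nat.mod_lt _ (by omega)

/-! ### Interpolation -/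

/-- the interpolation identity for a product over a finite set -/
theorem sum_mu_set {p : ℕ} [Fact p.Prime] {ι : Type} (s : Finset ι) (hD : 1 ≤ s.card)
    (hp : s.card + 2 ≤ p) (R e : ι → ZMod p) :
    ∑ m ∈ Finset.range p, ((m + 1 : ℕ) : ZMod p) ^ (p - 1 - s.card) *
      ∏ i ∈ s, (R i + ((m + 1 : ℕ) : ZMod p) * e i) = - ∏ i ∈ s, e i := by
  classical
  obtain ⟨i0, -⟩ := Finset.card_pos.1 hD
  obtain ⟨φ, hφ⟩ : ∃ φ : ℕ → ι, ∀ f : ι → ZMod p,
      ∏ i ∈ s, f i = ∏ j ∈ Finset.range s.card, f (φ j) := by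
    refine ⟨fun j => if h : j < s.card then (s.equivFin.symm ⟨j, h⟩ : ι) else i0, fun f => ?_⟩
    rw [Finset.prod_range, ← Finset.prod_coe_sort s f, ← Equiv.prod_comp s.equivFin.symm]
    refine Finset.prod_congr rfl fun j _ => ?_
    dsimp only
    rw [dif_pos j.2]
  rw [hφ e]
  have h := Pool.Agent.helper12.SP.sum_mu (p := p) s.card hD hp (fun j => R (φ j))
    (fun j => e (φ j))
  rw [← h]
  exact Finset.sum_congr rfl fun m _ => by rw [hφ]

theorem lag_eq {p Q : ℕ} (y : ZMod p) {v : ℕ} (hv : v < Q) (m : ℕ) :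
    lag p Q y v m = ∏ u ∈ (Finset.range Q).erase v,
      (y - (u : ZMod p) * m) * ((v : ZMod p) - u) ^ (p - 2) := by
  unfold lag
  rw [← Finset.mul_prod_erase _ _ (Finset.mem_range.2 hv), if_pos rfl, one_mul]
  exact Finset.prod_congr rfl fun u hu => by rw [if_neg (Finset.ne_of_mem_erase hu)]

/-- summing the product of the factors over the multipliers: the result tells whether the values are
the right ones -/
theorem lag_sum {p : ℕ} [Fact p.Prime] {W Q : ℕ} (hW : 1 ≤ W) (hQ : 2 ≤ Q)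
    (hp : W * (Q - 1) + 2 ≤ p) (hQp : Q ≤ p) (v X : ℕ → ℕ) (hv : ∀ w < W, v w < Q)
    (hX : ∀ w < W, X w < Q) (R : ℕ → ZMod p) :
    ∑ m ∈ Finset.range p, ((m + 1 : ℕ) : ZMod p) ^ (p - 1 - W * (Q - 1)) *
      ∏ w ∈ Finset.range W, lag p Q (R w + (m + 1) • (X w : ZMod p)) (v w) (m + 1) =
      - (if ∀ w < W, X w = v w then 1 else 0) := by
  classical
  have hpp : p.Prime := Fact.out
  set s : Finset (Σ _ : ℕ, ℕ) := (Finset.range W).sigma fun w => (Finset.range Q).erase (v w)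
    with hs
  have hcard : s.card = W * (Q - 1) := by
    rw [hs, Finset.card_sigma, Finset.sum_congr rfl (g := fun _ => Q - 1), Finset.sum_const,
      Finset.card_range, smul_eq_mul]
    intro w hw
    rw [Finset.card_erase_of_mem (Finset.mem_range.2 (hv w (Finset.mem_range.1 hw))),
      Finset.card_range]
  have h1 := sum_mu_set s (by rw [hcard]; exact Nat.mul_pos hW (by omega)) (by rw [hcard]; exact hp)
    (fun i => R i.1 * ((v i.1 : ZMod p) - (i.2 : ZMod p)) ^ (p - 2))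
    (fun i => ((X i.1 : ZMod p) - (i.2 : ZMod p)) * ((v i.1 : ZMod p) - (i.2 : ZMod p)) ^ (p - 2))
  rw [hcard] at h1
  have h2 : ∀ m : ℕ, ∏ w ∈ Finset.range W, lag p Q (R w + (m + 1) • (X w : ZMod p)) (v w) (m + 1) =
      ∏ i ∈ s, (R i.1 * ((v i.1 : ZMod p) - (i.2 : ZMod p)) ^ (p - 2) + ((m + 1 : ℕ) : ZMod p) *
        (((X i.1 : ZMod p) - (i.2 : ZMod p)) * ((v i.1 : ZMod p) - (i.2 : ZMod p)) ^ (p - 2))) := by
    intro m
    rw [hs, Finset.prod_sigma]
    refine Finset.prod_congr rfl fun w hw => ?_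
    rw [lag_eq _ (hv w (Finset.mem_range.1 hw))]
    refine Finset.prod_congr rfl fun u _ => ?_
    rw [nsmul_eq_mul]
    ring
  simp only [h2]
  rw [h1]
  congr 1
  -- equality of numbers modulo `p`
  have hinj : ∀ {a b : ℕ}, a < Q → b < Q → ((a : ZMod p) = b ↔ a = b) := by
    intro a b ha hb
    rw [ZMod.natCast_eq_natCast_iff', Nat.mod_eq_of_lt (by omega), Nat.mod_eq_of_lt (by omega)]
  rw [hs, Finset.prod_sigma]
  by_cases hall : ∀ w < W, X w = v w
  · rw [if_pos hall]
    refine Finset.prod_eq_one fun w hw => Finset.prod_eq_one fun u hu => ?_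
    have hw' := Finset.mem_range.1 hw
    have hne : ((v w : ZMod p) - u) ≠ 0 := by
      rw [sub_ne_zero, Ne, hinj (hv w hw') (Finset.mem_range.1 (Finset.mem_of_mem_erase hu))]
      exact fun h => Finset.ne_of_mem_erase hu h.symm
    show ((X w : ZMod p) - u) * ((v w : ZMod p) - u) ^ (p - 2) = 1
    rw [hall w hw', ← pow_succ', show p - 2 + 1 = p - 1 by have := hpp.two_le; omega]
    exact ZMod.pow_card_sub_one_eq_one hne
  · rw [if_neg hall]
    push Not at hall
    obtain ⟨w, hw, hne⟩ := hall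
    refine Finset.prod_eq_zero (Finset.mem_range.2 hw) ?_
    refine Finset.prod_eq_zero (i := X w)
      (Finset.mem_erase.2 ⟨hne, Finset.mem_range.2 (hX w hw)⟩) ?_
    show ((X w : ZMod p) - X w) * ((v w : ZMod p) - X w) ^ (p - 2) = 0
    rw [sub_self, zero_mul]

/-! ### The digits of the numbers -/

section digits

variable {N κ d h q M X Z g G : ℕ}

theorem bcell_lt (hq : 5 ≤ q) (l : ℕ) (c : ℕ → ℕ) (i : ℕ) : bcell κ d h q M X Z l c i < q :=
  nconf_lt hq _ _

theorem bgrp_lt (hq : 5 ≤ q) (l : ℕ) (c : ℕ → ℕ) (k : ℕ) :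
    bgrp κ d h q M X Z g l c k < q ^ g := by
  refine cod_lt (d := fun j => if k * g + j < (2 * κ) ^ d then
    bcell κ d h q M X Z l c (k * g + j) else 0) fun j _ => ?_
  split_ifs
  · exact bcell_lt hq _ _ _
  · omega

theorem bgrp_digit (hq : 5 ≤ q) (l : ℕ) (c : ℕ → ℕ) {k j : ℕ} (hj : j < g)
    (hk : k * g + j < (2 * κ) ^ d) :
    bgrp κ d h q M X Z g l c k / q ^ j % q = bcell κ d h q M X Z l c (k * g + j) := by
  have h1 := cod_digit (q := q) (D := g) (d := fun j => if k * g + j < (2 * κ) ^ d then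
    bcell κ d h q M X Z l c (k * g + j) else 0) (fun j _ => by
      split_ifs
      · exact bcell_lt hq _ _ _
      · omega) hj
  rw [if_pos hk] at h1
  exact h1

/-- the digits of the array -/
theorem ar_digit (hq : 5 ≤ q) (hN : q ^ (4 * κ) ^ d ≤ N) (z : ℕ) {y : ℕ} (hy : y < (4 * κ) ^ d) :
    dg N q (ar N κ d q g G z) y = dg N q z (ch N κ d y * (G * g) + nr N κ d y) := by
  have hq0 : 0 < q := by omega
  have hNS : (4 * κ) ^ d ≤ N := (Nat.lt_pow_self (by omega : 1 < q)).le.trans hN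
  have e : ar N κ d q g G z = cod q ((4 * κ) ^ d)
      (fun y => dg N q z (ch N κ d y * (G * g) + nr N κ d y)) := by
    unfold ar cod
    rw [show pw N (4 * κ) d = (4 * κ) ^ d from min_eq_left hNS]
    refine Finset.sum_congr rfl fun y hy => ?_
    have h : q ^ y ≤ N := (Nat.pow_le_pow_right hq0 (Finset.mem_range.1 hy).le).trans hN
    rw [show pw N q y = q ^ y from min_eq_left h]
  rw [e, dg_small ((Nat.pow_le_pow_right hq0 hy.le).trans hN), cod_digit (fun j _ => dg_lt hq0) hy]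

/-- digits of digits -/
theorem digit_digit (q g z w : ℕ) {j : ℕ} (hj : j < g) :
    z / q ^ (g * w + j) % q = z / (q ^ g) ^ w % q ^ g / q ^ j % q := by
  have e1 : z / q ^ (g * w + j) = z / (q ^ g) ^ w / q ^ j := by
    rw [pow_add, pow_mul, Nat.div_div_eq_div_mul]
  obtain ⟨k, hk⟩ : ∃ k, g = j + (1 + k) := ⟨g - j - 1, by omega⟩
  rw [e1]
  set u := z / (q ^ g) ^ w
  have e2 : q ^ g = q ^ j * (q * q ^ k) := by rw [hk]; ring
  rw [e2, Nat.mod_mul_right_div_self, Nat.mod_mul_right_mod]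

end digits

/-- summing the local operation over the multipliers gives the block of the automaton reached after
one more block step -/
theorem geo {N p κ d h q M X Z g G : ℕ} (hp : p.Prime)
    (h1 : 2 ^ d * G * (q ^ g - 1) + 2 ≤ p) (hQp : q ^ g ≤ p) (hκ : 1 ≤ κ)
    (hd : 1 ≤ d) (hq : 5 ≤ q) (hg : 1 ≤ g) (hG : (2 * κ) ^ d ≤ G * g)
    (hN : q ^ (4 * κ) ^ d ≤ N) (hN' : (q ^ g) ^ (2 ^ d * G) ≤ N) (hM : M < N) (l : ℕ) (c : ℕ → ℕ)
    (R : ℕ → ℕ → ZMod p) :
    ∑ m ∈ Finset.range p, floc N p κ d q M g G (m + 1)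
      (fun e => R e + (m + 1) • bval p κ d h q M X Z g G l (mv N e c)) =
        bval p κ d h q M X Z g G (l + 1) c := by
  have : Fact p.Prime := ⟨hp⟩
  have hq0 : 0 < q := by omega
  have hS1 : 1 ≤ 4 * κ := by omega
  have hNS : (4 * κ) ^ d ≤ N := (Nat.lt_pow_self (by omega : 1 < q)).le.trans hN
  have hN2κ : (2 * κ) ^ d ≤ N := (Nat.pow_le_pow_left (by omega) d).trans hNS
  have hN2 : 2 ^ d ≤ N := (Nat.pow_le_pow_left (by omega) d).trans hN2κ
  have hB1 : 1 ≤ (2 * κ) ^ d := Nat.one_le_pow _ _ (by omega)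
  have hG1 : 1 ≤ G := by
    rcases Nat.eq_zero_or_pos G with h0 | h0
    · rw [h0, Nat.zero_mul] at hG
      omega
    · exact h0
  have hF1 : 1 ≤ 2 ^ d := Nat.one_le_two_pow
  have hW1 : 1 ≤ 2 ^ d * G := Nat.mul_pos hF1 hG1
  have hQ2 : 2 ≤ q ^ g := (by omega : 2 ≤ q).trans (Nat.le_self_pow (by omega) q)
  -- the cells of the blocks
  set base : ℕ → ℤ := fun j => (h : ℤ) * κ - 2 * κ * ((c j : ℤ) + 1) with hbase
  set v : ℕ → ℕ := fun y => nconf d q M X Z (l * κ)
    (fun j => base j + (y / (4 * κ) ^ j % (4 * κ) : ℕ) - (l * κ : ℕ)) with hv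
  have hcell : ∀ y, bcell κ d h q M X Z l (mv N (ch N κ d y) c) (nr N κ d y) = v y := by
    intro y
    rw [hv]
    unfold bcell
    refine GE.nconf_congr hd _ (fun j hj => ?_)
    have e2 : nr N κ d y / (2 * κ) ^ j % (2 * κ) = y / (4 * κ) ^ j % (4 * κ) % (2 * κ) := by
      unfold nr
      rw [GE.cb_digit (by omega) hN2κ (fun j _ => Nat.mod_lt _ (by omega)) hj,
        GE.dg_eq hS1 hNS hj.le]
    have e3 : dg N 2 (ch N κ d y) j = if y / (4 * κ) ^ j % (4 * κ) < 2 * κ then 1 else 0 := by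
      rw [GE.dg_eq (by norm_num) hN2 hj.le]
      unfold ch
      rw [GE.cb_digit (by norm_num) hN2 (fun j _ => by split_ifs <;> norm_num) hj,
        GE.dg_eq hS1 hNS hj.le]
    rw [e2]
    unfold mv
    rw [e3]
    have hlt : y / (4 * κ) ^ j % (4 * κ) < 4 * κ := Nat.mod_lt _ (by omega)
    rw [hbase]
    by_cases hy : y / (4 * κ) ^ j % (4 * κ) < 2 * κ
    · rw [if_pos hy, Nat.mod_eq_of_lt hy]
      push_cast
      ring
    · rw [if_neg hy, Nat.mod_eq_sub_mod (by omega), Nat.mod_eq_of_lt (by omega)]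
      push_cast [Nat.cast_sub (show 2 * κ ≤ y / (4 * κ) ^ j % (4 * κ) by omega)]
      ring
  -- the groups of the children
  set XX : ℕ → ℕ := fun w => bgrp κ d h q M X Z g l (mv N (w / G) c) (w % G) with hXX
  have hXXlt : ∀ w < 2 ^ d * G, XX w < q ^ g := fun w _ => bgrp_lt hq _ _ _
  have hbv : ∀ w < 2 ^ d * G, bval p κ d h q M X Z g G l (mv N (w / G) c) (w % G) =
      (XX w : ZMod p) := by
    intro w _
    unfold bval
    rw [if_pos (Nat.mod_lt _ hG1)]
  set zz : ℕ := cod (q ^ g) (2 ^ d * G) XX with hzz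
  have hdgQ : ∀ z, ∀ w < 2 ^ d * G, dg N (q ^ g) z w = z / (q ^ g) ^ w % q ^ g := fun z w hw =>
    dg_small ((Nat.pow_le_pow_right (by omega) hw.le).trans hN')
  funext k
  rw [Finset.sum_apply]
  unfold floc
  by_cases hk : k < G
  swap
  · simp only [if_neg hk, Finset.sum_const_zero, bval]
  simp only [if_pos hk]
  rw [Finset.sum_comm]
  have key : ∀ z ∈ Finset.range ((q ^ g) ^ (2 ^ d * G)),
      (∑ m ∈ Finset.range p, - ((m + 1 : ℕ) : ZMod p) ^ (p - 1 - 2 ^ d * G * (q ^ g - 1)) *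
        (∏ w ∈ Finset.range (2 ^ d * G), lag p (q ^ g)
          ((R (w / G) + (m + 1) • bval p κ d h q M X Z g G l (mv N (w / G) c)) (w % G))
            (dg N (q ^ g) z w) (m + 1)) * (nw N κ d q M g G z k : ℕ)) =
      if z = zz then (nw N κ d q M g G zz k : ZMod p) else 0 := by
    intro z hz
    have hz' : z < (q ^ g) ^ (2 ^ d * G) := Finset.mem_range.mp hz
    have h2 := lag_sum (p := p) hW1 hQ2 h1 hQp (fun w => dg N (q ^ g) z w) XX
      (fun w _ => dg_lt (by omega)) hXXlt (fun w => R (w / G) (w % G))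
    have h3 : ∀ m : ℕ, (∏ w ∈ Finset.range (2 ^ d * G), lag p (q ^ g)
          ((R (w / G) + (m + 1) • bval p κ d h q M X Z g G l (mv N (w / G) c)) (w % G))
            (dg N (q ^ g) z w) (m + 1)) =
        ∏ w ∈ Finset.range (2 ^ d * G), lag p (q ^ g) (R (w / G) (w % G) +
          (m + 1) • (XX w : ZMod p)) (dg N (q ^ g) z w) (m + 1) := by
      intro m
      refine Finset.prod_congr rfl fun w hw => ?_
      rw [Pi.add_apply, Pi.smul_apply, hbv w (Finset.mem_range.1 hw)]
    simp only [h3]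
    have h4 : (∑ m ∈ Finset.range p, - ((m + 1 : ℕ) : ZMod p) ^ (p - 1 - 2 ^ d * G * (q ^ g - 1)) *
        (∏ w ∈ Finset.range (2 ^ d * G), lag p (q ^ g) (R (w / G) (w % G) +
          (m + 1) • (XX w : ZMod p)) (dg N (q ^ g) z w) (m + 1)) * (nw N κ d q M g G z k : ℕ)) =
        - (∑ m ∈ Finset.range p, ((m + 1 : ℕ) : ZMod p) ^ (p - 1 - 2 ^ d * G * (q ^ g - 1)) *
        ∏ w ∈ Finset.range (2 ^ d * G), lag p (q ^ g) (R (w / G) (w % G) +
          (m + 1) • (XX w : ZMod p)) (dg N (q ^ g) z w) (m + 1)) * (nw N κ d q M g G z k : ℕ) := by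
      rw [← Finset.sum_neg_distrib, Finset.sum_mul]
      exact Finset.sum_congr rfl fun m _ => by ring
    rw [h4, h2, neg_neg]
    by_cases hzc : z = zz
    · rw [if_pos hzc, if_pos, one_mul, hzc]
      intro w hw
      rw [hdgQ z w hw]
      exact (eq_cod_iff hXXlt hz').mpr hzc w hw
    · rw [if_neg hzc, if_neg, zero_mul]
      intro H
      refine hzc ((eq_cod_iff hXXlt hz').mp fun w hw => ?_)
      rw [← hdgQ z w hw]
      exact H w hw
  rw [Finset.sum_congr rfl key, Finset.sum_ite_eq', if_pos (Finset.mem_range.mpr (cod_lt hXXlt))]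
  unfold bval
  rw [if_pos hk]
  congr 1
  -- the cells of the array
  have hcellz : ∀ y < (4 * κ) ^ d, dg N q (ar N κ d q g G zz) y = v y := by
    intro y hy
    rw [ar_digit hq hN _ hy]
    have hnr := nr_lt (d := d) hκ hN2κ y
    have hch := ch_lt (κ := κ) hN2 y
    have hng : nr N κ d y / g < G :=
      (Nat.div_lt_iff_lt_mul (by omega)).2 (lt_of_lt_of_le hnr hG)
    have hmod : nr N κ d y % g < g := Nat.mod_lt _ (by omega)
    have hw : ch N κ d y * G + nr N κ d y / g < 2 ^ d * G := by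
      have : (ch N κ d y + 1) * G ≤ 2 ^ d * G := Nat.mul_le_mul_right _ hch
      rw [add_mul, one_mul] at this
      omega
    have e1 : ch N κ d y * (G * g) + nr N κ d y =
        g * (ch N κ d y * G + nr N κ d y / g) + nr N κ d y % g := by
      have := Nat.div_add_mod (nr N κ d y) g
      calc ch N κ d y * (G * g) + nr N κ d y
          = ch N κ d y * (G * g) + (g * (nr N κ d y / g) + nr N κ d y % g) := by rw [this]
        _ = _ := by ring
    have e2 : q ^ (g * (ch N κ d y * G + nr N κ d y / g) + nr N κ d y % g) ≤ N := by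
      refine le_trans ?_ hN'
      rw [← pow_mul]
      refine Nat.pow_le_pow_right hq0 ?_
      calc g * (ch N κ d y * G + nr N κ d y / g) + nr N κ d y % g
          ≤ g * (ch N κ d y * G + nr N κ d y / g) + g := by omega
        _ = g * (ch N κ d y * G + nr N κ d y / g + 1) := by ring
        _ ≤ g * (2 ^ d * G) := Nat.mul_le_mul_left _ hw
    have e3 : (ch N κ d y * G + nr N κ d y / g) / G = ch N κ d y := by
      rw [Nat.mul_comm, Nat.mul_add_div hG1, Nat.div_eq_of_lt hng, add_zero]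
    have e4 : (ch N κ d y * G + nr N κ d y / g) % G = nr N κ d y / g := by
      rw [Nat.mul_comm, Nat.mul_add_mod, Nat.mod_eq_of_lt hng]
    have e5 : nr N κ d y / g * g + nr N κ d y % g = nr N κ d y := by
      have := Nat.div_add_mod (nr N κ d y) g
      rw [Nat.mul_comm]
      exact this
    rw [e1, dg_small e2, digit_digit q g _ _ hmod, cod_digit hXXlt hw, hXX]
    dsimp only
    rw [e3, e4, bgrp_digit hq _ _ hmod (by rw [e5]; exact hnr), e5, hcell]
  unfold nw bgrp
  rw [show pw N (2 * κ) d = (2 * κ) ^ d from min_eq_left hN2κ]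
  refine Finset.sum_congr rfl fun j hj => ?_
  have hj' := Finset.mem_range.1 hj
  have hqj : q ^ j ≤ N := by
    refine le_trans ?_ hN'
    rw [← pow_mul]
    exact Nat.pow_le_pow_right hq0 (hj'.le.trans (Nat.le_mul_of_pos_right _ hW1))
  rw [show pw N q j = q ^ j from min_eq_left hqj]
  by_cases hi : k * g + j < (2 * κ) ^ d
  swap
  · rw [if_neg hi, if_neg hi]
  rw [if_pos hi, if_pos hi]
  congr 1
  set i := k * g + j with hidef
  -- the new cell
  have hidg : ∀ j < d, dg N (2 * κ) i j = i / (2 * κ) ^ j % (2 * κ) :=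
    fun j hj => GE.dg_eq (by omega) hN2κ hj.le i
  have houf : ∀ j < d, 2 * κ + dg N (2 * κ) i j < 4 * κ := by
    intro j _
    have : dg N (2 * κ) i j < 2 * κ := dg_lt (by omega)
    omega
  have hou : ou N κ d i < (4 * κ) ^ d := by
    unfold ou
    exact GE.cb_lt hS1 hNS houf
  have houd : ∀ j < d, ou N κ d i / (4 * κ) ^ j % (4 * κ) = 2 * κ + i / (2 * κ) ^ j % (2 * κ) := by
    intro j hj
    unfold ou
    rw [GE.cb_digit hS1 hNS houf hj, hidg j hj]
  have hfin := GE.gi_digit (X := X) (Z := Z) hd hq (by omega : 3 ≤ 4 * κ) hNS hN hM (l * κ) base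
    (ar N κ d q g G zz) hcellz κ (ou N κ d i) hou (fun j hj => by rw [houd j hj]; omega)
  rw [hfin]
  unfold bcell
  have e1 : (l + 1) * κ = l * κ + κ := by ring
  rw [e1]
  refine GE.nconf_congr hd _ (fun j hj => ?_)
  rw [houd j hj, hbase]
  push_cast
  ring

/-- the cells of the leaf blocks -/
theorem lv_eq {N κ d h X Z i : ℕ} (hκ : 1 ≤ κ) (hd : 1 ≤ d) (hN : (2 * κ) ^ d ≤ N) (hX : X < N)
    (hZ : Z < N) (hi : i < (2 * κ) ^ d) (c : ℕ → ℕ) :
    lv N κ d h X Z c i =
      ncell d X Z (fun j => (h : ℤ) * κ - 2 * κ * c j + (i / (2 * κ) ^ j % (2 * κ) : ℕ)) := by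
  have _ := hi
  unfold lv ncell
  have hdg : ∀ j < d, dg N (2 * κ) i j = i / (2 * κ) ^ j % (2 * κ) :=
    fun j hj => GE.dg_eq (by omega) hN hj.le i
  have hcond : (∀ j < d, j ≠ 0 → h * κ + dg N (2 * κ) i j = 2 * κ * c j) ↔
      (∀ j < d, j ≠ 0 → (h : ℤ) * κ - 2 * κ * c j + (i / (2 * κ) ^ j % (2 * κ) : ℕ) = 0) := by
    refine forall_congr' (fun j => forall_congr' (fun hj => forall_congr' (fun _ => ?_)))
    rw [hdg j hj]
    constructor
    · intro H
      have : ((h * κ + i / (2 * κ) ^ j % (2 * κ) : ℕ) : ℤ) = ((2 * κ * c j : ℕ) : ℤ) := by rw [H]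
      push_cast at this ⊢
      linarith
    · intro H
      have : ((h * κ + i / (2 * κ) ^ j % (2 * κ) : ℕ) : ℤ) = ((2 * κ * c j : ℕ) : ℤ) := by
        push_cast at H ⊢
        linarith
      exact_mod_cast this
  by_cases hc : ∀ j < d, j ≠ 0 → h * κ + dg N (2 * κ) i j = 2 * κ * c j
  swap
  · rw [if_neg hc, if_neg (fun H => hc (hcond.mpr H))]
  rw [if_pos hc, if_pos (hcond.mp hc), hdg 0 (by omega)]
  set r : ℕ := i / (2 * κ) ^ 0 % (2 * κ) with hr
  show _ = Pool.Agent.helper12.SP.ncell X Z ((h : ℤ) * κ - 2 * κ * c 0 + (r : ℕ))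
  by_cases hc0 : 2 * κ * c 0 ≤ h * κ + r
  · have e : (h : ℤ) * κ - 2 * κ * c 0 + (r : ℕ) = Int.ofNat (h * κ + r - 2 * κ * c 0) := by
      simp only [Int.ofNat_eq_natCast]
      push_cast [Nat.cast_sub hc0]
      ring
    rw [if_pos hc0, e]
    simp only [Pool.Agent.helper12.SP.ncell, dg_lt_cap hX]
  · have e : (h : ℤ) * κ - 2 * κ * c 0 + (r : ℕ) =
        Int.negSucc (2 * κ * c 0 - (h * κ + r) - 1) := by
      rw [Int.negSucc_eq]
      have h4 : ((2 * κ * c 0 - (h * κ + r) - 1 : ℕ) : ℤ) =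
          2 * κ * c 0 - ((h : ℤ) * κ + r) - 1 := by
        rw [Nat.cast_sub (by omega), Nat.cast_sub (by omega)]
        push_cast
        ring
      rw [h4]; ring
    rw [if_neg hc0, e]
    simp only [Pool.Agent.helper12.SP.ncell, dg_lt_cap hZ]

end Pool.Agent.helper39.MESH
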