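import Pool.Agent.helper39.MESH.Defs

/-!
# Multi-tape machines with `d`-dimensional work tapes
-/

set_option autoImplicit false

namespace Pool.Agent.helper39.MESH

/-- A deterministic Turing machine with a two-way read-only tape, which holds the input and the
advice, and `k` work tapes of dimension `d` (all tapes are infinite in all directions).  In a state
`q`, reading the symbol `a` on the read-only tape and the work tape symbols `x`, the machine halts if
`δ q a x = none`; otherwise it gets the new state, the symbols written on the work tapes, the move of
the head of the read-only tape and the moves of the work heads (each coordinate changes by at most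
`1`). -/
structure Mach (d : ℕ) where
  /-- number of work tapes -/
  k : ℕ
  /-- states -/
  Q : Type
  /-- work tape symbols -/
  Γ : Type
  finQ : Finite Q
  finΓ : Finite Γ
  /-- blank symbol -/
  blank : Γ
  /-- initial state -/
  start : Q
  /-- accepting states -/
  acc : Set Q
  /-- transition function -/
  δ : Q → Option (Bool ⊕ Bool) → (Fin k → Γ) →
    Option (Q × (Fin k → Γ) × SignType × (Fin k → Fin d → SignType))

namespace Mach

variable {d : ℕ}

/-- A configuration. -/
structure Cfg (M : Mach d) where
  /-- state -/
  q : M.Q
  /-- position of the head of the read-only tape -/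
  pos : ℤ
  /-- contents of the work tapes -/
  tape : Fin M.k → (Fin d → ℤ) → M.Γ
  /-- positions of the work heads -/
  head : Fin M.k → Fin d → ℤ

/-- The read-only tape: the input `w` is in the cells `i`, `0 ≤ i < |w|`, the advice `α` in the cells
`-i`, `1 ≤ i ≤ |α|`; `inl` marks the input bits, `inr` the advice bits. -/
def rd (w α : List Bool) : ℤ → Option (Bool ⊕ Bool)
  | Int.ofNat i => (w[i]?).map Sum.inl
  | Int.negSucc i => (α[i]?).map Sum.inr

variable (M : Mach d)

/-- The initial configuration. -/
def init : Cfg M := ⟨M.start, 0, fun _ _ => M.blank, fun _ _ => 0⟩

/-- One step on the input `w` with advice `α`; `none` if the machine halts. -/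
def step (w α : List Bool) (c : Cfg M) : Option (Cfg M) :=
  (M.δ c.q (rd w α c.pos) fun j => c.tape j (c.head j)).map fun r =>
    ⟨r.1, c.pos + (r.2.2.1 : ℤ), fun j => Function.update (c.tape j) (c.head j) (r.2.1 j),
      fun j i => c.head j i + (r.2.2.2 j i : ℤ)⟩

/-- On input `w` with advice `α`, the machine halts after exactly `t` steps and its answer is `b`
(it accepts if `b` is true and rejects if `b` is false). -/
def Answers (w α : List Bool) (t : ℕ) (b : Bool) : Prop :=
  ∃ cs : ℕ → Cfg M, cs 0 = M.init ∧ (∀ s < t, M.step w α (cs s) = some (cs (s + 1))) ∧
    M.step w α (cs t) = none ∧ (b = true ↔ (cs t).q ∈ M.acc)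

end Mach

/-- The devices of dimension `d`: cellular automata on `ℤ ^ d` and Turing machines with any number of
`d`-dimensional work tapes. -/
inductive Dev (d : ℕ) where
  | automaton (A : Aut d) : Dev d
  | machine (M : Mach d) : Dev d

/-- On input `w` with advice `α`, the device gives its answer at time `t` and the answer is `b`. -/
def Dev.Answers {d : ℕ} [NeZero d] : Dev d → List Bool → List Bool → ℕ → Bool → Prop
  | .automaton A => A.Answers
  | .machine M => M.Answers

end Pool.Agent.helper39.MESH
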