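import Pool.Agent.helper39.MESH.Geo
import Pool.Agent.helper22.SP.H1

/-!
# Module REG: registers as base `p` digits of one number
-/

set_option autoImplicit false

namespace Pool.Agent.helper39.MESH

open Pool.Agent.helper12.SP (TM DSPACE Ctx Pb Cmp num pw dg pm up np)
open Pool.Agent.helper12.SP (up_lt dg_up_self dg_up_ne pm_lt pm_cast dg_lt')

section ix

variable {F G : ℕ}

lemma ix_lt {k i : ℕ} (hk : k < F + 1) (hi : i < G) : k * G + i < (F + 1) * G := by
  have : k * G ≤ F * G := Nat.mul_le_mul_right _ (by omega)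
  rw [add_mul, one_mul]
  omega

lemma ix_inj {k i k' i' : ℕ} (hi : i < G) (hi' : i' < G) (h : k * G + i = k' * G + i') :
    k = k' ∧ i = i' := by
  have h3 : i = i' := by
    have := congrArg (· % G) h
    simpa [Nat.mod_eq_of_lt hi, Nat.mod_eq_of_lt hi'] using this
  subst h3
  exact ⟨Nat.eq_of_mul_eq_mul_right (by omega : 0 < G) (by omega), rfl⟩

end ix

section rep

variable {N p F G s : ℕ} {S S' : ℕ → ℕ → ZMod p}

lemma Rep.congr (h : Rep N p F G s S)
    (hS : ∀ k < F + 1, ∀ i < G, S k i = S' k i) : Rep N p F G s S' :=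
  ⟨h.1, fun k hk i hi => (h.2 k hk i hi).trans (hS k hk i hi)⟩

lemma Rep.up (h : Rep N p F G s S) (hp : 2 ≤ p) (hN : p ^ ((F + 1) * G) ≤ N) {k0 i0 : ℕ}
    (hk0 : k0 < F + 1) (hi0 : i0 < G) (v : ℕ) :
    Rep N p F G (up N p s (k0 * G + i0) v)
      (fun k i => if k = k0 ∧ i = i0 then S k i + v else S k i) := by
  refine ⟨up_lt hp hN (ix_lt hk0 hi0) h.1, fun k hk i hi => ?_⟩
  by_cases hc : k = k0 ∧ i = i0
  · obtain ⟨rfl, rfl⟩ := hc
    simp only [and_self, if_true]
    rw [dg_up_self hp hN (ix_lt hk hi), ZMod.natCast_mod, Nat.cast_add, h.2 k hk i hi]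
  · simp only [hc, if_false]
    rw [dg_up_ne hp hN (ix_lt hk0 hi0) (ix_lt hk hi) ?_, h.2 k hk i hi]
    intro he
    exact hc (ix_inj hi hi0 he)

/-- changing all registers of one bank -/
lemma rep_bank (hp : 2 ≤ p) (hN : p ^ ((F + 1) * G) ≤ N) {o : ℕ} (ho : o < F + 1)
    (h : Rep N p F G s S) (f : ℕ → ℕ → ℕ) (w : ℕ → ZMod p)
    (hf : ∀ k < G, ∀ ih, Rep N p F G ih (Function.update S o
      (S o + fun i => if i < k then w i else 0)) → ((f k ih : ℕ) : ZMod p) = w k) :
    Rep N p F G (Nat.rec (motive := fun _ => ℕ) s (fun k ih => up N p ih (o * G + k) (f k ih)) G)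
      (Function.update S o (S o + fun i => if i < G then w i else 0)) := by
  have key : ∀ n ≤ G, Rep N p F G (Nat.rec (motive := fun _ => ℕ) s
      (fun k ih => up N p ih (o * G + k) (f k ih)) n)
      (Function.update S o (S o + fun i => if i < n then w i else 0)) := by
    intro n
    induction n with
    | zero =>
      intro _
      refine h.congr fun k _ i _ => ?_
      by_cases hk : k = o
      · subst hk
        simp
      · rw [Function.update_of_ne hk]
    | succ n ih =>
      intro hn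
      have hr := ih (by omega)
      refine Rep.congr (hr.up hp hN ho (show n < G by omega) _) fun k _ i _ => ?_
      rw [hf n (by omega) _ hr]
      by_cases hk : k = o
      · subst hk
        simp only [Function.update_self, Pi.add_apply]
        by_cases hi : i = n
        · subst hi
          simp
        · rw [if_neg (by tauto)]
          simp only [show (i < n + 1) ↔ (i < n) by omega]
      · rw [if_neg (by tauto), Function.update_of_ne hk, Function.update_of_ne hk]
  exact key _ le_rfl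

end rep

section caps

variable {N p d G : ℕ}

private lemma exp_le (hp : 2 ≤ p) {E : ℕ} (hN1 : p ^ E ≤ N) : E ≤ N :=
  (Nat.lt_two_pow_self (n := E)).le.trans ((Nat.pow_le_pow_left hp E).trans hN1)

lemma cap_two (hp : 2 ≤ p) (hG : 1 ≤ G) (hN1 : p ^ ((2 ^ d + 1) * G) ≤ N) : 2 ^ d ≤ N := by
  refine le_trans ?_ (exp_le hp hN1)
  calc 2 ^ d ≤ 2 ^ d + 1 := Nat.le_succ _
    _ = (2 ^ d + 1) * 1 := by ring
    _ ≤ (2 ^ d + 1) * G := Nat.mul_le_mul_left _ hG

end caps

private lemma pw_id {N a r : ℕ} (h : a ^ r ≤ N) : pw N a r = a ^ r := min_eq_left h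

private lemma bank_ne {F o e : ℕ} (ho : o < F + 1) (he : e < F) : (o + 1 + e) % (F + 1) ≠ o := by
  intro h
  rcases lt_or_ge (o + 1 + e) (F + 1) with h1 | h1
  · rw [Nat.mod_eq_of_lt h1] at h
    omega
  · rw [Nat.mod_eq_sub_mod h1, Nat.mod_eq_of_lt (by omega)] at h
    omega

lemma lg_cast {p Q y v m : ℕ} (hp : 2 ≤ p) (hQ : Q ≤ p) :
    ((lg p Q y v m : ℕ) : ZMod p) = lag p Q (y : ZMod p) v m := by
  unfold lg lag
  have key : ∀ n ≤ Q, ((Nat.rec (motive := fun _ => ℕ) (1 % p) (fun u ih => if u = v then ih else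
      ih * ((y + (p - u * m % p)) * pm p (v + (p - u)) (p - 2) % p) % p) n : ℕ) : ZMod p) =
      ∏ u ∈ Finset.range n, if u = v then 1 else
        ((y : ZMod p) - (u : ZMod p) * m) * ((v : ZMod p) - u) ^ (p - 2) := by
    intro n
    induction n with
    | zero =>
      intro _
      rw [Finset.prod_range_zero]
      show ((1 % p : ℕ) : ZMod p) = 1
      rw [ZMod.natCast_mod, Nat.cast_one]
    | succ n ih =>
      intro hn
      rw [Finset.prod_range_succ, ← ih (by omega)]
      by_cases hv : n = v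
      · subst hv
        simp
      · simp only [if_neg hv]
        rw [ZMod.natCast_mod, Nat.cast_mul, ZMod.natCast_mod, Nat.cast_mul, pm_cast, Nat.cast_add,
          Nat.cast_sub (Nat.mod_lt _ (by omega)).le, ZMod.natCast_mod, Nat.cast_add,
          Nat.cast_sub (by omega : n ≤ p), ZMod.natCast_self, Nat.cast_mul]
        congr 2
        · ring
        · ring
  exact key Q le_rfl

lemma wt_cast {N p G F Q m s o z : ℕ} {S : ℕ → ℕ → ZMod p} (hp : 2 ≤ p) (hG : 1 ≤ G) (hQ : Q ≤ p)
    (hs : Rep N p F G s S) :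
    ((wt N p G F Q m s o z : ℕ) : ZMod p) = ∏ w ∈ Finset.range (F * G),
      lag p Q (S ((o + 1 + w / G) % (F + 1)) (w % G)) (dg N Q z w) m := by
  rw [wt]
  have key : ∀ n : ℕ, ((Nat.rec (motive := fun _ => ℕ) (1 % p) (fun w ih =>
      ih * lg p Q (dg N p s ((o + 1 + w / G) % (F + 1) * G + w % G)) (dg N Q z w) m % p) n :
      ℕ) : ZMod p) = ∏ w ∈ Finset.range n,
      lag p Q (S ((o + 1 + w / G) % (F + 1)) (w % G)) (dg N Q z w) m := by
    intro n
    induction n with
    | zero =>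
      rw [Finset.prod_range_zero]
      show ((1 % p : ℕ) : ZMod p) = 1
      rw [ZMod.natCast_mod, Nat.cast_one]
    | succ n ih =>
      rw [Finset.prod_range_succ, ← ih]
      show ((_ * lg p Q (dg N p s _) _ _ % p : ℕ) : ZMod p) = _
      rw [ZMod.natCast_mod, Nat.cast_mul, lg_cast hp hQ,
        hs.2 _ (Nat.mod_lt _ (Nat.succ_pos _)) _ (Nat.mod_lt _ hG)]
  exact key _

/-- the contribution of one number -/
private def W (N p d q g G m z : ℕ) (Y : ℕ → ℕ → ZMod p) : ZMod p :=
  - (m : ZMod p) ^ (p - 1 - 2 ^ d * G * (q ^ g - 1)) * ∏ w ∈ Finset.range (2 ^ d * G),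
      lag p (q ^ g) (Y (w / G) (w % G)) (dg N (q ^ g) z w) m

private lemma W_congr {N p d q g G m z : ℕ} {Y Y' : ℕ → ℕ → ZMod p} (hG : 1 ≤ G)
    (h : ∀ e < 2 ^ d, Y e = Y' e) : W N p d q g G m z Y = W N p d q g G m z Y' := by
  rw [W, W]
  congr 1
  exact Finset.prod_congr rfl fun w hw => by
    rw [h _ ((Nat.div_lt_iff_lt_mul (by omega)).2 (Finset.mem_range.1 hw))]

lemma rep_lz {N p κ d q M g G o m z s : ℕ} {S : ℕ → ℕ → ZMod p} (hp : 2 ≤ p)
    (hG : 1 ≤ G) (hQp : q ^ g ≤ p) (hQN : q ^ g ≤ N) (hN1 : p ^ ((2 ^ d + 1) * G) ≤ N)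
    (ho : o < 2 ^ d + 1) (hs : Rep N p (2 ^ d) G s S) :
    Rep N p (2 ^ d) G (lz N p κ d q M g G o m z s)
      (Function.update S o (S o + fun k => if k < G then
          W N p d q g G m z (fun e => S ((o + 1 + e) % (2 ^ d + 1))) *
            (nw N κ d q M g G z k : ℕ) else 0)) := by
  have e2 : pw N 2 d = 2 ^ d := pw_id (cap_two hp hG hN1)
  have e3 : pw N q g = q ^ g := pw_id hQN
  rw [lz, e2, e3]
  refine rep_bank hp hN1 ho hs (fun k ih =>
    (p - pm p m (p - 1 - 2 ^ d * G * (q ^ g - 1))) * wt N p G (2 ^ d) (q ^ g) m ih o z % p *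
      nw N κ d q M g G z k % p)
    (fun k => W N p d q g G m z (fun e => S ((o + 1 + e) % (2 ^ d + 1))) *
      (nw N κ d q M g G z k : ℕ)) fun k _ ih hr => ?_
  rw [ZMod.natCast_mod, Nat.cast_mul, ZMod.natCast_mod, Nat.cast_mul,
    Nat.cast_sub (pm_lt hp _).le, pm_cast, ZMod.natCast_self, zero_sub,
    wt_cast hp hG hQp hr, W]
  congr 2
  refine Finset.prod_congr rfl fun w hw => ?_
  rw [Function.update_of_ne (bank_ne ho
    ((Nat.div_lt_iff_lt_mul (by omega)).2 (Finset.mem_range.1 hw)))]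

theorem rep_lo {N p κ d q M g G o m s : ℕ} {S : ℕ → ℕ → ZMod p} (hp : 2 ≤ p)
    (hG : 1 ≤ G) (hQp : q ^ g ≤ p) (hQN : (q ^ g) ^ (2 ^ d * G) ≤ N)
    (hN1 : p ^ ((2 ^ d + 1) * G) ≤ N) (ho : o < 2 ^ d + 1) (hs : Rep N p (2 ^ d) G s S) :
    Rep N p (2 ^ d) G (lo N p κ d q M g G o m s)
      (Function.update S o (S o +
        floc N p κ d q M g G m (fun e => S ((o + 1 + e) % (2 ^ d + 1))))) := by
  have hW1 : 1 ≤ 2 ^ d * G := Nat.mul_pos Nat.one_le_two_pow hG
  have hQN' : q ^ g ≤ N := (Nat.le_self_pow (by omega) _).trans hQN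
  have e2 : pw N 2 d = 2 ^ d := pw_id (cap_two hp hG hN1)
  have e3 : pw N q g = q ^ g := pw_id hQN'
  have e4 : pw N (q ^ g) (2 ^ d * G) = (q ^ g) ^ (2 ^ d * G) := pw_id hQN
  have key : ∀ n, Rep N p (2 ^ d) G (Nat.rec (motive := fun _ => ℕ) s
      (fun z ih => lz N p κ d q M g G o m z ih) n)
      (Function.update S o (S o + fun k => ∑ z ∈ Finset.range n, if k < G then
          W N p d q g G m z (fun e => S ((o + 1 + e) % (2 ^ d + 1))) *
            (nw N κ d q M g G z k : ℕ) else 0)) := by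
    intro n
    induction n with
    | zero =>
      refine hs.congr fun k _ i _ => ?_
      by_cases hk : k = o
      · subst hk
        simp
      · rw [Function.update_of_ne hk]
    | succ n ih =>
      have hr := rep_lz (κ := κ) (M := M) (m := m) (z := n) hp hG hQp hQN' hN1 ho ih
      refine Rep.congr hr fun k _ i _ => ?_
      have hW : ∀ T : ℕ → ZMod p,
          W N p d q g G m n (fun e => Function.update S o T ((o + 1 + e) % (2 ^ d + 1))) =
          W N p d q g G m n (fun e => S ((o + 1 + e) % (2 ^ d + 1))) := fun T =>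
        W_congr hG fun e he => by rw [Function.update_of_ne (bank_ne ho he)]
      by_cases hk : k = o
      · subst hk
        simp only [Function.update_self, Pi.add_apply, Finset.sum_range_succ, hW]
        rw [add_assoc]
      · rw [Function.update_of_ne hk, Function.update_of_ne hk, Function.update_of_ne hk]
  have hk := key ((q ^ g) ^ (2 ^ d * G))
  rw [lo, e2, e3, e4]
  refine Rep.congr hk fun k _ i hi => ?_
  by_cases hk : k = o
  · subst hk
    simp only [Function.update_self, Pi.add_apply, floc, hi, if_true, W]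
  · rw [Function.update_of_ne hk, Function.update_of_ne hk]

lemma lv_lt {N κ d h X Z i q : ℕ} {c : ℕ → ℕ} (hq : 5 ≤ q) : lv N κ d h X Z c i < q := by
  rw [lv]
  have h1 := dg_lt' (N := N) (a := 2) (s := X)
    (r := h * κ + dg N (2 * κ) i 0 - 2 * κ * c 0) (by norm_num)
  have h2 := dg_lt' (N := N) (a := 2) (s := Z)
    (r := 2 * κ * c 0 - (h * κ + dg N (2 * κ) i 0) - 1) (by norm_num)
  split_ifs <;> omega

theorem rep_lf {N p κ d h q g G X Z o s : ℕ} {S : ℕ → ℕ → ZMod p} {c : ℕ → ℕ} (hp : 2 ≤ p)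
    (hN1 : p ^ ((2 ^ d + 1) * G) ≤ N)
    (ho : o < 2 ^ d + 1) (hs : Rep N p (2 ^ d) G s S) :
    Rep N p (2 ^ d) G (lf N p κ d h q g G X Z c o s)
      (Function.update S o (S o + fun k => if k < G then
        ((∑ j ∈ Finset.range g, (if k * g + j < pw N (2 * κ) d then
          lv N κ d h X Z c (k * g + j) else 0) * pw N q j : ℕ) : ZMod p) else 0)) := by
  rw [lf]
  exact rep_bank hp hN1 ho hs (fun k _ => ∑ j ∈ Finset.range g,
    (if k * g + j < pw N (2 * κ) d then lv N κ d h X Z c (k * g + j) else 0) * pw N q j) _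
    fun k _ ih _ => rfl

end Pool.Agent.helper39.MESH
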