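import Pool.Agent.helper39.MESH.Cat
import Pool.Agent.helper39.MESH.Reg

/-!
# The simulation algorithm is correct
-/

set_option autoImplicit false

namespace Pool.Agent.helper39.MESH

open Pool.Agent.helper12.SP (TM DSPACE Ctx Pb Cmp num pw dg pm up np)

theorem out_eq {v N p κ d h q M g G X Z : ℕ} (hp : p.Prime)
    (h1 : 2 ^ d * G * (q ^ g - 1) + 2 ≤ p) (hQp : q ^ g < p) (hκ : 1 ≤ κ)
    (hd : 1 ≤ d) (hq : 5 ≤ q) (hg : 1 ≤ g) (hG : (2 * κ) ^ d ≤ G * g)
    (hN1 : p ^ ((2 ^ d + 1) * G) ≤ N) (hN2 : q ^ (4 * κ) ^ d ≤ N)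
    (hN2' : (q ^ g) ^ (2 ^ d * G) ≤ N) (hN3 : ((2 ^ d + 1) * p) ^ h ≤ N)
    (hM : M < N) (hX : X < N) (hZ : Z < N) :
    ot v N p κ d h q M g G X Z = if nvd d q M (nconf d q M X Z (h * κ) 0) = v then 1 else 0 := by
  classical
  have : Fact p.Prime := ⟨hp⟩
  have hp2 : 2 ≤ p := hp.two_le
  have hB4 : (4 * κ) ^ d ≤ N := by
    have h2 : (4 * κ) ^ d < q ^ (4 * κ) ^ d := Nat.lt_pow_self (by omega)
    omega
  have hB3 : 3 ^ d ≤ (4 * κ) ^ d := Nat.pow_le_pow_left (by omega) d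
  have hB2 : 2 ^ d ≤ (4 * κ) ^ d := Nat.pow_le_pow_left (by omega) d
  have hBκ : (2 * κ) ^ d ≤ (4 * κ) ^ d := Nat.pow_le_pow_left (by omega) d
  have hBpos : 0 < (2 * κ) ^ d := pow_pos (by omega) d
  have hG1 : 1 ≤ G := by
    rcases Nat.eq_zero_or_pos G with h0 | h0
    · rw [h0, Nat.zero_mul] at hG
      omega
    · exact h0
  have hW1 : 1 ≤ 2 ^ d * G := Nat.mul_pos Nat.one_le_two_pow hG1
  have hQN : q ^ g ≤ N := (Nat.le_self_pow (by omega) _).trans hN2'
  have hpw2 : pw N 2 d = 2 ^ d := min_eq_left (hB2.trans hB4)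
  have hpw3 : pw N 3 d = 3 ^ d := min_eq_left (hB3.trans hB4)
  have hpwB : pw N (2 * κ) d = (2 * κ) ^ d := min_eq_left (hBκ.trans hB4)
  have hpwA : pw N ((2 ^ d + 1) * p) h = ((2 ^ d + 1) * p) ^ h := min_eq_left hN3
  have hF : 1 ≤ 2 ^ d := Nat.one_le_two_pow
  -- the abstract run
  let val : ℕ → (ℕ → ℕ) → (ℕ → ZMod p) := fun l c => bval p κ d h q M X Z g G l c
  let loc : ℕ → (ℕ → (ℕ → ZMod p)) → (ℕ → ZMod p) := fun m Y => floc N p κ d q M g G m Y
  let S : ℕ → ℕ → (ℕ → ZMod p) := fun t => Nat.rec (motive := fun _ => ℕ → (ℕ → ZMod p))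
    (fun _ => 0) (fun τ ih => ast N (2 ^ d) ((2 ^ d + 1) * p) h (val 0) loc τ ih) t
  have hleaf : ∀ c, (fun k => if k < G then ((∑ j ∈ Finset.range g,
      (if k * g + j < pw N (2 * κ) d then lv N κ d h X Z c (k * g + j) else 0) * pw N q j : ℕ) :
      ZMod p) else 0) = val 0 c := by
    intro c
    funext k
    change _ = bval p κ d h q M X Z g G 0 c k
    unfold bval
    by_cases hk : k < G
    · rw [if_pos hk, if_pos hk]
      congr 1
      unfold bgrp
      rw [hpwB]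
      refine Finset.sum_congr rfl fun j hj => ?_
      have hqj : q ^ j ≤ N :=
        (Nat.pow_le_pow_right (by omega) (Finset.mem_range.1 hj).le).trans hQN
      rw [show pw N q j = q ^ j from min_eq_left hqj]
      by_cases hi : k * g + j < (2 * κ) ^ d
      · rw [if_pos hi, if_pos hi, lv_eq hκ hd (hBκ.trans hB4) hX hZ hi c]
        unfold bcell
        have e : (fun j' => (h : ℤ) * κ - 2 * κ * c j' +
            ((k * g + j) / (2 * κ) ^ j' % (2 * κ) : ℕ) - (0 : ℕ) * κ) =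
            (fun j' => (h : ℤ) * κ - 2 * κ * c j' +
              ((k * g + j) / (2 * κ) ^ j' % (2 * κ) : ℕ)) := by
          funext j'
          push_cast
          ring
        rw [e, Nat.zero_mul]
        rfl
      · rw [if_neg hi, if_neg hi]
    · rw [if_neg hk, if_neg hk]
  have hrep : ∀ t, Rep N p (2 ^ d) G
      (rn N p κ d h q M g G X Z (2 ^ d) ((2 ^ d + 1) * p) t) (S t) := by
    intro t
    induction t with
    | zero =>
      refine ⟨by change 0 < _; positivity, fun k _ i _ => ?_⟩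
      change (((0 / _ % p : ℕ)) : ZMod p) = 0
      simp
    | succ t ih =>
      have e1 : rn N p κ d h q M g G X Z (2 ^ d) ((2 ^ d + 1) * p) (t + 1) =
        st N p κ d h q M g G X Z (2 ^ d) ((2 ^ d + 1) * p) t
          (rn N p κ d h q M g G X Z (2 ^ d) ((2 ^ d + 1) * p) t) := rfl
      have e2 : S (t + 1) = ast N (2 ^ d) ((2 ^ d + 1) * p) h (val 0) loc t (S t) := rfl
      rw [e1, e2]
      unfold st ast
      split_ifs with c1 c2
      · have h := rep_lf (κ := κ) (q := q) (g := g) hp2 hN1 (Nat.mod_lt _ (by omega)) ih (h := h)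
          (X := X) (Z := Z) (c := cc N (2 ^ d) ((2 ^ d + 1) * p) h t h)
          (o := (h + cs N (2 ^ d) ((2 ^ d + 1) * p) h t h) % (2 ^ d + 1))
        rw [hleaf] at h
        exact h
      · exact rep_lo hp2 hG1 hQp.le hN2' hN1 (Nat.mod_lt _ (by omega)) ih
      · exact ih
  have hcat := cat N (2 ^ d) p h (by omega) hF hN3 (fun v => by
    funext i
    simp) val loc (fun m Y Y' hY => floc_congr hG1 hY)
    (fun l _ c R => geo hp h1 hQp.le hκ hd hq hg hG hN2 hN2' hM l c R) S (fun _ => rfl)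
    (fun _ _ => rfl)
  obtain ⟨hlt, hdig⟩ := hrep (((2 ^ d + 1) * p) ^ h)
  have h2 := hdig 0 (by omega) 0 hG1
  rw [hcat] at h2
  simp only [if_true] at h2
  change _ = bval p κ d h q M X Z g G h (fun _ => 0) 0 at h2
  unfold bval at h2
  rw [if_pos (show 0 < G from hG1), Nat.zero_mul, Nat.zero_add] at h2
  set D := dg N p (rn N p κ d h q M g G X Z (2 ^ d) ((2 ^ d + 1) * p)
    (((2 ^ d + 1) * p) ^ h)) 0 with hD
  have hdp : D < p := by
    rw [hD]
    unfold dg
    exact Nat.mod_lt _ (by omega)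
  have hB : bgrp κ d h q M X Z g h (fun _ => 0) 0 < q ^ g := bgrp_lt hq _ _ _
  have h3 : D = bgrp κ d h q M X Z g h (fun _ => 0) 0 := by
    rw [ZMod.natCast_eq_natCast_iff', Nat.mod_eq_of_lt hdp, Nat.mod_eq_of_lt (by omega)] at h2
    exact h2
  have h4 : D % q = nconf d q M X Z (h * κ) 0 := by
    have h5 := bgrp_digit (κ := κ) (d := d) (h := h) (q := q) (M := M) (X := X) (Z := Z) hq h
      (fun _ => 0) (k := 0) (j := 0) hg (by rw [Nat.zero_mul]; exact hBpos)
    rw [pow_zero, Nat.div_one, ← h3] at h5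
    rw [h5]
    unfold bcell
    congr 1
    funext j
    simp
  have hq3 : q ^ 3 ^ d ≤ N := (Nat.pow_le_pow_right (by omega) hB3).trans hN2
  have hvd : ∀ a, dg N q M (q ^ 3 ^ d + a) = nvd d q M a := by
    intro a
    unfold dg nvd pw
    rcases le_total (q ^ (q ^ 3 ^ d + a)) N with h | h
    · rw [min_eq_left h]
    · rw [min_eq_right h, Nat.div_eq_of_lt hM, Nat.div_eq_of_lt (lt_of_lt_of_le hM h)]
  have hpwq : pw N q (3 ^ d) = q ^ 3 ^ d := min_eq_left hq3
  unfold ot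
  rw [hpw2, hpw3, hpwA, hpwq, ← hD, h4, hvd]

end Pool.Agent.helper39.MESH
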