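import Pool.Agent.helper39.MESH.Gen

/-!
# The time of cellular automata in terms of space
-/

set_option autoImplicit false

namespace Pool.Agent.helper39.MESH

open Pool.Agent.helper12.SP (TM DSPACE Ctx Pb Cmp CmpP num pw dg pm up np capN capn num_bounds
  num_inj)

/-- changing finitely many values -/
theorem cmp_patch {bd g : ℕ → ℕ} (hX : Cmp bd (fun X : ℕ => X)) (hg : Cmp bd g) (χ : ℕ → ℕ)
    (B : ℕ) : Cmp bd (fun X => if X < B then χ X else g X) := by
  induction B with
  | zero => exact hg.congr fun X => by simp
  | succ B ih =>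
    refine (Cmp.ite (CmpP.eq hX (Cmp.const B)) (Cmp.const (χ B)) ih).congr fun X => ?_
    by_cases h1 : X = B
    · subst h1
      simp
    · by_cases h2 : X < B
      · rw [if_neg h1, if_pos h2, if_pos (by omega)]
      · rw [if_neg h1, if_neg h2, if_neg (by omega)]

theorem space (c : ℕ) (hc : 1 ≤ c) (d : ℕ) [NeZero d] (A : Aut d) (L : Set (List Bool)) (n₀ : ℕ)
    (hL : ∀ w : List Bool, n₀ ≤ w.length → ∃ (t : ℕ) (b : Bool), InTime c d w.length t ∧
      A.Answers w [] t b ∧ (b = true ↔ w ∈ L)) :
    ∃ C : ℕ, L ∈ DSPACE (fun n => C * 2 ^ (c * n)) := by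
  classical
  have hd : 1 ≤ d := Nat.one_le_iff_ne_zero.2 (NeZero.ne d)
  obtain ⟨n₁, h₁⟩ := sim c hc A
  obtain ⟨e, -, he⟩ := h₁ 0
  obtain ⟨n₂, hn₂⟩ := sw_slow (16 ^ d)
  set K := max (max n₀ n₁) (max 12 n₂) with hK
  set χ : ℕ → ℕ := fun X => if ∃ w ∈ L, num w = X then 1 else 0 with hχ
  set g : ℕ → ℕ := fun X => MESH.sm 2 (capN c X) c (Nat.log 2 X) e 1 (X - 2 ^ Nat.log 2 X) with hg
  have hcg : Cmp (capN c) g := Cmp.sm 2 c hc (cmp_X c hc) Pb.self (Cmp.const e) (Cmp.const 1)
    (cmp_rest c hc)
  obtain ⟨C, hC⟩ := dspace_capN hc (cmp_patch (cmp_X c hc) hcg χ (2 ^ K))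
  refine ⟨C, ?_⟩
  have hset : {w : List Bool | (if num w < 2 ^ K then χ (num w) else g (num w)) ≠ 0} = L := by
    ext w
    change (if num w < 2 ^ K then χ (num w) else g (num w)) ≠ 0 ↔ w ∈ L
    have hwb := num_bounds w
    by_cases hw : num w < 2 ^ K
    · rw [if_pos hw, hχ]
      constructor
      · intro h
        by_contra hcon
        apply h
        simp only
        rw [if_neg]
        rintro ⟨w', hw', heq⟩
        rw [num_inj w' w heq] at hw'
        exact hcon hw'
      · intro h
        simp only
        rw [if_pos ⟨w, h, rfl⟩]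
        exact one_ne_zero
    · rw [if_neg hw]
      have hlen : K ≤ w.length := by
        by_contra hcon
        have h1 : 2 ^ (w.length + 1) ≤ 2 ^ K := Nat.pow_le_pow_right (by norm_num) (by omega)
        omega
      have hn0 : n₀ ≤ w.length := (le_max_left _ _).trans ((le_max_left _ _).trans hlen)
      have hn1 : n₁ ≤ w.length := (le_max_right _ _).trans ((le_max_left _ _).trans hlen)
      have hn12 : 12 ≤ w.length := (le_max_left _ _).trans ((le_max_right _ _).trans hlen)
      have hn16 : 16 ^ d * sw w.length ≤ Nat.log 2 w.length + 1 :=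
        hn₂ _ ((le_max_right _ _).trans ((le_max_right _ _).trans hlen))
      have hlog : Nat.log 2 (num w) = w.length := by
        have h2 : 0 < 2 ^ w.length := by positivity
        rw [Nat.log_eq_iff (Or.inr ⟨by norm_num, by omega⟩)]
        exact hwb
      have hgw : g (num w) = MESH.sm 2 (capn c w.length) c w.length e (num [])
          (num w - 2 ^ w.length) := by
        rw [hg]
        simp only
        rw [hlog]
        unfold capN
        rw [hlog]
        rfl
      obtain ⟨-, hs⟩ := he w.length hn1 w [] rfl (by simp)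
      obtain ⟨t, b, ht, hA, hb⟩ := hL w hn0
      rw [← hb, hgw]
      rcases sm_zero_or_one 2 (capn c w.length) c w.length e (num []) (num w - 2 ^ w.length)
        with h0 | h0
      · rw [h0]
        constructor
        · intro h
          exact absurd rfl h
        · intro h
          subst h
          have := hs.2 ⟨t, le_tm hc hd hn12 hn16 ht, hA⟩
          omega
      · rw [h0]
        constructor
        · intro _
          obtain ⟨t', -, ht'⟩ := hs.1 h0
          exact (Answers_unique A hA ht').2
        · intro _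
          exact one_ne_zero
  rw [← hset]
  exact hC

end Pool.Agent.helper39.MESH
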