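import Pool.Agent.helper39.MESH.CmpB

/-!
# Unbounded search by loop programs
-/

set_option autoImplicit false

namespace Pool.Agent.helper39.MESH

open Pool.Agent.helper12.SP (Ctx Pb Cmp CmpP Stmt Ex)

variable {α : Type} [Ctx α] {bd : α → ℕ} {bd' : α × ℕ → ℕ} {P : α × ℕ → Prop} {m : α → ℕ}

/-- Unbounded search: the least number `m a` with the property `P (a, ·)` is computable, if the
bounds needed up to it are polynomial in `bd a`. -/
theorem Cmp.search (hP : CmpP bd' P) (hm : ∀ a, P (a, m a)) (hmin : ∀ a, ∀ s < m a, ¬ P (a, s))
    (hb : ∃ C : ℕ, ∀ a, ∀ s ≤ m a, bd' (a, s) ≤ (C + bd a) ^ C) (hmb : Pb bd m) : Cmp bd m := by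
  classical
  obtain ⟨Cb, hCb⟩ := hb
  obtain ⟨Cf, hCf, Hf⟩ := CmpP.not hP
  have hK : Pb bd (fun a => (Cf + (Cb + bd a) ^ Cb) ^ Cf) :=
    ((Pb.const Cf).add (((Pb.const Cb).add Pb.self).pow Cb)).pow Cf
  refine Cmp.of (K := fun a => (Cf + (Cb + bd a) ^ Cb) ^ Cf + m a + 1)
    ((hK.add hmb).add (Pb.const 1)) hmb fun loc o s ho hl => ?_
  obtain ⟨Q, hQ⟩ := Hf (fun i => if i < Ctx.dim α then loc i else o) (s + 1) (s + 2) (by omega)
    fun i hi => by
      by_cases hi' : i < Ctx.dim α
      · have := hl i hi'
        simp only [if_pos hi']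
        omega
      · simp only [if_neg hi']
        omega
  refine ⟨.seq (.inc s) (.loop s (.seq Q (.loop (s + 1) (.seq (.inc o) (.inc s))))), ?_⟩
  intro a σ B h1 h2 h3 h4
  have hB : (Cf + (Cb + bd a) ^ Cb) ^ Cf + m a + 1 ≤ B := h4
  have z0 : σ s = 0 := h3 s le_rfl
  have z1 : σ (s + 1) = 0 := h3 _ (by omega)
  set T : ℕ → ℕ → ℕ → ℕ → ℕ := fun j f t => Function.update (Function.update (Function.update σ o j)
    s f) (s + 1) t with hT
  have hQ' : ∀ j ≤ m a, Ex B Q (T j 0 0) (T j 0 (if ¬ P (a, j) then 1 else 0)) := by
    intro j hj
    have e1 := hQ (a, j) (T j 0 0) B ?_ ?_ ?_ ?_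
    · refine e1.congr ?_
      rw [hT]
      simp only [Function.update_idem]
      congr 1
      by_cases h : P (a, j) <;> simp [h]
    · intro i hi
      have hi2 : i < Ctx.dim α + 1 := hi
      show T j 0 0 (if i < Ctx.dim α then loc i else o) =
        (if i < Ctx.dim α then Ctx.reg a i else Ctx.reg j (i - Ctx.dim α))
      by_cases hi' : i < Ctx.dim α
      · have := hl i hi'
        rw [if_pos hi', if_pos hi', ← h1 i hi']
        simp only [hT, Function.update_apply]
        split_ifs <;> first | omega | rfl
      · rw [if_neg hi', if_neg hi']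
        simp only [hT, Function.update_apply]
        split_ifs <;> first | omega | rfl
    · simp only [hT, Function.update_apply]
      split_ifs <;> first | omega | rfl
    · intro r hr
      simp only [hT, Function.update_apply]
      split_ifs <;> first | omega | exact h3 r (by omega)
    · have h5 := hCb a j hj
      have h6 : (Cf + bd' (a, j)) ^ Cf ≤ (Cf + (Cb + bd a) ^ Cb) ^ Cf :=
        Nat.pow_le_pow_left (by omega) Cf
      omega
  have key : ∀ j ≤ m a, Ex B (.loop s (.seq Q (.loop (s + 1) (.seq (.inc o) (.inc s)))))
      (T (m a - j) 1 0) (T (m a) 0 0) := by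
    intro j
    induction j with
    | zero =>
      intro _
      refine Ex.loop_succ (m := 0) (σ' := T (m a) 0 0) (by
        simp only [hT, Function.update_apply]
        split_ifs <;> first | omega | rfl) ?_ (Ex.loop_zero _ _ _ (by
        simp only [hT, Function.update_apply]
        split_ifs <;> first | omega | rfl))
      have e2 : Function.update (T (m a - 0) 1 0) s 0 = T (m a) 0 0 := by
        funext x
        simp only [hT, Function.update_apply, Nat.sub_zero]
        split_ifs <;> first | omega | rfl
      rw [e2]
      refine Ex.seq (hQ' (m a) le_rfl) ?_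
      rw [if_neg (not_not.2 (hm a))]
      exact Ex.loop_zero _ _ _ (by
        simp only [hT, Function.update_apply]
        split_ifs <;> first | omega | rfl)
    | succ j ih =>
      intro hj
      have h5 := ih (by omega)
      have h6 : ¬ P (a, m a - (j + 1)) := hmin a _ (by omega)
      refine Ex.loop_succ (m := 0) (σ' := T (m a - j) 1 0) (by
        simp only [hT, Function.update_apply]
        split_ifs <;> first | omega | rfl) ?_ h5
      have e2 : Function.update (T (m a - (j + 1)) 1 0) s 0 = T (m a - (j + 1)) 0 0 := by
        funext x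
        simp only [hT, Function.update_apply]
        split_ifs <;> first | omega | rfl
      rw [e2]
      refine Ex.seq (hQ' (m a - (j + 1)) (by omega)) ?_
      rw [if_pos h6]
      refine Ex.loop_succ (m := 0) (σ' := T (m a - j) 1 0) (by
        simp only [hT, Function.update_apply]
        split_ifs <;> first | omega | rfl) ?_ (Ex.loop_zero _ _ _ (by
        simp only [hT, Function.update_apply]
        split_ifs <;> first | omega | rfl))
      have e3 : Function.update (T (m a - (j + 1)) 0 1) (s + 1) 0 = T (m a - (j + 1)) 0 0 := by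
        simp only [hT, Function.update_idem]
      rw [e3]
      refine Ex.seq (Ex.inc' (σ' := T (m a - j) 0 0) ?_ ?_) (Ex.inc' ?_ ?_)
      · simp only [hT, Function.update_apply]
        split_ifs <;> omega
      · funext x
        simp only [hT, Function.update_apply]
        split_ifs <;> first | omega | rfl
      · simp only [hT, Function.update_apply]
        split_ifs <;> omega
      · funext x
        simp only [hT, Function.update_apply]
        split_ifs <;> first | omega | rfl
  have e0 : Ex B (.inc s) σ (T 0 1 0) := by
    refine Ex.inc' (by omega) ?_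
    funext x
    simp only [hT, Function.update_apply]
    split_ifs <;> simp_all
  refine Ex.seq e0 ?_
  have h7 := key (m a) le_rfl
  rw [Nat.sub_self] at h7
  refine h7.congr ?_
  funext x
  simp only [hT, Function.update_apply]
  split_ifs <;> simp_all

end Pool.Agent.helper39.MESH
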