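import Pool.Agent.helper39.MESH.Space
import Pool.Agent.helper39.MESH.Srch
import Pool.Agent.helper39.MESH.CmpS

/-!
# The time of cellular automata in terms of space, for arbitrary time bounds

The simulation algorithm is run with the budgets `s = 0, 1, 2, …` until it finds an answer; the
budget `s` means space `O(2 ^ s)`.
-/

set_option autoImplicit false

namespace Pool.Agent.helper39.MESH

open Pool.Agent.helper12.SP (TM DSPACE Ctx Pb Cmp CmpP num pw dg pm up np num_bounds num_inj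
  np_prime DSPACE_mono dspace_of_cmp)

/-- the cap for the budget `s` -/
def cps (K s : ℕ) : ℕ := 2 ^ (K * 2 ^ s)

/-- the largest `κ` with `(4 κ) ^ d ≤ 2 ^ s` -/
def kas (N d s : ℕ) : ℕ :=
  ∑ x ∈ Finset.range (2 ^ s), if pw N (4 * (x + 1)) d ≤ 2 ^ s then 1 else 0

/-- the number of groups (of `s + 1` cells) of a block -/
def grs (N d s : ℕ) : ℕ := pw N (2 * kas N d s) d / (s + 1) + 1

/-- the simulation with the budget `s` -/
def ots (v K d q M X s : ℕ) : ℕ :=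
  ot v (cps K s) (np (pw (cps K s) 2 d * grs (cps K s) d s * pw (cps K s) q (s + 1) + 2))
    (kas (cps K s) d s) d (2 ^ s / (s + 1)) q M (s + 1) (grs (cps K s) d s) X 1

theorem cps_ge {K s : ℕ} (hK : 1 ≤ K) : 2 ^ 2 ^ s ≤ cps K s :=
  Nat.pow_le_pow_right (by norm_num) (Nat.le_mul_of_pos_left _ hK)

theorem cps_gt {K s : ℕ} (hK : 1 ≤ K) : 2 ^ s < cps K s :=
  (Nat.lt_two_pow_self (n := 2 ^ s)).trans_le (cps_ge hK)

theorem kas_spec {K d s : ℕ} (hK : 1 ≤ K) (hd : 1 ≤ d) :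
    (4 * kas (cps K s) d s) ^ d ≤ 2 ^ s ∧ 2 ^ s < (4 * (kas (cps K s) d s + 1)) ^ d := by
  have hN := cps_gt (s := s) hK
  set N := cps K s with hNdef
  set Y := 2 ^ s with hY
  have hkap : kas N d s = ∑ x ∈ Finset.range Y, if (4 * (x + 1)) ^ d ≤ Y then 1 else 0 := by
    unfold kas
    refine Finset.sum_congr rfl fun x _ => ?_
    have h1 : pw N (4 * (x + 1)) d ≤ Y ↔ (4 * (x + 1)) ^ d ≤ Y := by
      unfold pw
      rcases le_total ((4 * (x + 1)) ^ d) N with h | h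
      · rw [min_eq_left h]
      · rw [min_eq_right h]
        constructor <;> intro h4 <;> omega
    simp only [hY] at h1 ⊢
    simp only [h1]
  have hanti : ∀ x y, x ≤ y → (4 * (y + 1)) ^ d ≤ Y → (4 * (x + 1)) ^ d ≤ Y := by
    intro x y hxy h
    exact (Nat.pow_le_pow_left (by omega) d).trans h
  obtain ⟨h1, h2, h3⟩ := count_spec (fun x => (4 * (x + 1)) ^ d ≤ Y) hanti Y
  rw [← hkap] at h1 h2 h3
  constructor
  · rcases Nat.eq_zero_or_pos (kas N d s) with h0 | h0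
    · rw [h0, Nat.mul_zero, zero_pow (by omega)]
      exact Nat.zero_le _
    · have h4 := h2 (kas N d s - 1) (by omega)
      rwa [Nat.sub_add_cancel h0] at h4
  · by_contra hcon
    rw [not_lt] at hcon
    have h4 : kas N d s < Y := by
      have h5 : kas N d s + 1 ≤ (4 * (kas N d s + 1)) ^ d :=
        (by omega : kas N d s + 1 ≤ 4 * (kas N d s + 1)).trans
          (Nat.le_self_pow (by omega) _)
      omega
    exact h3 h4 hcon

theorem four_pow_le {d s : ℕ} (hs : 12 + 4 ^ d ≤ s) : 4 ^ d ≤ 2 ^ s :=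
  (Nat.lt_two_pow_self (n := 4 ^ d)).le.trans (Nat.pow_le_pow_right (by norm_num) (by omega))

theorem kas_pos {K d s : ℕ} (hK : 1 ≤ K) (hd : 1 ≤ d) (hs : 12 + 4 ^ d ≤ s) :
    1 ≤ kas (cps K s) d s := by
  by_contra hcon
  have h0 : kas (cps K s) d s = 0 := by omega
  have h1 := (kas_spec (s := s) hK hd).2
  rw [h0, Nat.zero_add, Nat.mul_one] at h1
  have h2 := four_pow_le hs
  omega

/-- the simulation with the budget `s` is correct -/
theorem ots_spec {v K d q M X s : ℕ} (hK : 2 * (q + 3) * (2 ^ d + 1) + d + M ≤ K) (hd : 1 ≤ d)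
    (hq : 5 ≤ q) (hs : 12 + 4 ^ d ≤ s) (hX : Nat.log 2 X + 1 ≤ 2 ^ s) :
    ots v K d q M X s = if nvd d q M (nconf d q M X 1
      (2 ^ s / (s + 1) * kas (cps K s) d s) 0) = v then 1 else 0 := by
  have hF1 : 1 ≤ 2 ^ d := Nat.one_le_two_pow
  have hKq : 4 * (q + 3) ≤ 2 * (q + 3) * (2 ^ d + 1) := by nlinarith
  have hK1 : 1 ≤ K := by omega
  have hκ := kas_pos hK1 hd hs
  have hspec := (kas_spec (s := s) hK1 hd).1
  have hcap := cps_gt (s := s) hK1
  have hs1 : s + 1 ≤ 2 ^ s := Nat.lt_two_pow_self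
  set κ := kas (cps K s) d s with hκdef
  set D := (4 * κ) ^ d with hD
  have hBD : (2 * κ) ^ d ≤ D := Nat.pow_le_pow_left (by omega) d
  have hB1 : 1 ≤ (2 * κ) ^ d := Nat.one_le_pow _ _ (by omega)
  have hFB : 2 ^ d * (2 * κ) ^ d = D := by
    rw [hD, ← mul_pow]
    congr 1
    ring
  have hpw2 : pw (cps K s) 2 d = 2 ^ d := by
    refine min_eq_left ?_
    have h1 : 2 ^ d ≤ 4 ^ d := Nat.pow_le_pow_left (by norm_num) d
    have h2 := four_pow_le hs
    omega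
  have hpwB : pw (cps K s) (2 * κ) d = (2 * κ) ^ d := min_eq_left (by omega)
  set A := (2 * κ) ^ d / (s + 1) with hA
  have hGr : grs (cps K s) d s = A + 1 := by
    unfold grs
    rw [← hκdef, hpwB]
  have hAg : A * (s + 1) ≤ (2 * κ) ^ d := Nat.div_mul_le_self _ _
  have hAg2 : (2 * κ) ^ d < (A + 1) * (s + 1) := by
    have h3 := Nat.div_add_mod ((2 * κ) ^ d) (s + 1)
    have h4 := Nat.mod_lt ((2 * κ) ^ d) (by omega : s + 1 > 0)
    nlinarith
  have hFA : 2 ^ d * (A + 1) * (s + 1) ≤ (2 ^ d + 1) * 2 ^ s := by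
    calc 2 ^ d * (A + 1) * (s + 1) = 2 ^ d * (A * (s + 1)) + 2 ^ d * (s + 1) := by ring
      _ ≤ 2 ^ d * (2 * κ) ^ d + 2 ^ d * 2 ^ s :=
        Nat.add_le_add (Nat.mul_le_mul_left _ hAg) (Nat.mul_le_mul_left _ hs1)
      _ ≤ 2 ^ s + 2 ^ d * 2 ^ s := by rw [hFB]; omega
      _ = (2 ^ d + 1) * 2 ^ s := by ring
  have hq2 : q ^ (s + 1) ≤ 2 ^ (q * (s + 1)) := by
    calc q ^ (s + 1) ≤ (2 ^ q) ^ (s + 1) := Nat.pow_le_pow_left (Nat.lt_two_pow_self).le _
      _ = 2 ^ (q * (s + 1)) := (pow_mul _ _ _).symm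
  have hN2' : (q ^ (s + 1)) ^ (2 ^ d * (A + 1)) ≤ cps K s := by
    calc (q ^ (s + 1)) ^ (2 ^ d * (A + 1)) ≤ (2 ^ (q * (s + 1))) ^ (2 ^ d * (A + 1)) :=
          Nat.pow_le_pow_left hq2 _
      _ = 2 ^ (q * (2 ^ d * (A + 1) * (s + 1))) := by
          rw [← pow_mul]
          congr 1
          ring
      _ ≤ cps K s := by
          refine Nat.pow_le_pow_right (by norm_num) ?_
          calc q * (2 ^ d * (A + 1) * (s + 1)) ≤ q * ((2 ^ d + 1) * 2 ^ s) :=
                Nat.mul_le_mul_left _ hFA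
            _ = q * (2 ^ d + 1) * 2 ^ s := by ring
            _ ≤ K * 2 ^ s := by
                refine Nat.mul_le_mul_right _ (le_trans ?_ hK)
                nlinarith
  have hpwQ : pw (cps K s) q (s + 1) = q ^ (s + 1) := by
    refine min_eq_left (le_trans ?_ hN2')
    exact Nat.le_self_pow (by positivity) _
  unfold ots
  rw [hpw2, hGr, hpwQ, ← hκdef]
  obtain ⟨hp, hp1, hp2⟩ := np_prime (x := 2 ^ d * (A + 1) * q ^ (s + 1) + 2) (by omega)
  set p := np (2 ^ d * (A + 1) * q ^ (s + 1) + 2) with hpdef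
  have hQ0 : 1 ≤ q ^ (s + 1) := Nat.one_le_pow _ _ (by omega)
  have hFG : 2 ^ d * (A + 1) ≤ 2 * 2 ^ s := by
    have h3 : A ≤ (2 * κ) ^ d := Nat.div_le_self _ _
    calc 2 ^ d * (A + 1) ≤ 2 ^ d * ((2 * κ) ^ d + (2 * κ) ^ d) := Nat.mul_le_mul_left _ (by omega)
      _ = 2 * D := by rw [← hFB]; ring
      _ ≤ 2 * 2 ^ s := Nat.mul_le_mul_left _ hspec
  have hp3 : p ≤ 2 ^ ((q + 3) * (s + 1)) := by
    have h3 : 2 ^ d * (A + 1) * q ^ (s + 1) ≤ 2 * 2 ^ s * 2 ^ (q * (s + 1)) :=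
      Nat.mul_le_mul hFG hq2
    have h4 : 2 * 2 ^ s * 2 ^ (q * (s + 1)) = 2 ^ ((q + 1) * (s + 1)) := by
      rw [← pow_succ', ← pow_add]
      congr 1
      ring
    have h5 : 2 ^ ((q + 1) * (s + 1)) * 2 ^ 2 ≤ 2 ^ ((q + 3) * (s + 1)) := by
      rw [← pow_add]
      refine Nat.pow_le_pow_right (by norm_num) ?_
      nlinarith
    have h6 : 2 ^ 1 ≤ 2 ^ ((q + 1) * (s + 1)) := Nat.pow_le_pow_right (by norm_num) (by nlinarith)
    omega
  refine out_eq hp ?_ ?_ hκ hd hq (by omega) hAg2.le ?_ ?_ hN2' ?_ ?_ ?_ ?_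
  · refine le_trans ?_ hp1
    exact Nat.add_le_add_right (Nat.mul_le_mul_left _ (Nat.sub_le _ _)) _
  · have h3 : q ^ (s + 1) ≤ 2 ^ d * (A + 1) * q ^ (s + 1) :=
      Nat.le_mul_of_pos_left _ (Nat.mul_pos hF1 (Nat.succ_pos _))
    omega
  · calc p ^ ((2 ^ d + 1) * (A + 1))
        ≤ (2 ^ ((q + 3) * (s + 1))) ^ ((2 ^ d + 1) * (A + 1)) := Nat.pow_le_pow_left hp3 _
      _ = 2 ^ ((q + 3) * (s + 1) * ((2 ^ d + 1) * (A + 1))) := (pow_mul _ _ _).symm
      _ ≤ cps K s := by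
          refine Nat.pow_le_pow_right (by norm_num) ?_
          calc (q + 3) * (s + 1) * ((2 ^ d + 1) * (A + 1))
              ≤ (q + 3) * (s + 1) * (2 * 2 ^ d * (A + 1)) :=
                Nat.mul_le_mul_left _ (Nat.mul_le_mul_right _ (by omega))
            _ = 2 * (q + 3) * (2 ^ d * (A + 1) * (s + 1)) := by ring
            _ ≤ 2 * (q + 3) * ((2 ^ d + 1) * 2 ^ s) := Nat.mul_le_mul_left _ hFA
            _ = 2 * (q + 3) * (2 ^ d + 1) * 2 ^ s := by ring
            _ ≤ K * 2 ^ s := Nat.mul_le_mul_right _ (by omega)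
  · calc q ^ D ≤ (2 ^ q) ^ D := Nat.pow_le_pow_left (Nat.lt_two_pow_self).le _
      _ = 2 ^ (q * D) := (pow_mul _ _ _).symm
      _ ≤ cps K s := Nat.pow_le_pow_right (by norm_num) (Nat.mul_le_mul (by omega) hspec)
  · have h3 : (2 ^ d + 1) * p ≤ 2 ^ ((d + q + 4) * (s + 1)) := by
      have h4 : 2 ^ d + 1 ≤ 2 ^ (d + 1) := by
        rw [pow_succ]
        omega
      calc (2 ^ d + 1) * p ≤ 2 ^ (d + 1) * 2 ^ ((q + 3) * (s + 1)) := Nat.mul_le_mul h4 hp3
        _ = 2 ^ (d + 1 + (q + 3) * (s + 1)) := (pow_add _ _ _).symm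
        _ ≤ 2 ^ ((d + q + 4) * (s + 1)) := by
            refine Nat.pow_le_pow_right (by norm_num) ?_
            nlinarith
    calc ((2 ^ d + 1) * p) ^ (2 ^ s / (s + 1))
        ≤ (2 ^ ((d + q + 4) * (s + 1))) ^ (2 ^ s / (s + 1)) := Nat.pow_le_pow_left h3 _
      _ = 2 ^ ((d + q + 4) * (s + 1) * (2 ^ s / (s + 1))) := (pow_mul _ _ _).symm
      _ ≤ cps K s := by
          refine Nat.pow_le_pow_right (by norm_num) ?_
          calc (d + q + 4) * (s + 1) * (2 ^ s / (s + 1))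
              = (d + q + 4) * (2 ^ s / (s + 1) * (s + 1)) := by ring
            _ ≤ K * 2 ^ s := Nat.mul_le_mul (by omega) (Nat.div_mul_le_self _ _)
  · have h1 : M < 2 ^ M := Nat.lt_two_pow_self
    have h2 : 2 ^ M ≤ cps K s := by
      refine Nat.pow_le_pow_right (by norm_num) ?_
      calc M ≤ K := by omega
        _ ≤ K * 2 ^ s := Nat.le_mul_of_pos_right _ (by positivity)
    omega
  · have h1 : X < 2 ^ (Nat.log 2 X + 1) := Nat.lt_pow_succ_log_self (by norm_num) X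
    have h2 : 2 ^ (Nat.log 2 X + 1) ≤ 2 ^ 2 ^ s := Nat.pow_le_pow_right (by norm_num) hX
    exact h1.trans_le (h2.trans (cps_ge hK1))
  · have h1 : 1 ≤ 2 ^ s := Nat.one_le_two_pow
    omega

/-- the simulated time is long enough -/
theorem le_time {K d s m t e : ℕ} (hK : 1 ≤ K) (hd : 1 ≤ d) (he : 9 ≤ e) (hs : s = m + e)
    (hs' : 12 + 4 ^ d ≤ s) (ht : t ^ d * (m + 1) ^ d ≤ (2 ^ (m + 1)) ^ (d + 1)) :
    t ≤ 2 ^ s / (s + 1) * kas (cps K s) d s := by
  by_contra hcon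
  rw [not_le] at hcon
  have hκ := kas_pos hK hd hs'
  have hspec := (kas_spec (s := s) hK hd).2
  have h4d : 0 < 4 ^ d := by positivity
  have hcube := cube_le (n := s) (by omega)
  have hh1 : 1 ≤ 2 ^ s / (s + 1) := by
    refine (Nat.one_le_div_iff (by omega)).2 ?_
    nlinarith [Nat.zero_le (s ^ 3), Nat.zero_le (s ^ 2)]
  have hh2 : 2 ^ s < (2 ^ s / (s + 1) + 1) * (s + 1) := by
    have h1 := Nat.div_add_mod (2 ^ s) (s + 1)
    have h2 := Nat.mod_lt (2 ^ s) (by omega : s + 1 > 0)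
    nlinarith
  set κ := kas (cps K s) d s with hκdef
  set H := 2 ^ s / (s + 1) with hH
  set Y := 2 ^ s with hY
  have e1 : Y ≤ 2 * H * (s + 1) := by
    have : (H + 1) * (s + 1) ≤ 2 * H * (s + 1) := Nat.mul_le_mul_right _ (by omega)
    omega
  have e2 : Y < (8 * κ) ^ d := by
    have : (4 * (κ + 1)) ^ d ≤ (8 * κ) ^ d := Nat.pow_le_pow_left (by omega) d
    exact hspec.trans_le this
  have e3 : Y ^ (d + 1) < (16 * (H * κ)) ^ d * (s + 1) ^ d := by
    calc Y ^ (d + 1) = Y ^ d * Y := pow_succ _ _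
      _ < Y ^ d * (8 * κ) ^ d := Nat.mul_lt_mul_of_pos_left e2 (by positivity)
      _ ≤ (2 * H * (s + 1)) ^ d * (8 * κ) ^ d :=
          Nat.mul_le_mul_right _ (Nat.pow_le_pow_left e1 d)
      _ = (16 * (H * κ)) ^ d * (s + 1) ^ d := by
          rw [← mul_pow, ← mul_pow]
          congr 1
          ring
  have e4 : (16 * (H * κ)) ^ d ≤ 16 ^ (d + 1) * t ^ d := by
    rw [mul_pow, pow_succ 16 d]
    calc 16 ^ d * (H * κ) ^ d ≤ 16 ^ d * t ^ d :=
          Nat.mul_le_mul_left _ (Nat.pow_le_pow_left hcon.le d)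
      _ ≤ 16 ^ d * 16 * t ^ d := Nat.mul_le_mul_right _ (Nat.le_mul_of_pos_right _ (by norm_num))
  have e5 : s + 1 ≤ (e + 1) * (m + 1) := by
    rw [hs]
    nlinarith
  have e6 : 16 * (e + 1) ≤ 2 ^ (e - 1) := by
    obtain ⟨k, rfl⟩ := Nat.exists_eq_add_of_le he
    have : ∀ k : ℕ, 16 * (9 + k + 1) ≤ 2 ^ (9 + k - 1) := by
      intro k
      induction k with
      | zero => norm_num
      | succ k ih =>
        have h1 : 9 + (k + 1) - 1 = (9 + k - 1) + 1 := by omega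
        rw [h1, pow_succ]
        generalize 2 ^ (9 + k - 1) = y at ih ⊢
        omega
    exact this k
  have e7 : Y ^ (d + 1) < Y ^ (d + 1) := by
    calc Y ^ (d + 1) < (16 * (H * κ)) ^ d * (s + 1) ^ d := e3
      _ ≤ 16 ^ (d + 1) * t ^ d * ((e + 1) * (m + 1)) ^ d :=
          Nat.mul_le_mul e4 (Nat.pow_le_pow_left e5 _)
      _ = 16 ^ (d + 1) * (e + 1) ^ d * (t ^ d * (m + 1) ^ d) := by
          rw [mul_pow (e + 1) (m + 1)]
          ring
      _ ≤ 16 ^ (d + 1) * (e + 1) ^ (d + 1) * (t ^ d * (m + 1) ^ d) :=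
          Nat.mul_le_mul_right _ (Nat.mul_le_mul_left _
            (Nat.pow_le_pow_right (by omega) (Nat.le_succ _)))
      _ = (16 * (e + 1)) ^ (d + 1) * (t ^ d * (m + 1) ^ d) := by rw [mul_pow 16 (e + 1)]
      _ ≤ (2 ^ (e - 1)) ^ (d + 1) * (2 ^ (m + 1)) ^ (d + 1) :=
          Nat.mul_le_mul (Nat.pow_le_pow_left e6 _) ht
      _ = Y ^ (d + 1) := by
          have h1 : e - 1 + (m + 1) = m + e := by omega
          rw [← mul_pow, ← pow_add, hY, hs, h1]
  exact lt_irrefl _ e7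

/-! ### Computability -/

section

variable {α : Type} [Ctx α] {bd : α → ℕ}

theorem Cmp.ots (v K d q M : ℕ) (hK : 1 ≤ K) {X s : α → ℕ} (hX : Cmp bd X) (hs : Cmp bd s)
    (hb : Pb bd (fun a => cps K (s a))) :
    Cmp bd (fun a => MESH.ots v K d q M (X a) (s a)) := by
  have h2 : Cmp bd (fun a => 2 ^ s a) :=
    Cmp.two_pow hs (hb.of_le fun a => (cps_gt hK).le)
  have hN : Cmp bd (fun a => cps K (s a)) :=
    Cmp.two_pow (Cmp.mul (Cmp.const K) h2) hb
  have hκ : Cmp bd (fun a => kas (cps K (s a)) d (s a)) := by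
    refine Cmp.sum (h := fun x : α × ℕ => if pw (cps K (s x.1)) (4 * (x.2 + 1)) d ≤
      2 ^ s x.1 then 1 else 0) h2 ?_
    exact Cmp.ite (CmpP.le (Cmp.pw hN.wk1 (Cmp.mul (Cmp.const 4) (Cmp.i bd).succ)
      (Cmp.const d)) h2.wk1) (Cmp.const 1) (Cmp.const 0)
  have hgr : Cmp bd (fun a => grs (cps K (s a)) d (s a)) :=
    Cmp.succ (Cmp.div (Cmp.pw hN (Cmp.mul (Cmp.const 2) hκ) (Cmp.const d)) hs.succ)
  unfold MESH.ots
  exact Cmp.ot v hN (Cmp.np (Cmp.add (Cmp.mul (Cmp.mul (Cmp.pw hN (Cmp.const 2) (Cmp.const d))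
    hgr) (Cmp.pw hN (Cmp.const q) hs.succ)) (Cmp.const 2)))
    (fun a => (np_prime (by omega)).1.one_le) hκ (Cmp.const d) (Cmp.div h2 hs.succ)
    (Cmp.const q) (Cmp.const M) hs.succ hgr hX (Cmp.const 1)

end

/-! ### The theorem -/

theorem time {d : ℕ} [NeZero d] (A : Aut d) (L : Set (List Bool)) (S : ℕ → ℕ)
    (hS : ∀ n, n + 1 ≤ S n)
    (hL : ∀ w : List Bool, ∃ (t : ℕ) (b : Bool), A.Answers w [] t b ∧ (b = true ↔ w ∈ L) ∧
      t ^ d * (Nat.log 2 (S w.length) + 1) ^ d ≤ S w.length ^ (d + 1)) :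
    ∃ C : ℕ, L ∈ DSPACE (fun n => C * S n) := by
  classical
  have hd : 1 ≤ d := Nat.one_le_iff_ne_zero.2 (NeZero.ne d)
  obtain ⟨q, M, hq, hcode⟩ := code A
  set K := 2 * (q + 3) * (2 ^ d + 1) + d + M with hK
  have hK1 : 1 ≤ K := by
    have : 1 ≤ 2 * (q + 3) * (2 ^ d + 1) := Nat.mul_pos (by omega) (by positivity)
    omega
  set P : ℕ × ℕ → Prop := fun x => x.1 = 0 ∨ ((12 + 4 ^ d ≤ x.2 ∧ Nat.log 2 x.1 + 1 ≤ 2 ^ x.2) ∧
    (¬ (MESH.ots 1 K d q M x.1 x.2 = 0 ∧ MESH.ots 2 K d q M x.1 x.2 = 0))) with hP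
  -- the meaning of the simulation
  have hots : ∀ (w : List Bool) (s : ℕ), 12 + 4 ^ d ≤ s → Nat.log 2 (num w) + 1 ≤ 2 ^ s →
      (MESH.ots 1 K d q M (num w) s ≠ 0 ↔ ∃ t ≤ 2 ^ s / (s + 1) * kas (cps K s) d s,
        A.Answers w [] t false) ∧
      (MESH.ots 2 K d q M (num w) s ≠ 0 ↔ ∃ t ≤ 2 ^ s / (s + 1) * kas (cps K s) d s,
        A.Answers w [] t true) := by
    intro w s h1 h2
    have h3 := hcode w [] (2 ^ s / (s + 1) * kas (cps K s) d s)
    have hnil : num [] = 1 := rfl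
    rw [hnil] at h3
    rw [ots_spec (K := K) (v := 1) hK.ge hd hq h1 h2, ots_spec (K := K) (v := 2) hK.ge hd hq h1 h2,
      ← h3.1, ← h3.2]
    constructor
    · split_ifs with h <;> simp [h]
    · split_ifs with h <;> simp [h]
  -- the budget which suffices
  have hlog : ∀ w : List Bool, Nat.log 2 (num w) = w.length := by
    intro w
    have hwb := num_bounds w
    have h2 : 0 < 2 ^ w.length := by positivity
    rw [Nat.log_eq_iff (Or.inr ⟨by norm_num, by omega⟩)]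
    exact hwb
  set e := 21 + 4 ^ d with he
  have h4d : 0 < 4 ^ d := by positivity
  have hsuf : ∀ w : List Bool, P (num w, Nat.log 2 (S w.length) + e) := by
    intro w
    obtain ⟨t, b, hA, -, ht⟩ := hL w
    set m := Nat.log 2 (S w.length) with hm
    have hSm : S w.length < 2 ^ (m + 1) := Nat.lt_pow_succ_log_self (by norm_num) _
    have h1 : 12 + 4 ^ d ≤ m + e := by omega
    have h2 : Nat.log 2 (num w) + 1 ≤ 2 ^ (m + e) := by
      rw [hlog]
      have h3 := hS w.length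
      have h4 : 2 ^ (m + 1) ≤ 2 ^ (m + e) := Nat.pow_le_pow_right (by norm_num) (by omega)
      omega
    have h5 : t ≤ 2 ^ (m + e) / (m + e + 1) * kas (cps K (m + e)) d (m + e) :=
      le_time hK1 hd (by omega) rfl h1 (ht.trans (Nat.pow_le_pow_left hSm.le _))
    refine Or.inr ⟨⟨h1, h2⟩, ?_⟩
    rintro ⟨h6, h7⟩
    cases b with
    | false => exact (hots w _ h1 h2).1.2 ⟨t, h5, hA⟩ h6
    | true => exact (hots w _ h1 h2).2.2 ⟨t, h5, hA⟩ h7
  have hex : ∀ X : ℕ, ∃ s, P (X, s) := by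
    intro X
    rcases Nat.eq_zero_or_pos X with h | h
    · exact ⟨0, Or.inl h⟩
    · obtain ⟨w, -, hw⟩ := Pool.Agent.helper12.SP.num_surj (Nat.log 2 X) (X - 2 ^ Nat.log 2 X) (by
        have h1 : X < 2 ^ (Nat.log 2 X + 1) := Nat.lt_pow_succ_log_self (by norm_num) X
        rw [pow_succ] at h1
        omega)
      have h2 : 2 ^ Nat.log 2 X ≤ X := Nat.pow_log_le_self 2 (by omega)
      have h3 : num w = X := by omega
      exact ⟨_, h3 ▸ hsuf w⟩
  set μ : ℕ → ℕ := fun X => Nat.find (hex X) with hμ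
  have hμP : ∀ X, P (X, μ X) := fun X => Nat.find_spec (hex X)
  have hμmin : ∀ X, ∀ s < μ X, ¬ P (X, s) := fun X s hs => Nat.find_min (hex X) hs
  set bd : ℕ → ℕ := fun X => cps K (μ X) with hbd
  set bd' : ℕ × ℕ → ℕ := fun x => x.1 + cps K x.2 with hbd'
  have hXbd : ∀ X, X ≤ bd X := by
    intro X
    rcases hμP X with h | ⟨⟨-, h⟩, -⟩
    · simp only at h
      omega
    · simp only at h
      have h1 : X < 2 ^ (Nat.log 2 X + 1) := Nat.lt_pow_succ_log_self (by norm_num) X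
      have h2 : 2 ^ (Nat.log 2 X + 1) ≤ 2 ^ 2 ^ μ X := Nat.pow_le_pow_right (by norm_num) h
      exact h1.le.trans (h2.trans (cps_ge hK1))
  -- contexts
  have c1 : Cmp bd' (fun x : ℕ × ℕ => x.1) := by
    refine Cmp.reindex (Cmp.var Pb.self) (fun x : ℕ × ℕ => x.1) ?_ ?_
    · intro i hi
      refine ⟨i, ?_, fun x => ?_⟩
      · rw [Pool.Agent.helper12.SP.dim_prod]
        omega
      · rw [Pool.Agent.helper12.SP.reg_prod, if_pos hi]
    · exact Pb.of_le (fun x => by simp only [hbd']; omega) Pb.self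
  have c2 : Cmp bd' (fun x : ℕ × ℕ => x.2) := by
    refine Cmp.reindex (Cmp.var Pb.self) (fun x : ℕ × ℕ => x.2) ?_ ?_
    · intro i hi
      rw [Pool.Agent.helper12.SP.dim_nat] at hi
      refine ⟨1, by rw [Pool.Agent.helper12.SP.dim_prod]; exact Nat.one_lt_two, fun x => ?_⟩
      rw [Pool.Agent.helper12.SP.reg_prod, if_neg (by rw [Pool.Agent.helper12.SP.dim_nat]; omega)]
      rfl
    · refine Pb.of_le (fun x => ?_) Pb.self
      simp only [hbd']
      have h1 := cps_gt (K := K) (s := x.2) hK1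
      have h2 : x.2 < 2 ^ x.2 := Nat.lt_two_pow_self
      omega
  have hb' : Pb bd' (fun x : ℕ × ℕ => cps K x.2) :=
    Pb.of_le (fun x => by simp only [hbd']; omega) Pb.self
  have c3 : Cmp bd' (fun x : ℕ × ℕ => 2 ^ x.2) :=
    Cmp.two_pow c2 (hb'.of_le fun a => (cps_gt hK1).le)
  have hcP : CmpP bd' P := by
    have k1 : CmpP bd' (fun x : ℕ × ℕ => x.1 = 0) := CmpP.eq c1 (Cmp.const 0)
    have k2 : CmpP bd' (fun x : ℕ × ℕ => 12 + 4 ^ d ≤ x.2 ∧ Nat.log 2 x.1 + 1 ≤ 2 ^ x.2) :=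
      CmpP.and (CmpP.le (Cmp.const _) c2) (CmpP.le (Cmp.log c1).succ c3)
    have k3 : CmpP bd' (fun x : ℕ × ℕ => ¬ (MESH.ots 1 K d q M x.1 x.2 = 0 ∧
        MESH.ots 2 K d q M x.1 x.2 = 0)) :=
      CmpP.not (CmpP.and (CmpP.eq (Cmp.ots 1 K d q M hK1 c1 c2 hb') (Cmp.const 0))
        (CmpP.eq (Cmp.ots 2 K d q M hK1 c1 c2 hb') (Cmp.const 0)))
    exact (CmpP.not (CmpP.and k1.not (CmpP.and k2 k3).not)).congr fun x => by
      simp only [hP]
      tauto
  have hcμ : Cmp bd μ := by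
    refine Cmp.search hcP hμP hμmin ⟨2, fun X s hs => ?_⟩ ⟨1, fun X => ?_⟩
    · have h1 := hXbd X
      have h2 : cps K s ≤ bd X := Nat.pow_le_pow_right (by norm_num)
        (Nat.mul_le_mul_left _ (Nat.pow_le_pow_right (by norm_num) hs))
      have h3 : X + cps K s ≤ 2 * bd X := by omega
      refine h3.trans ?_
      nlinarith
    · have h1 := cps_gt (K := K) (s := μ X) hK1
      have h2 : μ X < 2 ^ μ X := Nat.lt_two_pow_self
      rw [pow_one]
      simp only [hbd]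
      omega
  have hcX : Cmp bd (fun X : ℕ => X) := Cmp.var (Pb.of_le hXbd Pb.self)
  have hcf : Cmp bd (fun X => MESH.ots 2 K d q M X (μ X)) :=
    Cmp.ots 2 K d q M hK1 hcX hcμ Pb.self
  -- the bound
  have hμle : ∀ X, 1 ≤ X → μ X ≤ Nat.log 2 (S (Nat.log 2 X)) + e := by
    intro X h
    obtain ⟨w, -, hw⟩ := Pool.Agent.helper12.SP.num_surj (Nat.log 2 X) (X - 2 ^ Nat.log 2 X) (by
      have h1 : X < 2 ^ (Nat.log 2 X + 1) := Nat.lt_pow_succ_log_self (by norm_num) X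
      rw [pow_succ] at h1
      omega)
    have h2 : 2 ^ Nat.log 2 X ≤ X := Nat.pow_log_le_self 2 (by omega)
    have h3 : num w = X := by omega
    have h4 := hsuf w
    rw [← hlog w, h3] at h4
    exact Nat.find_min' (hex X) h4
  obtain ⟨C, hC⟩ := dspace_of_cmp hcf (fun n => K * 2 ^ e * S n) (by
    intro X h
    refine Nat.pow_le_pow_right (by norm_num) ?_
    have h1 := hμle X h
    have h2 : 2 ^ μ X ≤ 2 ^ (Nat.log 2 (S (Nat.log 2 X)) + e) :=
      Nat.pow_le_pow_right (by norm_num) h1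
    have h3 : 2 ^ Nat.log 2 (S (Nat.log 2 X)) ≤ S (Nat.log 2 X) := by
      refine Nat.pow_log_le_self 2 ?_
      have := hS (Nat.log 2 X)
      omega
    calc K * 2 ^ μ X ≤ K * 2 ^ (Nat.log 2 (S (Nat.log 2 X)) + e) := Nat.mul_le_mul_left _ h2
      _ = K * 2 ^ e * 2 ^ Nat.log 2 (S (Nat.log 2 X)) := by rw [pow_add]; ring
      _ ≤ K * 2 ^ e * S (Nat.log 2 X) := Nat.mul_le_mul_left _ h3)
  have hset : {w : List Bool | MESH.ots 2 K d q M (num w) (μ (num w)) ≠ 0} = L := by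
    ext w
    change MESH.ots 2 K d q M (num w) (μ (num w)) ≠ 0 ↔ w ∈ L
    obtain ⟨t, b, hA, hb, -⟩ := hL w
    have hnum : num w ≠ 0 := by
      have := (num_bounds w).1
      have h2 : 0 < 2 ^ w.length := by positivity
      omega
    rcases hμP (num w) with h | ⟨⟨h1, h2⟩, h3⟩
    · exact absurd h hnum
    · simp only at h1 h2 h3
      rw [(hots w _ h1 h2).2, ← hb]
      constructor
      · rintro ⟨t', -, ht'⟩
        exact (Answers_unique A hA ht').2
      · intro hbt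
        subst hbt
        by_contra hcon
        apply h3
        constructor
        · by_contra h4
          obtain ⟨t', -, ht'⟩ := (hots w _ h1 h2).1.1 h4
          have := (Answers_unique A hA ht').2
          simp at this
        · by_contra h4
          exact hcon ((hots w _ h1 h2).2.1 h4)
  rw [hset] at hC
  refine ⟨C * (K * 2 ^ e + 1), DSPACE_mono (fun n => ?_) hC⟩
  have := hS n
  calc C * (K * 2 ^ e * S n + n + 1) ≤ C * (K * 2 ^ e * S n + S n) :=
        Nat.mul_le_mul_left _ (by omega)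
    _ = C * (K * 2 ^ e + 1) * S n := by ring

end Pool.Agent.helper39.MESH
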